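import Mathlib

set_option autoImplicit false

open Filter Topology

namespace Pool.Agent.H740Z.Fs

open Classical in
/-- number of elements of `A` below `N` -/
noncomputable def cnt (A : Set ℕ) (N : ℕ) : ℕ := ((Finset.range N).filter (· ∈ A)).card

/-- positive lower density in counting form -/
def PD (A : Set ℕ) : Prop := ∃ R N0 : ℕ, ∀ N, N0 ≤ N → N ≤ R * cnt A N

lemma cnt_le_add {A B : Set ℕ} {N s : ℕ} (h : ∀ n < N, s ≤ n → n ∈ A → n ∈ B) :
    cnt A N ≤ cnt B N + s := by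
  classical
  unfold cnt
  conv_rhs => rw [← Finset.card_range s]
  refine (Finset.card_le_card ?_).trans (Finset.card_union_le _ _)
  intro n hn
  simp only [Finset.mem_filter, Finset.mem_range, Finset.mem_union] at hn ⊢
  by_cases h1 : s ≤ n
  · exact Or.inl ⟨hn.1, h n hn.1 h1 hn.2⟩
  · exact Or.inr (by omega)

lemma cnt_mono {A B : Set ℕ} {N : ℕ} (h : ∀ n < N, n ∈ A → n ∈ B) : cnt A N ≤ cnt B N :=
  cnt_le_add (s := 0) fun n hn _ => h n hn

lemma cnt_le (A : Set ℕ) (N : ℕ) : cnt A N ≤ N := by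
  classical
  unfold cnt
  exact (Finset.card_filter_le _ _).trans (Finset.card_range N).le

lemma cnt_shift1 (A : Set ℕ) (a N : ℕ) : cnt A N ≤ cnt {m | m + a ∈ A} N + a := by
  classical
  unfold cnt
  conv_rhs => rw [← Finset.card_range a]
  refine le_trans ?_ (Nat.add_le_add_right (Finset.card_image_le (f := fun m => m + a)) _)
  refine (Finset.card_le_card ?_).trans (Finset.card_union_le _ _)
  intro n hn
  simp only [Finset.mem_filter, Finset.mem_range, Finset.mem_union, Finset.mem_image,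
    Finset.card_range, Set.mem_ofPred_eq] at hn ⊢
  by_cases h1 : a ≤ n
  · exact Or.inl ⟨n - a, ⟨by omega, by rw [Nat.sub_add_cancel h1]; exact hn.2⟩, by omega⟩
  · exact Or.inr (by omega)

lemma cnt_shift2 (A : Set ℕ) (a N : ℕ) : cnt {m | m + a ∈ A} N ≤ cnt A N + a := by
  classical
  unfold cnt
  have h : a = (Finset.Ico N (N + a)).card := by simp
  conv_rhs => rw [h]
  refine le_trans ?_ (Finset.card_union_le _ _)
  refine Finset.card_le_card_of_injOn (fun m => m + a) ?_ (fun x _ y _ h => by simpa using h)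
  intro n hn
  simp only [Finset.coe_filter, Finset.mem_range, Set.mem_ofPred_eq, Finset.coe_union,
    Set.mem_union, Finset.coe_Ico, Set.mem_Ico] at hn ⊢
  by_cases h1 : n + a < N
  · exact Or.inl ⟨h1, hn.2⟩
  · exact Or.inr ⟨by omega, by omega⟩

lemma pigeon (E : ℕ → Set ℕ) (η N : ℕ) (r : ℕ)
    (h : ∀ i < r, ∀ j < i, cnt (E j ∩ E i) N ≤ η) :
    ∑ i ∈ Finset.range r, cnt (E i) N ≤ cnt {n | ∃ i < r, n ∈ E i} N + r * r * η := by
  classical
  induction r with
  | zero => simp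
  | succ r ih =>
    have h1 := ih (fun i hi => h i (by omega))
    rw [Finset.sum_range_succ]
    have h2 : cnt {n | ∃ i < r + 1, n ∈ E i} N + cnt ({n | ∃ i < r, n ∈ E i} ∩ E r) N =
        cnt {n | ∃ i < r, n ∈ E i} N + cnt (E r) N := by
      unfold cnt
      symm
      rw [← Finset.card_union_add_card_inter]
      symm
      congr 2
      · ext n
        simp only [Finset.mem_filter, Finset.mem_range, Set.mem_ofPred_eq, Finset.mem_union]
        constructor
        · rintro ⟨hn, i, hi, hE⟩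
          rcases Nat.lt_or_ge i r with h | h
          · exact Or.inl ⟨hn, i, h, hE⟩
          · have : i = r := by omega
            exact Or.inr ⟨hn, this ▸ hE⟩
        · rintro (⟨hn, i, hi, hE⟩ | ⟨hn, hE⟩)
          · exact ⟨hn, i, by omega, hE⟩
          · exact ⟨hn, r, by omega, hE⟩
      · ext n
        simp only [Finset.mem_filter, Finset.mem_range, Set.mem_inter_iff, Finset.mem_inter]
        tauto
    have h3 : cnt ({n | ∃ i < r, n ∈ E i} ∩ E r) N ≤ ∑ j ∈ Finset.range r, cnt (E j ∩ E r) N := by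
      unfold cnt
      refine le_trans (Finset.card_le_card ?_) Finset.card_biUnion_le
      intro n hn
      simp only [Finset.mem_filter, Finset.mem_range, Set.mem_inter_iff, Set.mem_ofPred_eq,
        Finset.mem_biUnion] at hn ⊢
      obtain ⟨hn, ⟨i, hi, hE⟩, hr⟩ := hn
      exact ⟨i, hi, hn, hE, hr⟩
    have h4 : ∑ j ∈ Finset.range r, cnt (E j ∩ E r) N ≤ r * η := by
      refine (Finset.sum_le_card_nsmul _ _ η fun j hj => ?_).trans (by simp)
      exact h r (by omega) j (Finset.mem_range.1 hj)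
    have h5 : (r + 1) * (r + 1) * η = r * r * η + r * η + (r * η + η) := by ring
    omega

lemma pigeon2 (E : ℕ → Set ℕ) (η N R : ℕ) (hR : 0 < R)
    (h1 : ∀ i < 2 * R, N ≤ R * cnt (E i) N)
    (h2 : ∀ i < 2 * R, ∀ j < i, cnt (E j ∩ E i) N ≤ η) : N ≤ 4 * R * R * η := by
  have h3 := pigeon E η N (2 * R) h2
  have h4 := cnt_le {n | ∃ i < 2 * R, n ∈ E i} N
  have h5 : ∑ _i ∈ Finset.range (2 * R), N ≤ ∑ i ∈ Finset.range (2 * R), R * cnt (E i) N :=
    Finset.sum_le_sum fun i hi => h1 i (Finset.mem_range.1 hi)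
  rw [← Finset.mul_sum, Finset.sum_const, Finset.card_range, smul_eq_mul] at h5
  have h6 : R * (2 * N) ≤ R * ∑ i ∈ Finset.range (2 * R), cnt (E i) N := by
    calc R * (2 * N) = 2 * R * N := by ring
      _ ≤ _ := h5
  have h7 := Nat.le_of_mul_le_mul_left h6 hR
  have h8 : 2 * R * (2 * R) * η = 4 * R * R * η := by ring
  omega

lemma PD.pos {A : Set ℕ} (h : PD A) : ∃ R N0 : ℕ, 0 < R ∧ ∀ N, N0 ≤ N → N ≤ R * cnt A N := by
  obtain ⟨R, N0, h⟩ := h
  exact ⟨R + 1, N0, Nat.succ_pos _, fun N hN => (h N hN).trans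
    (Nat.mul_le_mul_right _ (Nat.le_succ R))⟩

lemma PD.mono {A B : Set ℕ} (h : PD A) (s : ℕ) (hAB : ∀ n, s ≤ n → n ∈ A → n ∈ B) : PD B := by
  obtain ⟨R, N0, h⟩ := h
  refine ⟨2 * R, N0 + 2 * (R * s), fun N hN => ?_⟩
  have h1 := h N (by omega)
  have h2 : cnt A N ≤ cnt B N + s := cnt_le_add fun n _ => hAB n
  have h3 : R * cnt A N ≤ R * (cnt B N + s) := Nat.mul_le_mul_left _ h2
  have h4 : R * (cnt B N + s) = R * cnt B N + R * s := by ring
  have h5 : 2 * R * cnt B N = 2 * (R * cnt B N) := by ring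
  omega

/-- large returns are syndetic along an ultrafilter -/
lemma syndetic_returns {A : Set ℕ} (hA : PD A) : ∃ Q M : ℕ, ∀ k, ∃ j ≤ M,
    ∀ᶠ N in (hyperfilter ℕ : Filter ℕ), N ≤ Q * cnt (A ∩ {m | m + (k + j) ∈ A}) N := by
  obtain ⟨R, N0, hR, hA⟩ := hA.pos
  refine ⟨8 * (2 * R) * (2 * R), ?_⟩
  by_contra hcon
  push Not at hcon
  choose kf hkf using hcon
  let n : ℕ → ℕ := fun i => Nat.rec 0 (fun _ a => kf a + a) i
  have hn : ∀ i, n (i + 1) = kf (n i) + n i := fun i => rfl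
  have hmono : Monotone n := monotone_nat_of_le_succ fun i => by rw [hn]; omega
  have hdiff : ∀ i j, j < i → ∀ᶠ N in (hyperfilter ℕ : Filter ℕ),
      8 * (2 * R) * (2 * R) * cnt (A ∩ {m | m + (n i - n j) ∈ A}) N < N := by
    intro i j hij
    obtain ⟨i, rfl⟩ : ∃ i', i = i' + 1 := ⟨i - 1, by omega⟩
    have h1 : n j ≤ n i := hmono (by omega)
    have h2 := hkf (n i) (n i - n j) (by omega)
    rw [show kf (n i) + (n i - n j) = n (i + 1) - n j by rw [hn]; omega] at h2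
    exact h2
  set r := 2 * (2 * R) with hr
  have hall : ∀ᶠ N in (hyperfilter ℕ : Filter ℕ), ∀ i ∈ Finset.range r, ∀ j ∈ Finset.range i,
      8 * (2 * R) * (2 * R) * cnt (A ∩ {m | m + (n i - n j) ∈ A}) N < N := by
    rw [eventually_all_finset]
    intro i _
    rw [eventually_all_finset]
    intro j hj
    exact hdiff i j (Finset.mem_range.1 hj)
  have hbig := Nat.hyperfilter_le_atTop
    (eventually_ge_atTop (N0 + 2 * (R * n r) + 2 * (4 * (2 * R) * (2 * R) * n r) + 1))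
  obtain ⟨N, h1, h2⟩ := (hall.and hbig).exists
  have hQ : 0 < 8 * (2 * R) * (2 * R) := by positivity
  have h3 := pigeon2 (fun i => {m | m + n i ∈ A}) (N / (8 * (2 * R) * (2 * R)) + n r) N (2 * R)
    (by omega) (fun i hi => ?_) (fun i hi j hj => ?_)
  · have h4 := Nat.mul_div_le N (8 * (2 * R) * (2 * R))
    have h5 : 4 * (2 * R) * (2 * R) * (N / (8 * (2 * R) * (2 * R)) + n r) =
      4 * (2 * R) * (2 * R) * (N / (8 * (2 * R) * (2 * R))) + 4 * (2 * R) * (2 * R) * n r := by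
      ring
    have h6 : 8 * (2 * R) * (2 * R) * (N / (8 * (2 * R) * (2 * R))) =
      2 * (4 * (2 * R) * (2 * R) * (N / (8 * (2 * R) * (2 * R)))) := by ring
    omega
  · have h4 := hA N (by omega)
    have h5 := cnt_shift1 A (n i) N
    have h6 : n i ≤ n r := hmono hi.le
    have h7 : R * cnt A N ≤ R * (cnt {m | m + n i ∈ A} N + n r) :=
      Nat.mul_le_mul_left _ (by omega)
    have h8 : R * (cnt {m | m + n i ∈ A} N + n r) = R * cnt {m | m + n i ∈ A} N + R * n r := by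
      ring
    have h9 : 2 * R * cnt {m | m + n i ∈ A} N = 2 * (R * cnt {m | m + n i ∈ A} N) := by ring
    omega
  · have h4 := h1 i (Finset.mem_range.2 hi) j (Finset.mem_range.2 hj)
    have h5 := cnt_shift2 (A ∩ {m | m + (n i - n j) ∈ A}) (n j) N
    have h6 : n j ≤ n r := hmono (by omega)
    have h7 : n j ≤ n i := hmono hj.le
    have h8 : cnt (A ∩ {m | m + (n i - n j) ∈ A}) N ≤ N / (8 * (2 * R) * (2 * R)) := by
      rw [Nat.le_div_iff_mul_le hQ, mul_comm]; exact h4.le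
    refine le_trans (cnt_mono ?_) (h5.trans (by omega))
    rintro m - ⟨h9, h10⟩
    refine ⟨h9, ?_⟩
    simp only [Set.mem_ofPred_eq] at h10 ⊢
    rwa [show m + n j + (n i - n j) = m + n i by omega]

/-- the combinatorial core of the theorem of Bayart and Ruzsa -/
lemma summable_of_returns {A : Set ℕ} (hA : PD A) (α : ℕ → ℝ) (h0 : ∀ k, 0 ≤ α k) (D : ℝ)
    (hD : 1 ≤ D) (hα : ∀ k, α k ≤ D * α (k + 1)) (C : ℝ) (hC0 : 0 ≤ C)
    (hC : ∀ n ∈ A, ∀ G : Finset ℕ, (∀ k ∈ G, n + k ∈ A) → ∑ k ∈ G, α k ≤ C) : Summable α := by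
  classical
  obtain ⟨Q, M, hM⟩ := syndetic_returns hA
  let F : Set ℕ := {k | ∀ᶠ N in (hyperfilter ℕ : Filter ℕ),
    N ≤ Q * cnt (A ∩ {m | m + k ∈ A}) N}
  have h1 : Summable (F.indicator α) := by
    refine summable_of_sum_le (c := Q * C) (fun k => Set.indicator_nonneg (fun k _ => h0 k) k)
      fun G => ?_
    rw [Finset.sum_indicator_eq_sum_filter]
    set G' := G.filter (· ∈ F) with hG'
    have hall : ∀ᶠ N in (hyperfilter ℕ : Filter ℕ), ∀ k ∈ G',
        N ≤ Q * cnt (A ∩ {m | m + k ∈ A}) N := by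
      rw [eventually_all_finset]
      intro k hk
      exact (Finset.mem_filter.1 hk).2
    obtain ⟨N, h1, h2⟩ := (hall.and (Nat.hyperfilter_le_atTop (eventually_ge_atTop 1))).exists
    have hN : (0 : ℝ) < N := by exact_mod_cast h2
    have h3 : ∑ k ∈ G', α k * (cnt (A ∩ {m | m + k ∈ A}) N : ℝ) ≤ N * C := by
      have e : ∀ k, α k * (cnt (A ∩ {m | m + k ∈ A}) N : ℝ) =
          ∑ n ∈ Finset.range N, if n ∈ A ∧ n + k ∈ A then α k else 0 := by
        intro k
        rw [← Finset.sum_filter, Finset.sum_const, nsmul_eq_mul, mul_comm]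
        unfold cnt
        congr
      simp only [e]
      rw [Finset.sum_comm]
      refine (Finset.sum_le_card_nsmul _ _ C fun n _ => ?_).trans (by simp)
      rw [← Finset.sum_filter]
      by_cases hn : n ∈ A
      · exact hC n hn _ fun k hk => (Finset.mem_filter.1 hk).2.2
      · simp [hn, hC0]
    have h4 : (N : ℝ) * ∑ k ∈ G', α k ≤ Q * ∑ k ∈ G', α k * (cnt (A ∩ {m | m + k ∈ A}) N : ℝ) := by
      rw [Finset.mul_sum, Finset.mul_sum]
      refine Finset.sum_le_sum fun k hk => ?_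
      have h5 : (N : ℝ) ≤ Q * (cnt (A ∩ {m | m + k ∈ A}) N : ℝ) := by exact_mod_cast h1 k hk
      have := h0 k
      nlinarith
    have h5 : (Q : ℝ) * ∑ k ∈ G', α k * (cnt (A ∩ {m | m + k ∈ A}) N : ℝ) ≤ Q * (N * C) := by
      gcongr
    have h6 : (N : ℝ) * ∑ k ∈ G', α k ≤ N * (Q * C) := by nlinarith
    exact le_of_mul_le_mul_left h6 hN
  have h2 : ∀ j k, α k ≤ D ^ j * α (k + j) := by
    intro j
    induction j with
    | zero => simp
    | succ j ih =>
      intro k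
      refine (ih k).trans ?_
      rw [pow_succ, mul_assoc, ← add_assoc]
      gcongr
      exact hα _
  refine Summable.of_nonneg_of_le h0 (f := fun k => D ^ M * ∑ j ∈ Finset.range (M + 1),
    F.indicator α (k + j)) (fun k => ?_) (Summable.mul_left _ (summable_sum fun j _ =>
      (summable_nat_add_iff j).2 h1))
  obtain ⟨j, hj, hF⟩ := hM k
  refine (h2 j k).trans ?_
  have h3 : α (k + j) ≤ ∑ j ∈ Finset.range (M + 1), F.indicator α (k + j) := by
    have : α (k + j) = F.indicator α (k + j) := (Set.indicator_of_mem (by exact hF) α).symm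
    rw [this]
    exact Finset.single_le_sum (f := fun j => F.indicator α (k + j))
      (fun i _ => Set.indicator_nonneg (fun k _ => h0 k) _) (Finset.mem_range.2 (by omega))
  have := h0 (k + j)
  gcongr

lemma exists_window (f : ℕ → ℕ) (hf : ∀ m, f m < f (m + 1)) (N : ℕ) (h : f 0 ≤ N) :
    ∃ m, f m ≤ N ∧ N < f (m + 1) := by
  induction N, h using Nat.le_induction with
  | base => exact ⟨0, le_rfl, hf 0⟩
  | succ N _ ih =>
    obtain ⟨m, h2, h3⟩ := ih
    rcases Nat.lt_or_ge (N + 1) (f (m + 1)) with h | h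
    · exact ⟨m, by omega, h⟩
    · exact ⟨m + 1, h, by have := hf (m + 1); omega⟩

/-- gluing of compatible patterns -/
lemma glue (G : ℕ → Set ℕ) (L : ℕ → ℕ) (A : Set ℕ) (R N0 : ℕ) (hR : 0 < R)
    (g1 : ∀ j n, L j ≤ n → n ∈ G j) (g2 : ∀ j N, N0 ≤ N → N ≤ R * cnt (G j ∩ A) N)
    (g3 : ∀ T K, ∃ j, K ≤ j ∧ ∀ n < T, n ∈ A → n ∈ G j) :
    ∃ B, PD B ∧ ∀ K, ∃ j, K ≤ j ∧ B ⊆ G j := by
  choose J hJ1 hJ2 using g3
  let s : ℕ → ℕ := fun k => Nat.rec 0 (fun k a => L (J (2 * (R * a)) k) + a + 1) k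
  have hs : ∀ k, s (k + 1) = L (J (2 * (R * s k)) k) + s k + 1 := fun k => rfl
  have hmono : Monotone s := monotone_nat_of_le_succ fun k => by rw [hs]; omega
  refine ⟨⋂ k, G (J (2 * (R * s k)) k), ⟨2 * R, N0, fun N hN => ?_⟩,
    fun K => ⟨_, hJ1 _ K, Set.iInter_subset _ K⟩⟩
  obtain ⟨k, h1, h2⟩ := exists_window (fun k => 2 * (R * s k)) (fun k => by
    have : s k < s (k + 1) := by rw [hs]; omega
    have := Nat.mul_lt_mul_of_pos_left this hR
    omega) N (by simp [s])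
  have h3 := g2 (J (2 * (R * s k)) k) N hN
  have h4 : cnt (G (J (2 * (R * s k)) k) ∩ A) N ≤ cnt (⋂ k, G (J (2 * (R * s k)) k)) N + s k := by
    refine cnt_le_add fun n hn hsn hmem => Set.mem_iInter.2 fun i => ?_
    rcases lt_trichotomy i k with h | h | h
    · have : s (i + 1) ≤ s k := hmono h
      exact g1 _ _ (by rw [hs] at this; omega)
    · rw [h]; exact hmem.1
    · have : R * s (k + 1) ≤ R * s i := Nat.mul_le_mul_left _ (hmono h)
      exact hJ2 _ _ n (by omega) hmem.2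
  have h5 := Nat.mul_le_mul_left R h4
  rw [mul_add] at h5
  rw [mul_assoc]
  omega

/-- the epochs of type `p` -/
def kk (p m : ℕ) : ℕ := 2 ^ p * (2 * m + 1)

lemma val_kk (p m : ℕ) : padicValNat 2 (kk p m) = p := by
  rw [kk, padicValNat.mul (by positivity) (by omega), padicValNat.prime_pow,
    padicValNat.eq_zero_of_not_dvd (by omega), add_zero]

lemma lt_kk (p m : ℕ) : p < kk p m := by
  have h1 : p < 2 ^ p := Nat.lt_two_pow_self
  have : 2 ^ p * 1 ≤ 2 ^ p * (2 * m + 1) := Nat.mul_le_mul_left _ (by omega)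
  unfold kk; omega

/-- the slots of type `i` -/
def slot (i : ℕ) : Set ℕ :=
  {k | ∃ m r, k = 2 * 4 ^ kk i m + 2 ^ i * r ∧ 2 ^ i * r < 4 ^ kk i m}

lemma two_pow_le (i m : ℕ) : 2 ^ i ≤ 4 ^ kk i m :=
  (Nat.pow_le_pow_left (by norm_num) i).trans
    (Nat.pow_le_pow_right (by norm_num) (lt_kk i m).le)

lemma PD_slot (i : ℕ) : PD (slot i) := by
  classical
  have hstep : ∀ m, 3 * 4 ^ kk i (m + 1) = 4 ^ 2 ^ (i + 1) * (3 * 4 ^ kk i m) := by
    intro m
    rw [show kk i (m + 1) = 2 ^ (i + 1) + kk i m by unfold kk; ring, pow_add]; ring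
  have hC : 1 < 4 ^ 2 ^ (i + 1) := Nat.one_lt_pow (by positivity) (by norm_num)
  refine ⟨4 ^ 2 ^ (i + 1) * 3 * 2 ^ i, 3 * 4 ^ kk i 0, fun N hN => ?_⟩
  obtain ⟨m, h1, h2⟩ := exists_window (fun m => 3 * 4 ^ kk i m) (fun m => by
    simp only [hstep]
    have : 0 < 4 ^ kk i m := by positivity
    nlinarith) N hN
  simp only [hstep] at h1 h2
  obtain ⟨q, hq⟩ : 2 ^ i ∣ 4 ^ kk i m := by
    rw [show 4 = 2 ^ 2 by norm_num, ← pow_mul]
    exact pow_dvd_pow 2 (by have := lt_kk i m; omega)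
  have hpos : 0 < 2 ^ i := by positivity
  have h3 : q ≤ cnt (slot i) N := by
    unfold cnt
    conv_lhs => rw [← Finset.card_range q]
    refine Finset.card_le_card_of_injOn (fun r => 2 * 4 ^ kk i m + 2 ^ i * r) ?_ ?_
    · intro r hr
      simp only [Finset.coe_range, Set.mem_Iio] at hr
      have h4 : 2 ^ i * r < 4 ^ kk i m := by rw [hq]; exact Nat.mul_lt_mul_of_pos_left hr hpos
      simp only [Finset.coe_filter, Finset.mem_range, Set.mem_ofPred_eq]
      exact ⟨by omega, m, r, rfl, h4⟩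
    · intro a _ b _ h
      simp only at h
      exact Nat.eq_of_mul_eq_mul_left hpos (by omega)
  calc N ≤ 4 ^ 2 ^ (i + 1) * (3 * 4 ^ kk i m) := h2.le
    _ = 4 ^ 2 ^ (i + 1) * 3 * 2 ^ i * q := by rw [hq]; ring
    _ ≤ _ := Nat.mul_le_mul_left _ h3

lemma slot_sep {i i' k k' : ℕ} (h : k ∈ slot i) (h' : k' ∈ slot i') (hle : k ≤ k') :
    (k = k' ∧ i = i') ∨ (k + 2 ^ i ≤ k' ∧ k + 2 ^ i' ≤ k') := by
  obtain ⟨m, r, rfl, hr⟩ := h
  obtain ⟨m', r', rfl, hr'⟩ := h'
  have h1 := two_pow_le i m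
  have h2 := two_pow_le i' m'
  rcases lt_trichotomy (kk i m) (kk i' m') with h | h | h
  · have h3 : 4 ^ (kk i m + 1) ≤ 4 ^ kk i' m' := Nat.pow_le_pow_right (by norm_num) h
    rw [pow_succ] at h3
    right; omega
  · have h3 : i = i' := by rw [← val_kk i m, h, val_kk]
    subst h3
    rw [h] at hle ⊢
    rcases Nat.lt_or_ge r r' with h4 | h4
    · have : 2 ^ i * (r + 1) ≤ 2 ^ i * r' := Nat.mul_le_mul_left _ h4
      rw [mul_add] at this
      right; omega
    · have : 2 ^ i * r' ≤ 2 ^ i * r := Nat.mul_le_mul_left _ h4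
      left; omega
  · have h3 : 4 ^ (kk i' m' + 1) ≤ 4 ^ kk i m := Nat.pow_le_pow_right (by norm_num) h
    rw [pow_succ] at h3
    omega

lemma PD.infinite {A : Set ℕ} (h : PD A) : A.Infinite := by
  intro hf
  obtain ⟨s, hs⟩ := hf.bddAbove
  obtain ⟨R, N0, h1⟩ := h.mono (B := ∅) (s + 1) fun n hn hA => by
    have := hs hA; omega
  have := h1 (N0 + 1) (by omega)
  simp [cnt] at this

lemma PD.image_nth {A B : Set ℕ} (hA : PD A) (hB : PD B) : PD (Nat.nth (· ∈ A) '' B) := by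
  classical
  have hinf := hA.infinite
  obtain ⟨R, N0, hR, h1⟩ := hA.pos
  obtain ⟨R', N1, h2⟩ := hB
  refine ⟨R * R', N0 + R * N1, fun N hN => ?_⟩
  have h3 := h1 N (by omega)
  have h4 : N1 ≤ cnt A N := Nat.le_of_mul_le_mul_left (by omega : R * N1 ≤ R * cnt A N) hR
  have h5 := h2 _ h4
  have h6 : cnt B (cnt A N) ≤ cnt (Nat.nth (· ∈ A) '' B) N := by
    conv_lhs => unfold cnt
    conv_rhs => unfold cnt
    refine Finset.card_le_card_of_injOn (Nat.nth (· ∈ A)) ?_ (Nat.nth_injective hinf).injOn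
    intro k hk
    simp only [Finset.coe_filter, Finset.mem_range, Set.mem_ofPred_eq] at hk ⊢
    refine ⟨Nat.nth_lt_of_lt_count ?_, k, hk.2, rfl⟩
    rw [Nat.count_eq_card_filter_range]
    exact hk.1
  calc N ≤ R * cnt A N := h3
    _ ≤ R * (R' * cnt B (cnt A N)) := Nat.mul_le_mul_left _ h5
    _ ≤ R * (R' * cnt (Nat.nth (· ∈ A) '' B) N) := by gcongr
    _ = _ := by ring

/-- well separated subsets of positive lower density inside a given such set -/
lemma exists_slots {A : Set ℕ} (hA : PD A) (σ : ℕ → ℕ) : ∃ Z : ℕ → Set ℕ,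
    (∀ t, PD (Z t)) ∧ (∀ t, Z t ⊆ A) ∧ (∀ t m, m ∈ Z t → σ t ≤ m) ∧
    ∀ t t' m n, m ∈ Z t → n ∈ Z t' → (m = n ∧ t = t') ∨
      m + max (σ t) (σ t') ≤ n ∨ n + max (σ t) (σ t') ≤ m := by
  have hinf := hA.infinite
  have hs : StrictMono (Nat.nth (· ∈ A)) := Nat.nth_strictMono hinf
  have hσ : ∀ t, σ t ≤ 2 ^ Nat.pair t (σ t) := fun t =>
    (Nat.right_le_pair t (σ t)).trans Nat.lt_two_pow_self.le
  have hadd : ∀ a b c, a + c ≤ b → Nat.nth (· ∈ A) a + c ≤ Nat.nth (· ∈ A) b := by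
    intro a b c h
    have := hs.add_le_nat c a
    have h2 := hs.monotone (show c + a ≤ b by omega)
    omega
  refine ⟨fun t => Nat.nth (· ∈ A) '' slot (Nat.pair t (σ t)),
    fun t => hA.image_nth (PD_slot _), ?_, ?_, ?_⟩
  · rintro t _ ⟨k, -, rfl⟩
    exact Nat.nth_mem_of_infinite hinf k
  · rintro t _ ⟨k, ⟨m, r, hk, -⟩, rfl⟩
    have h1 := two_pow_le (Nat.pair t (σ t)) m
    have h2 := hσ t
    exact le_trans (by omega) (hs.le_apply (x := k))
  · rintro t t' _ _ ⟨k, hk, rfl⟩ ⟨k', hk', rfl⟩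
    have h1 := hσ t
    have h2 := hσ t'
    rcases le_total k k' with h | h
    · rcases slot_sep hk hk' h with ⟨h3, h4⟩ | h3
      · exact Or.inl ⟨by rw [h3], (Nat.pair_eq_pair.1 h4).1⟩
      · exact Or.inr (Or.inl (hadd _ _ _ (by omega)))
    · rcases slot_sep hk' hk h with ⟨h3, h4⟩ | h3
      · exact Or.inl ⟨by rw [h3], (Nat.pair_eq_pair.1 h4).1.symm⟩
      · exact Or.inr (Or.inr (hadd _ _ _ (by omega)))

end Pool.Agent.H740Z.Fs
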