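import Pool.Agent.H740Z.FsA

set_option autoImplicit false

open Filter Topology
open scoped ENNReal

namespace Pool.Agent.H740Z.Fs

/-- the sequence space -/
abbrev X (𝕜 : Type) [RCLike 𝕜] (p : ℝ≥0∞) : Type := lp (fun _ : ℕ => 𝕜) p

variable {𝕜 : Type} [RCLike 𝕜] {p : ℝ≥0∞} [Fact (1 ≤ p)]

lemma p_ne : p ≠ 0 := (zero_lt_one.trans_le (Fact.out : 1 ≤ p)).ne'

lemma q_pos (hp : p ≠ ⊤) : 0 < p.toReal := ENNReal.toReal_pos p_ne hp

/-- products of the weights -/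
noncomputable def β (w : ℕ → 𝕜) (k : ℕ) : 𝕜 := ∏ i ∈ Finset.range k, w (i + 1)

omit [Fact (1 ≤ p)] in
lemma β_ne {w : ℕ → 𝕜} (hw : ∀ n, w n ≠ 0) (k : ℕ) : β w k ≠ 0 :=
  Finset.prod_ne_zero_iff.2 fun _ _ => hw _

lemma β_succ (w : ℕ → 𝕜) (k : ℕ) : β w (k + 1) = β w k * w (k + 1) := Finset.prod_range_succ _ _

/-- `B` is the weighted backward shift with weights `w` -/
def IsShift (w : ℕ → 𝕜) (B : X 𝕜 p →L[𝕜] X 𝕜 p) : Prop :=
  ∀ (x : X 𝕜 p) (n : ℕ), B x n = w (n + 1) * x (n + 1)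

/-- truncation -/
noncomputable def tr (L : ℕ) (x : X 𝕜 p) : X 𝕜 p := ∑ i ∈ Finset.range L, lp.single p i (x i)

omit [Fact (1 ≤ p)] in
lemma tr_apply (L : ℕ) (x : X 𝕜 p) (i : ℕ) : tr L x i = if i < L then x i else 0 := by
  unfold tr
  simp only [lp.coeFn_single, lp.coeFn_sum, Finset.sum_apply, Finset.sum_pi_single,
    Finset.mem_range]

lemma tr_tendsto (hp : p ≠ ⊤) (x : X 𝕜 p) : Tendsto (fun L => tr L x) atTop (𝓝 x) :=
  (lp.hasSum_single hp x).tendsto_sum_nat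

lemma tail_small (hp : p ≠ ⊤) (x : X 𝕜 p) (ε : ℝ) (hε : 0 < ε) :
    ∀ᶠ L in atTop, ‖x - tr L x‖ < ε := by
  have h := (tendsto_const_nhds (x := x)).sub (tr_tendsto hp x)
  rw [sub_self] at h
  have h2 := h.norm
  rw [norm_zero] at h2
  exact h2.eventually (gt_mem_nhds hε)

section shift
variable {w : ℕ → 𝕜} (hw : ∀ n, w n ≠ 0) {B : X 𝕜 p →L[𝕜] X 𝕜 p} (hB : IsShift w B)
include hw hB

lemma pow_apply (n : ℕ) (x : X 𝕜 p) (m : ℕ) :
    (B ^ n) x m = β w (m + n) / β w m * x (m + n) := by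
  induction n generalizing m with
  | zero => simp [β_ne hw m]
  | succ n ih =>
    rw [pow_succ', mul_apply_eq_comp, hB, ih, β_succ w m,
      show m + 1 + n = m + (n + 1) by ring]
    have := β_ne hw m
    have := hw (m + 1)
    field_simp

lemma dom (n : ℕ) {a b : X 𝕜 p} (h : ∀ i, ‖a i‖ ≤ ‖b i‖) : ‖(B ^ n) a‖ ≤ ‖(B ^ n) b‖ := by
  refine lp.norm_mono p_ne fun i => ?_
  rw [pow_apply hw hB, pow_apply hw hB, norm_mul, norm_mul]
  gcongr
  exact h _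

lemma kill {a : X 𝕜 p} {L n : ℕ} (h : ∀ i, L ≤ i → a i = 0) (hn : L ≤ n) : (B ^ n) a = 0 := by
  ext i
  rw [pow_apply hw hB, h _ (by omega)]
  simp

omit hw in
lemma norm_w_le (n : ℕ) : ‖w (n + 1)‖ ≤ ‖B‖ := by
  have h1 := hB (lp.single p (n + 1) 1) n
  rw [lp.single_apply_self, mul_one] at h1
  have h2 := lp.norm_apply_le_norm p_ne (B (lp.single p (n + 1) 1)) n
  have h3 := B.le_opNorm (lp.single p (n + 1) 1)
  rw [lp.norm_single (pos_iff_ne_zero.2 p_ne), norm_one, mul_one] at h3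
  rw [← h1]
  exact h2.trans h3

end shift

lemma norm_add_disj (hp : p ≠ ⊤) (a b : X 𝕜 p) (h : ∀ i, a i = 0 ∨ b i = 0) :
    ‖a + b‖ ^ p.toReal = ‖a‖ ^ p.toReal + ‖b‖ ^ p.toReal := by
  have hq := q_pos hp
  refine (lp.hasSum_norm hq (a + b)).unique ?_
  have h1 := (lp.hasSum_norm hq a).add (lp.hasSum_norm hq b)
  refine h1.congr_fun ?_ |> fun h => h
  intro i
  rw [lp.coeFn_add, Pi.add_apply]
  rcases h i with h | h <;> simp [h, Real.zero_rpow hq.ne']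

lemma norm_sum_disj (hp : p ≠ ⊤) (v : ℕ → X 𝕜 p)
    (h : ∀ j k, j ≠ k → ∀ i, v j i = 0 ∨ v k i = 0) (s : Finset ℕ) :
    ‖∑ j ∈ s, v j‖ ^ p.toReal = ∑ j ∈ s, ‖v j‖ ^ p.toReal := by
  induction s using Finset.induction_on with
  | empty => simp [Real.zero_rpow (q_pos hp).ne']
  | insert a s ha ih =>
    rw [Finset.sum_insert ha, Finset.sum_insert ha, norm_add_disj hp, ih]
    intro i
    by_cases h1 : v a i = 0
    · exact Or.inl h1
    · right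
      rw [lp.coeFn_sum, Finset.sum_apply]
      refine Finset.sum_eq_zero fun j hj => (h a j ?_ i).resolve_left h1
      rintro rfl
      exact ha hj

lemma hasSum_disj (hp : p ≠ ⊤) (v : ℕ → X 𝕜 p)
    (h : ∀ j k, j ≠ k → ∀ i, v j i = 0 ∨ v k i = 0) (hs : Summable fun j => ‖v j‖ ^ p.toReal) :
    Summable v ∧ HasSum (fun j => ‖v j‖ ^ p.toReal) (‖∑' j, v j‖ ^ p.toReal) := by
  have hq := q_pos hp
  have h1 : Summable v := by
    rw [summable_iff_vanishing_norm] at hs ⊢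
    intro ε hε
    obtain ⟨s, hs⟩ := hs (ε ^ p.toReal) (by positivity)
    refine ⟨s, fun t ht => ?_⟩
    have h2 := (Real.le_norm_self _).trans_lt (hs t ht)
    rw [← norm_sum_disj hp v h] at h2
    exact (Real.rpow_lt_rpow_iff (norm_nonneg _) hε.le hq).1 h2
  refine ⟨h1, ?_⟩
  have h2 : Tendsto (fun s : Finset ℕ => ‖∑ j ∈ s, v j‖ ^ p.toReal) atTop
      (𝓝 (‖∑' j, v j‖ ^ p.toReal)) :=
    (Filter.Tendsto.norm h1.hasSum).rpow_const (Or.inr hq.le)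
  simp only [norm_sum_disj hp v h] at h2
  exact h2

lemma disj_comb (hp : p ≠ ⊤) (v : ℕ → X 𝕜 p)
    (h : ∀ j k, j ≠ k → ∀ i, v j i = 0 ∨ v k i = 0) (C : ℝ) (hC : ∀ j, ‖v j‖ ≤ C) (c : X 𝕜 p) :
    Summable (fun j => c j • v j) ∧ ‖∑' j, c j • v j‖ ≤ C * ‖c‖ ∧
      ((∀ j, ‖v j‖ = 1) → ‖∑' j, c j • v j‖ = ‖c‖) := by
  have hq := q_pos hp
  have hC0 : 0 ≤ C := (norm_nonneg _).trans (hC 0)
  have h0 := (lp.hasSum_norm hq c).mul_left (C ^ p.toReal)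
  have h1 : ∀ j, ‖c j • v j‖ ^ p.toReal ≤ C ^ p.toReal * ‖c j‖ ^ p.toReal := by
    intro j
    rw [← Real.mul_rpow hC0 (norm_nonneg _), norm_smul, mul_comm]
    gcongr
    exact hC j
  obtain ⟨h2, h3⟩ := hasSum_disj hp (fun j => c j • v j) (fun j k hjk i => by
    rw [lp.coeFn_smul, lp.coeFn_smul, Pi.smul_apply, Pi.smul_apply]
    rcases h j k hjk i with h | h <;> simp [h])
    (Summable.of_nonneg_of_le (fun _ => by positivity) h1 h0.summable)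
  refine ⟨h2, ?_, fun h4 => ?_⟩
  · have h4 := hasSum_le h1 h3 h0
    rw [← Real.mul_rpow hC0 (norm_nonneg _)] at h4
    exact (Real.rpow_le_rpow_iff (norm_nonneg _) (by positivity) hq).1 h4
  · simp only [norm_smul, h4, mul_one] at h3
    exact Real.rpow_left_injOn hq.ne' (norm_nonneg _) (norm_nonneg _)
      (h3.unique (lp.hasSum_norm hq c))

lemma exists_vanish (M : Submodule 𝕜 (X 𝕜 p)) (hM : ¬ FiniteDimensional 𝕜 M) (K : ℕ) :
    ∃ v ∈ M, ‖v‖ = 1 ∧ ∀ i < K, v i = 0 := by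
  let f : M →ₗ[𝕜] (Fin K → 𝕜) :=
    { toFun := fun x i => (x : X 𝕜 p) i
      map_add' := fun x y => by ext i; simp
      map_smul' := fun c x => by ext i; simp }
  have h1 : ¬ Function.Injective f := fun h => hM (Module.Finite.of_injective f h)
  rw [injective_iff_map_eq_zero] at h1
  push Not at h1
  obtain ⟨x, hx, hx0⟩ := h1
  have h2 : (x : X 𝕜 p) ≠ 0 := fun h => hx0 (Subtype.ext h)
  have h3 : ‖(x : X 𝕜 p)‖ ≠ 0 := norm_ne_zero_iff.2 h2
  refine ⟨((‖(x : X 𝕜 p)‖ : 𝕜)⁻¹) • (x : X 𝕜 p), M.smul_mem _ x.2, ?_, fun i hi => ?_⟩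
  · rw [norm_smul, norm_inv, RCLike.norm_ofReal, abs_norm, inv_mul_cancel₀ h3]
  · have := congrFun hx ⟨i, hi⟩
    change (x : X 𝕜 p) i = 0 at this
    rw [lp.coeFn_smul, Pi.smul_apply, this, smul_zero]

omit [Fact (1 ≤ p)] in
lemma not_finite : ¬ FiniteDimensional 𝕜 (X 𝕜 p) := by
  intro h
  refine Module.Finite.not_linearIndependent_of_infinite (R := 𝕜)
    (fun i : ℕ => (lp.single p i (1 : 𝕜) : X 𝕜 p)) ?_
  rw [linearIndependent_iff']
  intro s g hg j hj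
  have h1 := congrArg (fun x : X 𝕜 p => x j) hg
  simp only [lp.coeFn_sum, Finset.sum_apply, lp.coeFn_smul, Pi.smul_apply, lp.single_apply,
    lp.coeFn_zero, Pi.zero_apply, smul_eq_mul] at h1
  rw [Finset.sum_eq_single j (fun b _ hb => by rw [Pi.single_eq_of_ne hb.symm, mul_zero])
    (fun h => absurd hj h)] at h1
  simpa using h1

lemma separable (hp : p ≠ ⊤) : TopologicalSpace.SeparableSpace (X 𝕜 p) := by
  rw [← TopologicalSpace.isSeparable_univ_iff]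
  have h1 : TopologicalSpace.IsSeparable
      (Set.range fun i : ℕ => (lp.single p i (1 : 𝕜) : X 𝕜 p)) :=
    (Set.countable_range _).isSeparable
  have h2 := (h1.span (R := 𝕜)).closure
  refine h2.mono fun x _ => ?_
  refine mem_closure_of_tendsto (lp.hasSum_single hp x) (Eventually.of_forall fun s => ?_)
  refine Submodule.sum_mem _ fun i _ => ?_
  have : (lp.single p i (x i) : X 𝕜 p) = x i • (lp.single p i (1 : 𝕜) : X 𝕜 p) := by
    rw [← lp.single_smul, smul_eq_mul, mul_one]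
  rw [this]
  exact Submodule.smul_mem _ _ (Submodule.subset_span ⟨i, rfl⟩)

/-- frequently hypercyclic vectors, in counting form -/
def FHC (B : X 𝕜 p →L[𝕜] X 𝕜 p) (x : X 𝕜 p) : Prop :=
  ∀ U : Set (X 𝕜 p), IsOpen U → U.Nonempty → PD {n | (B ^ n) x ∈ U}

/-- unit vectors far out whose orbits are bounded along `A` -/
def Good (B : X 𝕜 p →L[𝕜] X 𝕜 p) (A : Set ℕ) (C : ℝ) : Prop :=
  ∀ K, ∃ (u : X 𝕜 p) (L : ℕ), ‖u‖ = 1 ∧ (∀ i < K, u i = 0) ∧ (∀ i, L ≤ i → u i = 0) ∧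
    ∀ n ∈ A, ‖(B ^ n) u‖ ≤ C

end Pool.Agent.H740Z.Fs
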