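import Pool.Agent.H740Z.FsB

set_option autoImplicit false

open Filter Topology
open scoped ENNReal

namespace Pool.Agent.H740Z.Fs

variable {𝕜 : Type} [RCLike 𝕜] {p : ℝ≥0∞} [Fact (1 ≤ p)]

lemma baire (B : X 𝕜 p →L[𝕜] X 𝕜 p) (M : Submodule 𝕜 (X 𝕜 p)) (hM : IsClosed (M : Set (X 𝕜 p)))
    (h : ∀ x ∈ M, x ≠ 0 → FHC B x) : ∃ (C : ℝ) (R N0 : ℕ), 0 < R ∧ ∀ y ∈ M, ‖y‖ ≤ 2 →
      ∀ N, N0 ≤ N → N ≤ R * cnt {n | ‖(B ^ n) y‖ ≤ C} N := by
  have : CompleteSpace M := hM.completeSpace_coe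
  let E : ℕ → Set M := fun m =>
    {x | ∀ N, m ≤ N → N ≤ (m + 1) * cnt {n | ‖(B ^ n) (x : X 𝕜 p)‖ ≤ 1} N}
  have hcl : ∀ m, IsClosed (E m) := by
    intro m
    rw [← isOpen_compl_iff, isOpen_iff_mem_nhds]
    intro x hx
    simp only [E, Set.mem_compl_iff, Set.mem_ofPred_eq] at hx
    push Not at hx
    obtain ⟨N, hN, hx⟩ := hx
    have h1 : ∀ᶠ y : M in 𝓝 x, ∀ n ∈ Finset.range N,
        1 < ‖(B ^ n) (x : X 𝕜 p)‖ → 1 < ‖(B ^ n) (y : X 𝕜 p)‖ := by
      rw [eventually_all_finset]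
      intro n _
      by_cases h2 : 1 < ‖(B ^ n) (x : X 𝕜 p)‖
      · have h3 : Continuous fun y : M => ‖(B ^ n) (y : X 𝕜 p)‖ :=
          ((B ^ n).continuous.comp continuous_subtype_val).norm
        exact (h3.continuousAt.eventually (lt_mem_nhds h2)).mono fun y hy _ => hy
      · exact Eventually.of_forall fun y h => absurd h h2
    filter_upwards [h1] with y hy hE
    have h2 := hE N hN
    have h3 : cnt {n | ‖(B ^ n) (y : X 𝕜 p)‖ ≤ 1} N ≤ cnt {n | ‖(B ^ n) (x : X 𝕜 p)‖ ≤ 1} N := by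
      refine cnt_mono fun n hn h4 => ?_
      by_contra h5
      exact absurd (hy n (Finset.mem_range.2 hn) (not_le.1 h5)) (not_lt.2 h4)
    have h4 := Nat.mul_le_mul_left (m + 1) h3
    omega
  have hun : ⋃ m, E m = Set.univ := by
    refine Set.eq_univ_of_forall fun x => ?_
    have h1 : PD {n | ‖(B ^ n) (x : X 𝕜 p)‖ ≤ 1} := by
      by_cases hx : (x : X 𝕜 p) = 0
      · refine ⟨1, 0, fun N _ => ?_⟩
        simp [hx, cnt]
      · refine (h x x.2 hx (Metric.ball 0 1) Metric.isOpen_ball ⟨0, by simp⟩).mono 0 ?_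
        intro n _ hn
        exact (mem_ball_zero_iff.1 hn).le
    obtain ⟨R, N0, h1⟩ := h1
    refine Set.mem_iUnion.2 ⟨R + N0, fun N hN => (h1 N (by omega)).trans ?_⟩
    exact Nat.mul_le_mul_right _ (by omega)
  obtain ⟨m, x0, hx0⟩ := nonempty_interior_of_iUnion_of_closed hcl hun
  obtain ⟨ρ, hρ, hball⟩ := Metric.mem_nhds_iff.1 (mem_interior_iff_mem_nhds.1 hx0)
  set τ : ℝ := ρ / (4 * (m + 1) + 1) with hτ
  have hτ0 : 0 < τ := by positivity
  refine ⟨2 / τ, 4 * (m + 1) * (m + 1), m, by positivity, fun y hy hy2 N hN => ?_⟩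
  refine pigeon2 (fun i => {n | ‖(B ^ n) ((x0 : X 𝕜 p) + ((i * τ : ℝ) : 𝕜) • y)‖ ≤ 1}) _ N
    (m + 1) (Nat.succ_pos m) (fun i hi => ?_) (fun i _ j hj => cnt_mono ?_)
  · refine hball (a := x0 + ((i * τ : ℝ) : 𝕜) • (⟨y, hy⟩ : M)) ?_ N hN
    rw [mem_ball_iff_norm, add_sub_cancel_left, norm_smul, RCLike.norm_ofReal,
      abs_of_nonneg (by positivity)]
    have h1 : (i : ℝ) ≤ 2 * (m + 1) := by exact_mod_cast hi.le
    have h2 : τ * (4 * (m + 1) + 1) = ρ := by rw [hτ]; field_simp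
    have h3 : ‖(⟨y, hy⟩ : M)‖ ≤ 2 := hy2
    calc (i : ℝ) * τ * ‖(⟨y, hy⟩ : M)‖ ≤ 2 * (m + 1) * τ * 2 := by gcongr
      _ < ρ := by nlinarith
  · rintro n - ⟨h1, h2⟩
    simp only [Set.mem_ofPred_eq] at h1 h2 ⊢
    have h3 := norm_sub_le_of_le h2 h1
    rw [← map_sub, add_sub_add_left_eq_sub, ← sub_smul, map_smul, norm_smul,
      ← RCLike.ofReal_sub, RCLike.norm_ofReal] at h3
    have h4 : (j : ℝ) + 1 ≤ i := by exact_mod_cast hj
    have h5 : τ ≤ |(i : ℝ) * τ - j * τ| := le_trans (by nlinarith) (le_abs_self _)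
    rw [le_div_iff₀ hτ0]
    have := norm_nonneg ((B ^ n) y)
    nlinarith

variable (hp : p ≠ ⊤) {w : ℕ → 𝕜} (hw : ∀ n, w n ≠ 0) {B : X 𝕜 p →L[𝕜] X 𝕜 p} (hB : IsShift w B)
include hp hw hB

theorem nec_sum {x : X 𝕜 p} (hx : FHC B x) : Summable fun k => (‖β w k‖ ^ p.toReal)⁻¹ := by
  have hq := q_pos hp
  have hA := hx (Metric.ball (lp.single p 0 1) (1 / 2)) Metric.isOpen_ball
    ⟨_, Metric.mem_ball_self (by norm_num)⟩
  have hpos : ∀ k, 0 < ‖β w k‖ := fun k => norm_pos_iff.2 (β_ne hw k)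
  refine summable_of_returns hA _ (fun k => by positivity) ((‖B‖ + 1) ^ p.toReal)
    (Real.one_le_rpow (by linarith [norm_nonneg B]) hq.le) (fun k => ?_)
    (2 ^ p.toReal * 2 ^ p.toReal) (by positivity) fun n hn G hG => ?_
  · have h1 : 0 < ‖w (k + 1)‖ := norm_pos_iff.2 (hw _)
    have h2 := hpos k
    rw [β_succ, norm_mul, Real.mul_rpow (norm_nonneg _) (norm_nonneg _), mul_inv, mul_left_comm]
    refine le_mul_of_one_le_right (by positivity) ?_
    rw [← div_eq_mul_inv, one_le_div (by positivity)]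
    gcongr
    linarith [norm_w_le hB k]
  · have h1 : ∀ m, m ∈ {n | (B ^ n) x ∈ Metric.ball (lp.single p 0 1) (1 / 2)} →
        1 / 2 ≤ ‖β w m * x m‖ := by
      intro m hm
      rw [Set.mem_ofPred_eq, mem_ball_iff_norm] at hm
      have h2 := lp.norm_apply_le_norm p_ne ((B ^ m) x - lp.single p 0 1) 0
      rw [lp.coeFn_sub, Pi.sub_apply, lp.single_apply_self, pow_apply hw hB, zero_add] at h2
      have h3 : β w 0 = 1 := by simp [β]
      rw [h3, div_one] at h2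
      have h4 := norm_sub_norm_le (1 : 𝕜) (β w m * x m)
      rw [norm_sub_rev, norm_one] at h4
      linarith
    have h2 : ‖(B ^ n) x‖ ≤ 2 := by
      rw [Set.mem_ofPred_eq, mem_ball_iff_norm] at hn
      have h3 := norm_sub_norm_le ((B ^ n) x) (lp.single p 0 1)
      rw [lp.norm_single (pos_iff_ne_zero.2 p_ne), norm_one] at h3
      linarith
    have h3 : ∀ k ∈ G, (‖β w k‖ ^ p.toReal)⁻¹ ≤ 2 ^ p.toReal * ‖(B ^ n) x k‖ ^ p.toReal := by
      intro k hk
      have h4 := h1 _ (hG k hk)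
      rw [← Real.inv_rpow (norm_nonneg _), ← Real.mul_rpow (by norm_num) (norm_nonneg _)]
      gcongr
      rw [pow_apply hw hB, add_comm k n, div_mul_eq_mul_div, norm_div, ← mul_div_assoc,
        inv_eq_one_div]
      gcongr
      linarith
    refine (Finset.sum_le_sum h3).trans ?_
    rw [← Finset.mul_sum]
    gcongr
    refine (lp.sum_rpow_le_norm_rpow hq _ G).trans ?_
    gcongr

theorem nec_good (M : Submodule 𝕜 (X 𝕜 p)) (hM : IsClosed (M : Set (X 𝕜 p)))
    (hM' : ¬ FiniteDimensional 𝕜 M) (h : ∀ x ∈ M, x ≠ 0 → FHC B x) :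
    ∃ A C, PD A ∧ Good B A C := by
  obtain ⟨C, R, N0, hR, hC⟩ := baire B M hM h
  choose v hvM hv1 hv0 using exists_vanish M hM'
  have h1 : ∀ K, ∃ L, 1 / 2 ≤ ‖tr L (v K)‖ := by
    intro K
    obtain ⟨L, hL⟩ := (tail_small hp (v K) (1 / 2) (by norm_num)).exists
    refine ⟨L, ?_⟩
    have := norm_sub_norm_le (v K) (tr L (v K))
    rw [hv1] at this
    linarith
  choose L hL using h1
  let G : ℕ → Set ℕ := fun j => {n | ‖(B ^ n) (tr (L j) (v j))‖ ≤ |C| + 1}
  let A : Set ℕ := {n | ∀ᶠ K in (hyperfilter ℕ : Filter ℕ), n ∈ G K}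
  have hsupp : ∀ j i, L j ≤ i → tr (L j) (v j) i = 0 := by
    intro j i hi; rw [tr_apply, if_neg (by omega)]
  refine (glue G L A R N0 hR (fun j n hn => by
    simp only [G, Set.mem_ofPred_eq]
    rw [kill hw hB (hsupp j) hn, norm_zero]; positivity) (fun j N hN => ?_)
    (fun T K => ?_)).elim fun A' hA'' => ?_
  rotate_right
  · obtain ⟨hA', hG⟩ := hA''
    refine ⟨A', 2 * (|C| + 1), hA', fun K => ?_⟩
    obtain ⟨j, hj, hsub⟩ := hG K
    have h2 := hL j
    have h3 : 0 < ‖tr (L j) (v j)‖ := by linarith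
    refine ⟨((‖tr (L j) (v j)‖ : 𝕜)⁻¹) • tr (L j) (v j), L j, ?_, fun i hi => ?_,
      fun i hi => ?_, fun n hn => ?_⟩
    · rw [norm_smul, norm_inv, RCLike.norm_ofReal, abs_norm, inv_mul_cancel₀ h3.ne']
    · rw [lp.coeFn_smul, Pi.smul_apply, tr_apply, hv0 j i (by omega)]; simp
    · rw [lp.coeFn_smul, Pi.smul_apply, hsupp j i hi, smul_zero]
    · rw [map_smul, norm_smul, norm_inv, RCLike.norm_ofReal, abs_norm]
      have h4 : ‖(B ^ n) (tr (L j) (v j))‖ ≤ |C| + 1 := hsub hn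
      have h5 : ‖tr (L j) (v j)‖⁻¹ ≤ 2 := by
        rw [inv_le_comm₀ h3 (by norm_num)]; linarith
      gcongr
  · have e1 : ∀ᶠ K in (hyperfilter ℕ : Filter ℕ), ∀ n ∈ Finset.range N, n ∈ G K → n ∈ A := by
      rw [eventually_all_finset]
      intro n _
      by_cases hn : n ∈ A
      · exact Eventually.of_forall fun _ _ => hn
      · exact (Ultrafilter.eventually_not.2 hn).mono fun K h1 h2 => absurd h2 h1
    have e2 : ∀ᶠ K in atTop, ∀ n ∈ Finset.range N, ‖(B ^ n) (v j - tr K (v j))‖ < 1 := by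
      rw [eventually_all_finset]
      intro n _
      have h2 := (tendsto_const_nhds (x := v j)).sub (tr_tendsto hp (v j))
      rw [sub_self] at h2
      have h3 := (((B ^ n).continuous.tendsto 0).comp h2).norm
      rw [map_zero, norm_zero] at h3
      exact h3.eventually (gt_mem_nhds one_pos)
    obtain ⟨K, h2, h3, h4⟩ := (e1.and (Nat.hyperfilter_le_atTop
      (e2.and (eventually_ge_atTop (L j))))).exists
    have h5 := hC (v j + v K) (M.add_mem (hvM j) (hvM K))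
      ((norm_add_le _ _).trans (by rw [hv1, hv1]; norm_num)) N hN
    refine h5.trans (Nat.mul_le_mul_left _ (cnt_mono fun n hn h6 => ⟨?_, ?_⟩))
    · have h7 : ‖(B ^ n) (v j + v K)‖ ≤ C := h6
      have h8 : ‖(B ^ n) (tr (L j) (v j))‖ ≤ ‖(B ^ n) (v j + v K)‖ := by
        refine dom hw hB n fun i => ?_
        rw [tr_apply, lp.coeFn_add, Pi.add_apply]
        split_ifs with h9
        · rw [hv0 K i (by omega), add_zero]
        · simp
      have := le_abs_self C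
      simp only [G, Set.mem_ofPred_eq]
      linarith
    · refine h2 n (Finset.mem_range.2 hn) ?_
      have h7 : ‖(B ^ n) (v j + v K)‖ ≤ C := h6
      have h8 : ‖(B ^ n) (v j + v K - tr K (v j))‖ ≤ ‖(B ^ n) (v j + v K)‖ := by
        refine dom hw hB n fun i => ?_
        rw [lp.coeFn_sub, Pi.sub_apply, tr_apply, lp.coeFn_add, Pi.add_apply]
        split_ifs with h9
        · rw [hv0 K i h9]; simp
        · simp
      have h9 : ‖(B ^ n) (tr (L K) (v K))‖ ≤ ‖(B ^ n) (v K)‖ := by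
        refine dom hw hB n fun i => ?_
        rw [tr_apply]
        split_ifs <;> simp
      have h10 := h3 n (Finset.mem_range.2 hn)
      have h11 := norm_sub_le ((B ^ n) (v j + v K - tr K (v j))) ((B ^ n) (v j - tr K (v j)))
      rw [← map_sub, show v j + v K - tr K (v j) - (v j - tr K (v j)) = v K by abel] at h11
      have := le_abs_self C
      simp only [G, Set.mem_ofPred_eq]
      linarith
  · have e1 : ∀ᶠ K in (hyperfilter ℕ : Filter ℕ), ∀ n ∈ Finset.range T, n ∈ A → n ∈ G K := by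
      rw [eventually_all_finset]
      intro n _
      by_cases hn : n ∈ A
      · exact Filter.Eventually.mono hn fun K h1 _ => h1
      · exact Eventually.of_forall fun _ h => absurd h hn
    obtain ⟨j, h2, h3⟩ := (e1.and (Nat.hyperfilter_le_atTop (eventually_ge_atTop K))).exists
    exact ⟨j, h3, fun n hn => h2 n (Finset.mem_range.2 hn)⟩

end Pool.Agent.H740Z.Fs
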