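import Pool.Agent.H740Z.FsC

set_option autoImplicit false

open Filter Topology
open scoped ENNReal

namespace Pool.Agent.H740Z.Fs

variable {𝕜 : Type} [RCLike 𝕜] {p : ℝ≥0∞} [Fact (1 ≤ p)]
variable (hp : p ≠ ⊤) {w : ℕ → 𝕜} (hw : ∀ n, w n ≠ 0) {B : X 𝕜 p →L[𝕜] X 𝕜 p} (hB : IsShift w B)

include hw hB in
lemma exists_hb (a : X 𝕜 p) (ha : ∀ k, a k = (β w k)⁻¹) (Z : Set ℕ) (i : ℕ) :
    ∃ h : X 𝕜 p, ∀ (σ n : ℕ) [Decidable (n ∈ Z)], i < σ →
      (∀ m ∈ Z, m = n ∨ m + σ ≤ n ∨ n + σ ≤ m) →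
      ‖(B ^ n) h - (if n ∈ Z then lp.single p i (β w i)⁻¹ else 0)‖ ≤ ‖a - tr σ a‖ := by
  classical
  refine ⟨⟨fun k => if ∃ m ∈ Z, k = i + m then (β w k)⁻¹ else 0,
    (lp.memℓp a).mono' fun k => ?_⟩, fun σ n _ hi hsep => lp.norm_mono p_ne fun k => ?_⟩
  · rw [ha]; split_ifs <;> simp
  · rw [lp.coeFn_sub, Pi.sub_apply, pow_apply hw hB]
    have h1 := β_ne hw (k + n)
    have h2 : ∀ (P : Prop) [Decidable P], β w (k + n) / β w k * (if P then (β w (k + n))⁻¹ else 0)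
        = if P then (β w k)⁻¹ else 0 := by
      intro P _
      split_ifs
      · field_simp
      · simp
    change ‖β w (k + n) / β w k * (if ∃ m ∈ Z, k + n = i + m then (β w (k + n))⁻¹ else 0) - _‖ ≤ _
    rw [h2]
    by_cases hk : k = i
    · subst hk
      have h3 : (∃ m ∈ Z, k + n = k + m) ↔ n ∈ Z :=
        ⟨fun ⟨m, hm, h⟩ => by rwa [Nat.add_left_cancel h], fun h => ⟨n, h, rfl⟩⟩
      by_cases hn : n ∈ Z
      · rw [if_pos (h3.2 hn), if_pos hn, lp.single_apply_self]; simp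
      · rw [if_neg (fun h => hn (h3.1 h)), if_neg hn]; simp
    · have h3 : (if n ∈ Z then (lp.single p i (β w i)⁻¹ : X 𝕜 p) else 0) k = 0 := by
        split_ifs
        · exact lp.single_apply_ne _ _ _ hk
        · rfl
      rw [h3, sub_zero]
      split_ifs with h4
      · obtain ⟨m, hm, h5⟩ := h4
        have h6 : σ ≤ k := by rcases hsep m hm with h | h | h <;> omega
        rw [lp.coeFn_sub, Pi.sub_apply, tr_apply, if_neg (by omega), sub_zero, ha]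
      · simp

include hw hB in
lemma exists_hv (a : X 𝕜 p) (ha : ∀ k, a k = (β w k)⁻¹) (Z : Set ℕ) (d : ℕ) (y : X 𝕜 p) :
    ∃ h : X 𝕜 p, ∀ (σ n : ℕ) [Decidable (n ∈ Z)], d ≤ σ →
      (∀ m ∈ Z, m = n ∨ m + σ ≤ n ∨ n + σ ≤ m) →
      ‖(B ^ n) h - (if n ∈ Z then tr d y else 0)‖ ≤
        (∑ i ∈ Finset.range d, ‖β w i * y i‖) * ‖a - tr σ a‖ := by
  choose hb hhb using exists_hb hw hB a ha Z
  refine ⟨∑ i ∈ Finset.range d, (β w i * y i) • hb i, fun σ n _ hd hsep => ?_⟩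
  have e : (B ^ n) (∑ i ∈ Finset.range d, (β w i * y i) • hb i) - (if n ∈ Z then tr d y else 0) =
      ∑ i ∈ Finset.range d, (β w i * y i) •
        ((B ^ n) (hb i) - (if n ∈ Z then lp.single p i (β w i)⁻¹ else 0)) := by
    simp only [map_sum, map_smul, smul_sub, Finset.sum_sub_distrib]
    congr 1
    split_ifs
    · refine Finset.sum_congr rfl fun i _ => ?_
      rw [← lp.single_smul, smul_eq_mul]
      congr 1
      have := β_ne hw i
      field_simp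
    · simp
  rw [e, Finset.sum_mul]
  refine (norm_sum_le _ _).trans (Finset.sum_le_sum fun i hi => ?_)
  rw [norm_smul]
  gcongr
  exact hhb i σ n (by have := Finset.mem_range.1 hi; omega) hsep

include hp hw hB in
lemma exists_Φ {A : Set ℕ} {C : ℝ} (hG : Good B A C) : ∃ Φ : X 𝕜 p →L[𝕜] X 𝕜 p,
    (∀ c, ‖Φ c‖ = ‖c‖) ∧ ∀ c ε, 0 < ε → ∃ n0, ∀ n, n0 ≤ n → n ∈ A → ‖(B ^ n) (Φ c)‖ < ε := by
  choose u L hu1 hu2 hu3 hu4 using hG
  let s : ℕ → ℕ := fun j => Nat.rec 0 (fun _ a => L a + a) j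
  have hs : ∀ j, s (j + 1) = L (s j) + s j := fun j => rfl
  have hmono : Monotone s := monotone_nat_of_le_succ fun k => by rw [hs]; omega
  have hLs : ∀ j k, j < k → L (s j) ≤ s k := by
    intro j k h
    have := hmono (show j + 1 ≤ k from h)
    rw [hs] at this; omega
  have hdisj : ∀ j k, j ≠ k → ∀ i, u (s j) i = 0 ∨ u (s k) i = 0 := by
    intro j k hjk i
    rcases lt_or_gt_of_ne hjk with h | h
    · rcases Nat.lt_or_ge i (s k) with h1 | h1
      · exact Or.inr (hu2 _ _ h1)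
      · exact Or.inl (hu3 _ _ ((hLs j k h).trans h1))
    · rcases Nat.lt_or_ge i (s j) with h1 | h1
      · exact Or.inl (hu2 _ _ h1)
      · exact Or.inr (hu3 _ _ ((hLs k j h).trans h1))
  have hc := disj_comb hp (fun j => u (s j)) hdisj 1 (fun j => (hu1 _).le)
  let Φ0 : X 𝕜 p →ₗ[𝕜] X 𝕜 p :=
    { toFun := fun c => ∑' j, c j • u (s j)
      map_add' := fun c c' => by
        rw [← (hc c).1.tsum_add (hc c').1]
        simp only [lp.coeFn_add, Pi.add_apply, add_smul]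
      map_smul' := fun r c => by
        rw [RingHom.id_apply, ← (hc c).1.tsum_const_smul r]
        simp only [lp.coeFn_smul, Pi.smul_apply, smul_assoc] }
  let Φ : X 𝕜 p →L[𝕜] X 𝕜 p := Φ0.mkContinuous 1 fun c => (hc c).2.1
  have hΦ : ∀ n c, (B ^ n) (Φ c) = ∑' j, c j • (B ^ n) (u (s j)) := by
    intro n c
    change (B ^ n) (∑' j, c j • u (s j)) = _
    rw [(B ^ n).map_tsum (hc c).1]
    simp only [map_smul]
  have hbound : ∀ n ∈ A, ∀ c, ‖(B ^ n) (Φ c)‖ ≤ C * ‖c‖ := by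
    intro n hn c
    rw [hΦ]
    refine (disj_comb hp (fun j => (B ^ n) (u (s j))) (fun j k hjk i => ?_) C
      (fun j => hu4 _ n hn) c).2.1
    rw [pow_apply hw hB, pow_apply hw hB]
    rcases hdisj j k hjk (i + n) with h | h <;> simp [h]
  refine ⟨Φ, fun c => (hc c).2.2 fun j => hu1 _, fun c ε hε => ?_⟩
  obtain ⟨J, hJ⟩ := (tail_small hp c (ε / (|C| + 1)) (by positivity)).exists
  refine ⟨s J, fun n hn hnA => ?_⟩
  have h1 : (B ^ n) (Φ (tr J c)) = 0 := by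
    rw [hΦ]
    refine (tsum_congr fun j => ?_).trans tsum_zero
    rw [tr_apply]
    split_ifs with h
    · rw [kill hw hB (hu3 _) ((hLs j J h).trans hn), smul_zero]
    · rw [zero_smul]
  have h2 := hbound n hnA (c - tr J c)
  rw [map_sub, map_sub, h1, sub_zero] at h2
  rw [lt_div_iff₀ (by positivity)] at hJ
  have h3 := le_abs_self C
  have h4 := norm_nonneg (c - tr J c)
  nlinarith

include hp hw hB in
lemma exists_Ψ (hsum : Summable fun k => (‖β w k‖ ^ p.toReal)⁻¹) {A : Set ℕ} (hA : PD A)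
    (J d : ℕ → ℕ) (y : ℕ → X 𝕜 p) : ∃ (Ψ : X 𝕜 p →L[𝕜] X 𝕜 p) (Z : ℕ → Set ℕ), ‖Ψ‖ ≤ 1 / 2 ∧
      (∀ t, PD (Z t)) ∧ (∀ t, Z t ⊆ A) ∧ ∀ c t n, n ∈ Z t →
        ‖(B ^ n) (Ψ c) - c (J t) • tr (d t) (y t)‖ ≤ ‖c‖ * (1 / 2) ^ t := by
  classical
  let a : X 𝕜 p := ⟨fun k => (β w k)⁻¹, memℓp_gen (by
    simpa only [norm_inv, Real.inv_rpow (norm_nonneg _)] using hsum)⟩
  have ha : ∀ k, a k = (β w k)⁻¹ := fun k => rfl
  let Y : ℕ → ℝ := fun t => ∑ i ∈ Finset.range (d t), ‖β w i * y t i‖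
  have hY : ∀ t, 0 ≤ Y t := fun t => Finset.sum_nonneg fun _ _ => norm_nonneg _
  have hσ : ∀ t, ∃ σ, ∀ s, σ ≤ s → ∀ t' ∈ Finset.range (t + 1),
      d t' ≤ s ∧ Y t' * ‖a - tr s a‖ ≤ (1 / 4) ^ (t + 1) := by
    intro t
    rw [← eventually_atTop, eventually_all_finset]
    intro t' _
    have := hY t'
    filter_upwards [eventually_ge_atTop (d t'),
      tail_small hp a ((1 / 4) ^ (t + 1) / (Y t' + 1)) (by positivity)] with s h1 h2
    refine ⟨h1, ?_⟩
    rw [lt_div_iff₀ (by positivity)] at h2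
    have := norm_nonneg (a - tr s a)
    nlinarith
  choose σ hσ using hσ
  obtain ⟨Z, hZ1, hZ2, hZ3, hZ4⟩ := exists_slots hA (fun t => σ t + 1)
  choose h hh using fun t => exists_hv hw hB a ha (Z t) (d t) (y t)
  have H0 : ∀ t, ‖h t‖ ≤ (1 / 4) * (1 / 2) ^ t := by
    intro t
    have h1 := hσ t (σ t) le_rfl t (Finset.self_mem_range_succ t)
    have h2 := hh t (σ t) 0 h1.1 fun m hm => by have := hZ3 t m hm; omega
    rw [if_neg (fun h => by have := hZ3 t 0 h; omega), sub_zero, pow_zero,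
      one_apply_eq_self] at h2
    refine (h2.trans h1.2).trans ?_
    rw [pow_succ']
    gcongr
    norm_num
  have H1 : ∀ t0 n, n ∈ Z t0 → ∀ t, ‖(B ^ n) (h t) - (if t = t0 then tr (d t) (y t) else 0)‖ ≤
      (1 / 2) ^ t0 * (1 / 4) * (1 / 2) ^ t := by
    intro t0 n hn t
    have h1 := hσ (max t t0) (max (σ t + 1) (σ t0 + 1)) (by
      rcases max_choice t t0 with h | h <;> rw [h] <;> omega) t (Finset.mem_range.2 (by omega))
    have h2 := hh t _ n h1.1 fun m hm => by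
      rcases hZ4 t t0 m n hm hn with h | h | h
      · exact Or.inl h.1
      · exact Or.inr (Or.inl h)
      · exact Or.inr (Or.inr h)
    have h3 : n ∈ Z t ↔ t = t0 := by
      refine ⟨fun h => ?_, fun h => h ▸ hn⟩
      rcases hZ4 t t0 n n h hn with h | h | h
      · exact h.2
      · omega
      · omega
    simp only [h3] at h2
    refine (h2.trans h1.2).trans ?_
    have h4 : (1 / 4 : ℝ) ^ (max t t0 + 1) = (1 / 2) ^ max t t0 * (1 / 4) * (1 / 2) ^ max t t0 := by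
      rw [pow_succ, mul_right_comm, ← mul_pow]; norm_num
    rw [h4]
    gcongr ?_ * _ * ?_
    · exact pow_le_pow_of_le_one (by norm_num) (by norm_num) (le_max_right _ _)
    · exact pow_le_pow_of_le_one (by norm_num) (by norm_num) (le_max_left _ _)
  let Kp : ℕ → X 𝕜 p →L[𝕜] X 𝕜 p := fun t =>
    (lp.evalCLM 𝕜 (fun _ : ℕ => 𝕜) p (J t)).smulRight (h t)
  have hKp : ∀ t c, Kp t c = c (J t) • h t := fun t c => rfl
  have hc : ∀ (c : X 𝕜 p) j, ‖c j‖ ≤ ‖c‖ := fun c j => lp.norm_apply_le_norm p_ne c j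
  have hK : ∀ t, ‖Kp t‖ ≤ (1 / 4) * (1 / 2) ^ t := by
    intro t
    refine ContinuousLinearMap.opNorm_le_bound _ (by positivity) fun c => ?_
    rw [hKp, norm_smul, mul_comm]
    gcongr
    · exact H0 t
    · exact hc _ _
  have hg := hasSum_geometric_two.mul_left (1 / 4 : ℝ)
  have hsK : Summable Kp := Summable.of_norm_bounded hg.summable hK
  refine ⟨∑' t, Kp t, Z, (tsum_of_norm_bounded hg hK).trans (by norm_num), hZ1, hZ2,
    fun c t0 n hn => ?_⟩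
  have h1 := (ContinuousLinearMap.apply 𝕜 (X 𝕜 p) c).hasSum hsK.hasSum
  simp only [ContinuousLinearMap.apply_apply, hKp] at h1
  have h2 := ((B ^ n).hasSum h1).sub (hasSum_ite_eq t0 (c (J t0) • tr (d t0) (y t0)))
  have h3 := h2.norm_le_of_bounded
    (hasSum_geometric_two.mul_left (‖c‖ * ((1 / 2) ^ t0 * (1 / 4)))) fun t => by
      have e : (B ^ n) (c (J t) • h t) - (if t = t0 then c (J t0) • tr (d t0) (y t0) else 0) =
          c (J t) • ((B ^ n) (h t) - (if t = t0 then tr (d t) (y t) else 0)) := by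
        rw [map_smul, smul_sub]
        split_ifs with h
        · rw [h]
        · rw [smul_zero]
      rw [e, norm_smul, mul_assoc]
      gcongr
      · exact hc _ _
      · exact H1 t0 n hn t
  refine h3.trans ?_
  have : 0 ≤ ‖c‖ * (1 / 2) ^ t0 := by positivity
  nlinarith

include hp hw hB in
theorem suff (hsum : Summable fun k => (‖β w k‖ ^ p.toReal)⁻¹) {A : Set ℕ} (hA : PD A) {C : ℝ}
    (hG : Good B A C) : ∃ M : Submodule 𝕜 (X 𝕜 p), IsClosed (M : Set (X 𝕜 p)) ∧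
      ¬ FiniteDimensional 𝕜 M ∧ ∀ x ∈ M, x ≠ 0 → FHC B x := by
  have := separable (𝕜 := 𝕜) hp
  obtain ⟨Φ, hΦ1, hΦ2⟩ := exists_Φ hp hw hB hG
  obtain ⟨Ψ, Z, hΨ, hZ1, hZ2, hZ3⟩ := exists_Ψ hp hw hB hsum hA (fun t => (Nat.unpair t).1)
    (fun t => (Nat.unpair (Nat.unpair t).2).2)
    (fun t => TopologicalSpace.denseSeq (X 𝕜 p) (Nat.unpair (Nat.unpair t).2).1)
  have hlow : ∀ c, ‖c‖ ≤ (2 : NNReal) * ‖(Φ + Ψ) c‖ := by
    intro c
    have h1 := Ψ.le_opNorm c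
    have h2 := norm_sub_le ((Φ + Ψ) c) (Ψ c)
    rw [add_apply, add_sub_cancel_right, hΦ1] at h2
    have h3 : ‖Ψ‖ * ‖c‖ ≤ 1 / 2 * ‖c‖ := by gcongr
    rw [add_apply]
    push_cast
    linarith
  have hanti := (Φ + Ψ).antilipschitz_of_bound hlow
  refine ⟨LinearMap.range (Φ + Ψ).toLinearMap, hanti.isClosed_range (Φ + Ψ).uniformContinuous,
    fun hfin => not_finite (𝕜 := 𝕜) (p := p) ?_, ?_⟩
  · exact Module.Finite.of_injective (Φ + Ψ).toLinearMap.rangeRestrict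
      ((LinearMap.injective_rangeRestrict_iff _).2 hanti.injective)
  rintro _ ⟨c, rfl⟩ hc U hU ⟨v, hv⟩
  have hc0 : c ≠ 0 := by rintro rfl; exact hc (map_zero _)
  obtain ⟨j, hj⟩ : ∃ j, c j ≠ 0 := by
    by_contra h
    push Not at h
    exact hc0 (lp.ext (funext h))
  obtain ⟨ε, hε, hball⟩ := Metric.isOpen_iff.1 hU v hv
  have hcj : 0 < ‖c j‖ := norm_pos_iff.2 hj
  obtain ⟨l, hl⟩ := (TopologicalSpace.denseRange_denseSeq (X 𝕜 p)).exists_dist_lt ((c j)⁻¹ • v)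
    (show 0 < ε / 4 / ‖c j‖ by positivity)
  set y := TopologicalSpace.denseSeq (X 𝕜 p) l with hy
  have e1 : ∀ᶠ d : ℕ in atTop, ‖c‖ * (1 / 2) ^ d < ε / 4 := by
    have := (tendsto_pow_atTop_nhds_zero_of_lt_one (r := (1 / 2 : ℝ)) (by norm_num)
      (by norm_num)).const_mul ‖c‖
    rw [mul_zero] at this
    exact this.eventually (gt_mem_nhds (by positivity))
  obtain ⟨d, hd1, hd2⟩ := (e1.and (tail_small hp y (ε / 4 / ‖c j‖) (by positivity))).exists
  obtain ⟨n0, hn0⟩ := hΦ2 c (ε / 4) (by positivity)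
  refine (hZ1 (Nat.pair j (Nat.pair l d))).mono n0 fun n hn hnZ => hball ?_
  have h1 := hZ3 c _ n hnZ
  simp only [Nat.unpair_pair, ← hy] at h1
  have h2 := hn0 n hn (hZ2 _ hnZ)
  have h3 : ‖c‖ * (1 / 2) ^ Nat.pair j (Nat.pair l d) ≤ ‖c‖ * (1 / 2) ^ d := by
    gcongr ‖c‖ * ?_
    exact pow_le_pow_of_le_one (by norm_num) (by norm_num)
      ((Nat.right_le_pair _ _).trans (Nat.right_le_pair _ _))
  have h4 : ‖c j • (y - tr d y)‖ < ε / 4 := by
    rw [norm_smul]; rwa [lt_div_iff₀' hcj] at hd2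
  have h5 : ‖c j • y - v‖ < ε / 4 := by
    rw [dist_comm, dist_eq_norm, lt_div_iff₀' hcj, ← norm_smul, smul_sub, smul_inv_smul₀ hj] at hl
    exact hl
  rw [mem_ball_iff_norm]
  have e : (B ^ n) ((Φ + Ψ).toLinearMap c) - v = (B ^ n) (Φ c) +
      ((B ^ n) (Ψ c) - c j • tr d y) - c j • (y - tr d y) + (c j • y - v) := by
    change (B ^ n) (Φ c + Ψ c) - v = _
    rw [map_add, smul_sub]; abel
  rw [e]
  have h6 := norm_add_le ((B ^ n) (Φ c) + ((B ^ n) (Ψ c) - c j • tr d y) - c j • (y - tr d y))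
    (c j • y - v)
  have h7 := norm_sub_le ((B ^ n) (Φ c) + ((B ^ n) (Ψ c) - c j • tr d y)) (c j • (y - tr d y))
  have h8 := norm_add_le ((B ^ n) (Φ c)) ((B ^ n) (Ψ c) - c j • tr d y)
  linarith

end Pool.Agent.H740Z.Fs
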