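import Pool.Agent.H740Z.FsD

set_option autoImplicit false

open Filter Topology
open scoped ENNReal

namespace Pool.Agent.H740Z.Fs

lemma ncard_le_cnt (A : Set ℕ) (N : ℕ) : (A ∩ Set.Icc 1 N).ncard ≤ cnt A N + 1 := by
  classical
  unfold cnt
  rw [← Set.ncard_coe_finset]
  refine le_trans (Set.ncard_le_ncard (t := insert N _) ?_ (Set.toFinite _))
    (Set.ncard_insert_le _ _)
  rintro n ⟨h1, h2, h3⟩
  rcases h3.eq_or_lt with h | h
  · exact Or.inl h
  · exact Or.inr (by simp [h, h1])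

lemma cnt_le_ncard (A : Set ℕ) (N : ℕ) : cnt A N ≤ (A ∩ Set.Icc 1 N).ncard + 1 := by
  classical
  unfold cnt
  rw [← Set.ncard_coe_finset]
  refine le_trans (Set.ncard_le_ncard (t := insert 0 _) ?_
    (((Set.finite_Icc 1 N).inter_of_right A).insert 0)) (Set.ncard_insert_le _ _)
  intro n hn
  simp only [Finset.coe_filter, Finset.mem_range, Set.mem_ofPred_eq] at hn
  rcases Nat.eq_zero_or_pos n with h | h
  · exact Or.inl h
  · exact Or.inr ⟨hn.2, h, hn.1.le⟩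

lemma liminf_pos_iff (A : Set ℕ) :
    0 < liminf (fun N : ℕ => ((A ∩ Set.Icc 1 N).ncard : ℝ) / (N : ℝ)) atTop ↔ PD A := by
  have hb1 : IsBoundedUnder (· ≥ ·) atTop
      (fun N : ℕ => ((A ∩ Set.Icc 1 N).ncard : ℝ) / (N : ℝ)) :=
    isBoundedUnder_of ⟨0, fun N => by positivity⟩
  have hb2 : IsBoundedUnder (· ≤ ·) atTop
      (fun N : ℕ => ((A ∩ Set.Icc 1 N).ncard : ℝ) / (N : ℝ)) := by
    refine isBoundedUnder_of ⟨2, fun N => ?_⟩
    rcases Nat.eq_zero_or_pos N with h | h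
    · subst h; simp
    · have hN : (1 : ℝ) ≤ N := by exact_mod_cast h
      have h1 : ((A ∩ Set.Icc 1 N).ncard : ℝ) ≤ N + 1 := by
        exact_mod_cast (ncard_le_cnt A N).trans (Nat.add_le_add_right (cnt_le A N) 1)
      rw [div_le_iff₀ (by linarith)]
      linarith
  constructor
  · intro h
    obtain ⟨δ, h0, h1⟩ := exists_between h
    obtain ⟨R, hR⟩ := exists_nat_ge (2 / δ)
    obtain ⟨N0, h2⟩ := eventually_atTop.1 (Filter.eventually_lt_of_lt_liminf h1 hb1)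
    refine ⟨R, N0 + R + 1, fun N hN => ?_⟩
    have h3 := h2 N (by omega)
    have hN0 : (0 : ℝ) < N := by exact_mod_cast (by omega : 0 < N)
    rw [lt_div_iff₀ hN0] at h3
    have h4 : ((A ∩ Set.Icc 1 N).ncard : ℝ) ≤ cnt A N + 1 := by exact_mod_cast ncard_le_cnt A N
    have h5 : (R : ℝ) ≤ N := by exact_mod_cast (by omega : R ≤ N)
    rw [div_le_iff₀ h0] at hR
    have h6 : (0 : ℝ) ≤ R := Nat.cast_nonneg R
    have h7 : (N : ℝ) ≤ R * cnt A N := by nlinarith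
    exact_mod_cast h7
  · intro h
    obtain ⟨R, N0, hR, h1⟩ := h.pos
    refine lt_of_lt_of_le (show (0 : ℝ) < 1 / (2 * R) by positivity) ?_
    refine Filter.le_liminf_of_le hb2.isCoboundedUnder_ge ?_
    filter_upwards [eventually_ge_atTop N0, eventually_ge_atTop (2 * R)] with N hN hN1
    have hN0 : (0 : ℝ) < N := by exact_mod_cast (by omega : 0 < N)
    have h2 := h1 N hN
    have h3 := Nat.mul_le_mul_left R (cnt_le_ncard A N)
    have h4 : N ≤ (A ∩ Set.Icc 1 N).ncard * (2 * R) := by nlinarith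
    rw [div_le_div_iff₀ (by positivity) hN0, one_mul]
    exact_mod_cast h4

variable {𝕜 : Type} [RCLike 𝕜] {p : ℝ≥0∞} [Fact (1 ≤ p)]

omit [Fact (1 ≤ p)] in
lemma β_eq (w : ℕ → 𝕜) (k : ℕ) : β w k = ∏ i ∈ Finset.Ioc 0 k, w i := by
  induction k with
  | zero => simp [β]
  | succ k ih => rw [β_succ, ih, Finset.prod_Ioc_succ_top (Nat.zero_le k)]

variable (hp : p ≠ ⊤) {w : ℕ → 𝕜} (hw : ∀ n, w n ≠ 0) {B : X 𝕜 p →L[𝕜] X 𝕜 p} (hB : IsShift w B)

include hp in
lemma exists_shift (hb : BddAbove (Set.range fun n => ‖w n‖)) :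
    ∃ B : X 𝕜 p →L[𝕜] X 𝕜 p, IsShift w B := by
  obtain ⟨C, hC⟩ := hb
  have hC' : ∀ n, ‖w n‖ ≤ C := fun n => hC ⟨n, rfl⟩
  have hC0 : 0 ≤ C := (norm_nonneg _).trans (hC' 0)
  have hq := q_pos hp
  have h1 : ∀ (x : X 𝕜 p) n, ‖w (n + 1) * x (n + 1)‖ ^ p.toReal ≤
      C ^ p.toReal * ‖x (n + 1)‖ ^ p.toReal := by
    intro x n
    rw [← Real.mul_rpow hC0 (norm_nonneg _), norm_mul]
    gcongr
    exact hC' _
  have h2 : ∀ x : X 𝕜 p, Summable fun n => ‖x (n + 1)‖ ^ p.toReal := fun x =>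
    (summable_nat_add_iff (f := fun n => ‖x n‖ ^ p.toReal) 1).2 (lp.hasSum_norm hq x).summable
  let B0 : X 𝕜 p →ₗ[𝕜] X 𝕜 p :=
    { toFun := fun x => ⟨fun n => w (n + 1) * x (n + 1), memℓp_gen
        (Summable.of_nonneg_of_le (fun _ => by positivity) (h1 x) ((h2 x).mul_left _))⟩
      map_add' := fun x y => by
        apply lp.ext; funext i
        change w (i + 1) * (x + y) (i + 1) = w (i + 1) * x (i + 1) + w (i + 1) * y (i + 1)
        rw [lp.coeFn_add, Pi.add_apply]; ring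
      map_smul' := fun c x => by
        apply lp.ext; funext i
        change w (i + 1) * (c • x) (i + 1) = c • (w (i + 1) * x (i + 1))
        rw [lp.coeFn_smul, Pi.smul_apply, smul_eq_mul, smul_eq_mul]; ring }
  refine ⟨B0.mkContinuous C fun x => ?_, fun x n => rfl⟩
  refine lp.norm_le_of_forall_sum_le hq (by positivity) fun s => ?_
  refine (Finset.sum_le_sum fun i _ => h1 x i).trans ?_
  rw [← Finset.mul_sum, Real.mul_rpow hC0 (norm_nonneg _)]
  gcongr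
  have h3 := lp.sum_rpow_le_norm_rpow hq x (s.map (addRightEmbedding 1))
  rwa [Finset.sum_map] at h3

include hp hw hB in
lemma norm_pow_fin (u : X 𝕜 p) (K L : ℕ) (h : ∀ i, i ∉ Finset.Ico K L → u i = 0) (n : ℕ) :
    ‖(B ^ n) u‖ ^ p.toReal = ∑ k ∈ (Finset.Ico K L).filter (n ≤ ·),
      ‖u k‖ ^ p.toReal * ‖∏ i ∈ Finset.Ioc (k - n) k, w i‖ ^ p.toReal := by
  have hq := q_pos hp
  refine (lp.hasSum_norm hq _).unique ?_
  rw [Finset.sum_filter]
  have h1 : HasSum (fun k => if n ≤ k then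
      ‖u k‖ ^ p.toReal * ‖∏ i ∈ Finset.Ioc (k - n) k, w i‖ ^ p.toReal else 0) _ :=
    hasSum_sum_of_ne_finset_zero (s := Finset.Ico K L) fun k hk => by
      simp [h k hk, Real.zero_rpow hq.ne']
  rw [← (add_left_injective n).hasSum_iff (fun k hk => by
    rw [if_neg]; intro h; exact hk ⟨k - n, by simp only; omega⟩)] at h1
  refine h1.congr_fun ?_ |> fun h => h
  intro m
  simp only [Function.comp_apply, Nat.le_add_left, if_true, Nat.add_sub_cancel]
  rw [pow_apply hw hB, ← Real.mul_rpow (norm_nonneg _) (norm_nonneg _), ← norm_mul, β_eq, β_eq,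
    ← Finset.prod_Ioc_consecutive w (Nat.zero_le m) (Nat.le_add_right m n),
    mul_div_cancel_left₀ _ (by rw [← β_eq]; exact β_ne hw m), mul_comm]

include hp hw hB in
lemma good_iff (A : Set ℕ) : (∃ C, Good B A C) ↔ ∃ C : ℝ, ∀ K : ℕ, ∃ (L : ℕ) (μ : ℕ → ℝ),
    (∀ k, 0 ≤ μ k) ∧ ∑ k ∈ Finset.Ico K L, μ k = 1 ∧ ∀ n ∈ A,
      ∑ k ∈ (Finset.Ico K L).filter (n ≤ ·),
        μ k * ‖∏ i ∈ Finset.Ioc (k - n) k, w i‖ ^ p.toReal ≤ C := by
  have hq := q_pos hp
  have h0 : ∀ (u : X 𝕜 p) (K L : ℕ), (∀ i, i ∉ Finset.Ico K L → u i = 0) →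
      ‖u‖ ^ p.toReal = ∑ k ∈ Finset.Ico K L, ‖u k‖ ^ p.toReal := by
    intro u K L h
    simpa using norm_pow_fin hp hw hB u K L h 0
  constructor
  · rintro ⟨C, hC⟩
    refine ⟨|C| ^ p.toReal, fun K => ?_⟩
    obtain ⟨u, L, h1, h2, h3, h4⟩ := hC K
    have h5 : ∀ i, i ∉ Finset.Ico K L → u i = 0 := by
      intro i hi
      rw [Finset.mem_Ico] at hi
      rcases Nat.lt_or_ge i K with h | h
      · exact h2 i h
      · exact h3 i (by omega)
    refine ⟨L, fun k => ‖u k‖ ^ p.toReal, fun k => by positivity, ?_, fun n hn => ?_⟩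
    · rw [← h0 u K L h5, h1, Real.one_rpow]
    · rw [← norm_pow_fin hp hw hB u K L h5 n]
      gcongr
      exact (h4 n hn).trans (le_abs_self C)
  · rintro ⟨C, hC⟩
    refine ⟨|C| ^ p.toReal⁻¹, fun K => ?_⟩
    obtain ⟨L, μ, h1, h2, h3⟩ := hC K
    let u : X 𝕜 p := ∑ k ∈ Finset.Ico K L, lp.single p k ((μ k ^ p.toReal⁻¹ : ℝ) : 𝕜)
    have hu : ∀ i, u i = if i ∈ Finset.Ico K L then ((μ i ^ p.toReal⁻¹ : ℝ) : 𝕜) else 0 := by
      intro i
      simp only [u, lp.coeFn_single, lp.coeFn_sum, Finset.sum_apply, Finset.sum_pi_single]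
    have h5 : ∀ i, i ∉ Finset.Ico K L → u i = 0 := fun i hi => by rw [hu, if_neg hi]
    have h6 : ∀ i ∈ Finset.Ico K L, ‖u i‖ ^ p.toReal = μ i := by
      intro i hi
      rw [hu, if_pos hi, RCLike.norm_ofReal, abs_of_nonneg (Real.rpow_nonneg (h1 i) _),
        Real.rpow_inv_rpow (h1 i) hq.ne']
    refine ⟨u, L, ?_, fun i hi => h5 i (by simp; omega), fun i hi => h5 i (by simp; omega),
      fun n hn => ?_⟩
    · have h7 := h0 u K L h5
      rw [Finset.sum_congr rfl h6, h2] at h7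
      exact Real.rpow_left_injOn hq.ne' (norm_nonneg _) (zero_le_one (α := ℝ))
        (by simpa using h7)
    · rw [Real.le_rpow_inv_iff_of_pos (norm_nonneg _) (abs_nonneg _) hq,
        norm_pow_fin hp hw hB u K L h5 n]
      refine le_trans (le_of_eq ?_) ((h3 n hn).trans (le_abs_self C))
      refine Finset.sum_congr rfl fun k hk => ?_
      rw [h6 k (Finset.mem_filter.1 hk).1]

include hp hw hB in
lemma good_iff' (A : Set ℕ) : (∃ C, Good B A C) ↔ ∃ M : Submodule 𝕜 (X 𝕜 p),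
    IsClosed (M : Set (X 𝕜 p)) ∧ ¬ FiniteDimensional 𝕜 M ∧
      ∀ x ∈ M, Tendsto (fun n => (B ^ n) x) (atTop ⊓ 𝓟 A) (𝓝 0) := by
  constructor
  · rintro ⟨C, hC⟩
    obtain ⟨Φ, h1, h2⟩ := exists_Φ hp hw hB hC
    have hanti := Φ.antilipschitz_of_bound (K := 1) (fun c => by simp [h1])
    refine ⟨LinearMap.range Φ.toLinearMap, hanti.isClosed_range Φ.uniformContinuous,
      fun hfin => not_finite (𝕜 := 𝕜) (p := p) ?_, ?_⟩
    · exact Module.Finite.of_injective Φ.toLinearMap.rangeRestrict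
        ((LinearMap.injective_rangeRestrict_iff _).2 hanti.injective)
    rintro _ ⟨c, rfl⟩
    rw [NormedAddGroup.tendsto_nhds_zero]
    intro ε hε
    obtain ⟨n0, h3⟩ := h2 c ε hε
    rw [eventually_inf_principal]
    filter_upwards [eventually_ge_atTop n0] with n hn hnA
    exact h3 n hn hnA
  · rintro ⟨M, hM, hM', h⟩
    have : CompleteSpace M := hM.completeSpace_coe
    obtain ⟨C, hC⟩ := banach_steinhaus (g := fun n : A => (B ^ (n : ℕ)).comp M.subtypeL)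
      (fun x => by
        have h1 := NormedAddGroup.tendsto_nhds_zero.1 (h x x.2) 1 one_pos
        rw [eventually_inf_principal, eventually_atTop] at h1
        obtain ⟨n0, h1⟩ := h1
        refine ⟨1 + ∑ n ∈ Finset.range n0, ‖(B ^ n) (x : X 𝕜 p)‖, fun n => ?_⟩
        change ‖(B ^ (n : ℕ)) (x : X 𝕜 p)‖ ≤ _
        have h2 : 0 ≤ ∑ n ∈ Finset.range n0, ‖(B ^ n) (x : X 𝕜 p)‖ :=
          Finset.sum_nonneg fun _ _ => norm_nonneg _
        rcases Nat.lt_or_ge n n0 with h3 | h3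
        · have := Finset.single_le_sum (f := fun n => ‖(B ^ n) (x : X 𝕜 p)‖)
            (fun _ _ => norm_nonneg _) (Finset.mem_range.2 h3)
          linarith
        · linarith [h1 n h3 n.2])
    refine ⟨2 * |C|, fun K => ?_⟩
    obtain ⟨v, hvM, hv1, hv0⟩ := exists_vanish M hM' K
    obtain ⟨L, hL⟩ := (tail_small hp v (1 / 2) (by norm_num)).exists
    have h2 := norm_sub_norm_le v (tr L v)
    rw [hv1] at h2
    have h3 : 0 < ‖tr L v‖ := by linarith
    refine ⟨((‖tr L v‖ : 𝕜)⁻¹) • tr L v, L, ?_, fun i hi => ?_, fun i hi => ?_, fun n hn => ?_⟩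
    · rw [norm_smul, norm_inv, RCLike.norm_ofReal, abs_norm, inv_mul_cancel₀ h3.ne']
    · rw [lp.coeFn_smul, Pi.smul_apply, tr_apply, hv0 i hi]; simp
    · rw [lp.coeFn_smul, Pi.smul_apply, tr_apply, if_neg (by omega), smul_zero]
    · rw [map_smul, norm_smul, norm_inv, RCLike.norm_ofReal, abs_norm]
      have h4 : ‖(B ^ n) (tr L v)‖ ≤ ‖(B ^ n) v‖ := by
        refine dom hw hB n fun i => ?_
        rw [tr_apply]
        split_ifs <;> simp
      have h5 := ((B ^ n).comp M.subtypeL).le_of_opNorm_le (hC ⟨n, hn⟩) ⟨v, hvM⟩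
      change ‖(B ^ n) v‖ ≤ C * ‖v‖ at h5
      rw [hv1, mul_one] at h5
      have h6 : ‖tr L v‖⁻¹ ≤ 2 := by
        rw [inv_le_comm₀ h3 (by norm_num)]; linarith
      have h7 := (h4.trans h5).trans (le_abs_self C)
      gcongr

include hp hw hB in
theorem main : (∃ M : Submodule 𝕜 (X 𝕜 p), IsClosed (M : Set (X 𝕜 p)) ∧
      ¬ FiniteDimensional 𝕜 M ∧ ∀ x ∈ M, x ≠ 0 → FHC B x) ↔
    (Summable fun k => (‖β w k‖ ^ p.toReal)⁻¹) ∧ ∃ A, PD A ∧ ∃ C, Good B A C := by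
  constructor
  · rintro ⟨M, h1, h2, h3⟩
    obtain ⟨v, hv, hv1, -⟩ := exists_vanish M h2 0
    have hv0 : v ≠ 0 := by rintro rfl; simp at hv1
    obtain ⟨A, C, hA, hC⟩ := nec_good hp hw hB M h1 h2 h3
    exact ⟨nec_sum hp hw hB (h3 v hv hv0), A, hA, C, hC⟩
  · rintro ⟨h1, A, hA, C, hC⟩
    exact suff hp hw hB h1 hA hC

end Pool.Agent.H740Z.Fs
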