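import Mathlib

set_option autoImplicit false

open Filter Topology
open scoped ENNReal

namespace Pool.Agent.H740Z.Inv

/-- switching times -/
irreducible_def nn (k : ℕ) : ℕ := 2 ^ (2 * k + 8)
/-- block lengths -/
irreducible_def D (k : ℕ) : ℕ := 2 ^ (3 * k + 12)
/-- depth of the low zone -/
def rr (k : ℕ) : ℕ := 21 * (k + 1)
/-- the spike -/
def aa (k : ℕ) : ℕ := nn k + 1 + rr k
/-- the receiving position -/
def be (k : ℕ) : ℕ := nn (k + 1) + rr k
/-- start of the high zone -/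
def bb (k : ℕ) : ℕ := nn (k + 1) + 2 * rr k
/-- lowness of a position -/
irreducible_def low (k i : ℕ) : ℕ := min (min (rr k) i) (min (aa k - i + (i - aa k)) (bb k - i))

lemma D_pos (k : ℕ) : 0 < D k := by rw [D_def]; positivity
lemma nn_pos (k : ℕ) : 0 < nn k := by rw [nn_def]; positivity

instance (k : ℕ) : NeZero (D k) := ⟨(D_pos k).ne'⟩

lemma nn_succ (k : ℕ) : nn (k + 1) = 4 * nn k := by simp only [nn_def]; ring
lemma D_succ (k : ℕ) : D (k + 1) = 8 * D k := by simp only [D_def]; ring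

lemma rr_lt (k : ℕ) : 2 * rr k + 1 ≤ nn k := by
  induction k with
  | zero => rw [nn_def]; decide
  | succ k ih => rw [nn_succ]; unfold rr at *; omega

lemma lt_nn (k : ℕ) : k < nn k := by have := rr_lt k; unfold rr at this; omega

lemma nn_mono : Monotone nn := monotone_nat_of_le_succ fun k => by rw [nn_succ]; omega
lemma D_mono : Monotone D := monotone_nat_of_le_succ fun k => by rw [D_succ]; omega

lemma D_eq (k : ℕ) : D k = 2 ^ (k + 1) * (8 * nn k) := by rw [D_def, nn_def]; ring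

lemma bb_le (k : ℕ) : bb k ≤ 8 * nn k := by
  have := rr_lt k; unfold bb; rw [nn_succ]; omega

lemma mul_bb_le (k L : ℕ) (h : L ≤ k) : L * bb k ≤ D k := by
  rw [D_eq]
  have h1 : k < 2 ^ (k + 1) := by
    have := Nat.lt_two_pow_self (n := k + 1); omega
  exact Nat.mul_le_mul (by omega) (bb_le k)

lemma nn_le_D (k : ℕ) : 16 * nn k ≤ D k := by
  rw [D_eq]
  have h1 : 2 ≤ 2 ^ (k + 1) := by
    have := Nat.lt_two_pow_self (n := k + 1); omega
  nlinarith [nn_pos k]

lemma bb_lt_D (k : ℕ) : bb k < D k := by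
  have := nn_le_D k; have := bb_le k; have := nn_pos k; omega

lemma aa_lt_be (k : ℕ) : aa k < be k := by
  have := rr_lt k; unfold aa be; rw [nn_succ]; omega

lemma be_lt_bb (k : ℕ) : be k < bb k := by
  unfold be bb rr; omega

lemma le_bb (k : ℕ) : k < bb k := by unfold bb rr; omega

lemma bb_mono (k : ℕ) : bb k ≤ bb (k + 1) := by
  unfold bb rr; rw [nn_succ (k + 1)]; omega

lemma low_le (k i : ℕ) : low k i ≤ rr k := by rw [low_def]; omega

lemma val_succ (k : ℕ) (i : ZMod (D k)) :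
    (i + 1).val = i.val + 1 ∨ ((i + 1).val = 0 ∧ i.val + 1 = D k) := by
  have h1 : (1 : ZMod (D k)).val = 1 := by
    rw [ZMod.val_one_eq_one_mod]; apply Nat.mod_eq_of_lt
    have := bb_lt_D k; have := le_bb k; omega
  have h2 := ZMod.val_add i 1
  rw [h1] at h2
  have h3 := ZMod.val_lt i
  rcases Nat.lt_or_ge (i.val + 1) (D k) with h | h
  · left; rw [h2, Nat.mod_eq_of_lt h]
  · right
    have h4 : i.val + 1 = D k := by omega
    refine ⟨?_, h4⟩
    rw [h2, h4, Nat.mod_self]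

lemma low_lip (k : ℕ) (i : ZMod (D k)) :
    low k (i + 1).val ≤ low k i.val + 1 ∧ low k i.val ≤ low k (i + 1).val + 1 := by
  have hb := bb_lt_D k
  rcases val_succ k i with h | ⟨h, h'⟩
  · rw [h]; simp only [low_def]; omega
  · rw [h]; simp only [low_def]; omega

/-- height of block `k` -/
noncomputable def H (k : ℕ) : ℝ := 2 ^ (20 * (k + 1))

lemma H_pos (k : ℕ) : 0 < H k := by unfold H; positivity

/-- index set -/
abbrev I : Type := Σ k : ℕ, ZMod (D k)

/-- the Hilbert space -/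
abbrev X : Type := lp (fun _ : I => ℂ) 2

/-- the size of a position -/
noncomputable def s (p : I) : ℝ := H p.1 / 2 ^ low p.1 p.2.val

lemma s_pos (p : I) : 0 < s p := by unfold s; have := H_pos p.1; positivity

lemma s_ne (p : I) : ((s p : ℝ) : ℂ) ≠ 0 := by exact_mod_cast (s_pos p).ne'

lemma s_lip (k : ℕ) (i : ZMod (D k)) :
    s ⟨k, i⟩ ≤ 2 * s ⟨k, i + 1⟩ ∧ s ⟨k, i + 1⟩ ≤ 2 * s ⟨k, i⟩ := by
  have key : ∀ a b : ℕ, a ≤ b + 1 → H k / 2 ^ b ≤ 2 * (H k / 2 ^ a) := by
    intro a b h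
    have h2 : (2 : ℝ) ^ a ≤ 2 ^ (b + 1) := pow_le_pow_right₀ (by norm_num) h
    rw [pow_succ] at h2
    rw [← mul_div_assoc, div_le_div_iff₀ (by positivity) (by positivity)]
    have := H_pos k
    nlinarith
  exact ⟨key _ _ (low_lip k i).1, key _ _ (low_lip k i).2⟩

lemma eps_eq (k : ℕ) : H k / 2 ^ rr k = (1 / 2) ^ (k + 1) := by
  unfold H rr
  rw [div_eq_iff (by positivity), show 21 * (k + 1) = (k + 1) + 20 * (k + 1) by ring,
    pow_add 2 (k + 1), ← mul_assoc, ← mul_pow]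
  norm_num

lemma s_ge (p : I) : (1 / 2) ^ (p.1 + 1) ≤ s p := by
  rw [← eps_eq]
  unfold s
  exact div_le_div_of_nonneg_left (H_pos _).le (by positivity)
    (pow_le_pow_right₀ (by norm_num) (low_le _ _))

lemma s_high (k c : ℕ) (h1 : bb k ≤ c) (h2 : c < D k) : s ⟨k, (c : ZMod (D k))⟩ = H k := by
  unfold s
  simp only [ZMod.val_natCast_of_lt h2]
  have : low k c = 0 := by rw [low_def]; omega
  rw [this]; simp

lemma s_spike (k : ℕ) : s ⟨k, (aa k : ZMod (D k))⟩ = H k := by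
  have h2 : aa k < D k := ((aa_lt_be k).trans (be_lt_bb k)).trans (bb_lt_D k)
  unfold s
  simp only [ZMod.val_natCast_of_lt h2]
  have : low k (aa k) = 0 := by rw [low_def]; omega
  rw [this]; simp

lemma s_zero (k : ℕ) : s ⟨k, (0 : ZMod (D k))⟩ = H k := by
  unfold s
  simp only [ZMod.val_zero]
  have : low k 0 = 0 := by rw [low_def]; omega
  rw [this]; simp

lemma s_low (k t : ℕ) (h1 : t + rr k ≤ nn k + 1 ∨ nn k + 1 + rr k ≤ t) (h2 : t ≤ nn (k + 1)) :
    s ⟨k, ((t + rr k : ℕ) : ZMod (D k))⟩ = (1 / 2) ^ (k + 1) := by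
  have h3 : t + rr k < D k := by
    have := bb_lt_D k; unfold bb at this; omega
  unfold s
  simp only [ZMod.val_natCast_of_lt h3]
  have : low k (t + rr k) = rr k := by rw [low_def]; unfold aa bb; omega
  rw [this, eps_eq]

lemma s_grow (k t : ℕ) :
    s ⟨k, ((t + rr k : ℕ) : ZMod (D k))⟩ ≤ 2 ^ t * (1 / 2) ^ (k + 1) := by
  induction t with
  | zero =>
    have := rr_lt k
    rw [s_low k 0 (Or.inl (by omega)) (Nat.zero_le _)]; simp
  | succ t ih =>
    have h : ((t + 1 + rr k : ℕ) : ZMod (D k)) = ((t + rr k : ℕ) : ZMod (D k)) + 1 := by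
      push_cast; ring
    rw [h, pow_succ 2 t]
    have := (s_lip k ((t + rr k : ℕ) : ZMod (D k))).2
    linarith

/-- the root of minus one -/
noncomputable def ζ (k : ℕ) : ℂ := Complex.exp (((Real.pi / D k : ℝ) : ℂ) * Complex.I)

lemma norm_ζ (k : ℕ) : ‖ζ k‖ = 1 := Complex.norm_exp_ofReal_mul_I _

lemma ζ_ne (k : ℕ) : ζ k ≠ 0 := Complex.exp_ne_zero _

lemma ζ_pow (k : ℕ) : ζ k ^ D k = -1 := by
  unfold ζ
  rw [← Complex.exp_nat_mul, ← Complex.exp_pi_mul_I]
  congr 1
  have : ((D k : ℕ) : ℂ) ≠ 0 := by exact_mod_cast (D_pos k).ne'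
  push_cast
  field_simp

section shift
variable (σ : I ≃ I) (w : I → ℂ) (hw : ∀ p, ‖w p‖ ≤ 2)

lemma summable_sq (x : X) : Summable fun i => ‖x i‖ ^ (2 : ℝ≥0∞).toReal :=
  (lp.memℓp x).summable (by norm_num)

include hw in
lemma bound_pt (x : X) (i : I) :
    ‖w i * x (σ i)‖ ^ (2 : ℝ≥0∞).toReal ≤ 4 * ‖x (σ i)‖ ^ (2 : ℝ≥0∞).toReal := by
  simp only [ENNReal.toReal_ofNat, Real.rpow_ofNat, norm_mul]
  have h1 := hw i
  have h2 := norm_nonneg (w i)
  have h3 := norm_nonneg (x (σ i))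
  have h4 : ‖w i‖ ^ 2 ≤ 4 := by nlinarith
  rw [mul_pow]
  exact mul_le_mul_of_nonneg_right h4 (by positivity)

lemma summable_shift (x : X) : Summable fun i => 4 * ‖x (σ i)‖ ^ (2 : ℝ≥0∞).toReal :=
  ((σ.summable_iff (f := fun i => ‖x i‖ ^ (2 : ℝ≥0∞).toReal)).2 (summable_sq x)).mul_left 4

include hw in
lemma mem_shift (x : X) : Memℓp (fun i => w i * x (σ i)) 2 :=
  memℓp_gen (Summable.of_nonneg_of_le (fun _ => by positivity) (bound_pt σ w hw x)
    (summable_shift σ x))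

/-- weighted composition, as a linear map -/
noncomputable def Wlin : X →ₗ[ℂ] X where
  toFun x := ⟨fun i => w i * x (σ i), mem_shift σ w hw x⟩
  map_add' x y := by
    apply lp.ext; funext i
    change w i * (x + y) (σ i) = w i * x (σ i) + w i * y (σ i)
    rw [lp.coeFn_add, Pi.add_apply]; ring
  map_smul' c x := by
    apply lp.ext; funext i
    change w i * (c • x) (σ i) = c • (w i * x (σ i))
    rw [lp.coeFn_smul, Pi.smul_apply, smul_eq_mul, smul_eq_mul]; ring

lemma Wlin_bound (x : X) : ‖Wlin σ w hw x‖ ≤ 2 * ‖x‖ := by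
  apply lp.norm_le_of_tsum_le (by norm_num) (by positivity)
  have h1 : ∑' i, ‖Wlin σ w hw x i‖ ^ (2 : ℝ≥0∞).toReal ≤
      ∑' i, 4 * ‖x (σ i)‖ ^ (2 : ℝ≥0∞).toReal :=
    Summable.tsum_le_tsum (bound_pt σ w hw x) (summable_sq (Wlin σ w hw x)) (summable_shift σ x)
  refine h1.trans (le_of_eq ?_)
  rw [tsum_mul_left, σ.tsum_eq (fun i => ‖x i‖ ^ (2 : ℝ≥0∞).toReal),
    ← lp.norm_rpow_eq_tsum (by norm_num)]
  simp only [ENNReal.toReal_ofNat, Real.rpow_ofNat]
  ring

/-- weighted composition operator -/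
noncomputable def W : X →L[ℂ] X := (Wlin σ w hw).mkContinuous 2 (Wlin_bound σ w hw)

lemma W_apply (x : X) (i : I) : W σ w hw x i = w i * x (σ i) := rfl

lemma norm_W : ‖W σ w hw‖ ≤ 2 := LinearMap.mkContinuous_norm_le _ (by norm_num) _

end shift

/-- the blockwise cyclic shift -/
def σ : I ≃ I := Equiv.sigmaCongrRight fun k => Equiv.addRight (1 : ZMod (D k))

lemma σ_apply (k : ℕ) (j : ZMod (D k)) : σ ⟨k, j⟩ = ⟨k, j + 1⟩ := rfl

lemma σ_fst (p : I) : (σ p).1 = p.1 := rfl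
lemma σ_symm_fst (p : I) : (σ.symm p).1 = p.1 := rfl

lemma s_σ (p : I) : s p ≤ 2 * s (σ p) ∧ s (σ p) ≤ 2 * s p := s_lip p.1 p.2

/-- weights of the unperturbed operator -/
noncomputable def w0 (p : I) : ℂ := ζ p.1 * ((s p : ℂ) / (s (σ p) : ℂ))

/-- weights of its inverse -/
noncomputable def w1 (p : I) : ℂ := (ζ p.1)⁻¹ * ((s p : ℂ) / (s (σ.symm p) : ℂ))

lemma norm_w0 (p : I) : ‖w0 p‖ ≤ 2 := by
  unfold w0
  rw [norm_mul, norm_ζ, one_mul, norm_div, Complex.norm_real, Complex.norm_real,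
    Real.norm_of_nonneg (s_pos _).le, Real.norm_of_nonneg (s_pos _).le, div_le_iff₀ (s_pos _)]
  exact (s_σ p).1

lemma norm_w1 (p : I) : ‖w1 p‖ ≤ 2 := by
  unfold w1
  rw [norm_mul, norm_inv, norm_ζ, inv_one, one_mul, norm_div, Complex.norm_real,
    Complex.norm_real, Real.norm_of_nonneg (s_pos _).le, Real.norm_of_nonneg (s_pos _).le,
    div_le_iff₀ (s_pos _)]
  have := (s_σ (σ.symm p)).2
  rwa [σ.apply_symm_apply] at this

/-- the unperturbed operator -/
noncomputable def S0 : X →L[ℂ] X := W σ w0 norm_w0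
/-- its inverse -/
noncomputable def T0 : X →L[ℂ] X := W σ.symm w1 norm_w1

lemma S0_T0 : S0 * T0 = 1 := by
  ext x p
  change w0 p * (w1 (σ p) * x (σ.symm (σ p))) = x p
  unfold w0 w1
  rw [σ.symm_apply_apply, σ_fst]
  have := s_ne p; have := s_ne (σ p); have := ζ_ne p.1
  field_simp

lemma T0_S0 : T0 * S0 = 1 := by
  ext x p
  change w1 p * (w0 (σ.symm p) * x (σ (σ.symm p))) = x p
  unfold w0 w1
  rw [σ.apply_symm_apply, σ_symm_fst]
  have := s_ne p; have := s_ne (σ.symm p); have := ζ_ne p.1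
  field_simp

/-- the scaled basis vectors -/
noncomputable def u (p : I) : X := lp.single 2 p (s p : ℂ)

/-- the coordinates with respect to the scaled basis -/
noncomputable def z (p : I) : X →L[ℂ] ℂ :=
  ((s p : ℂ)⁻¹) • lp.evalCLM ℂ (fun _ : I => ℂ) 2 p

lemma z_apply (p : I) (x : X) : z p x = (s p : ℂ)⁻¹ * x p := rfl

lemma norm_u (p : I) : ‖u p‖ = s p := by
  unfold u
  rw [lp.norm_single (by norm_num), Complex.norm_real, Real.norm_of_nonneg (s_pos p).le]

lemma norm_z_le (p : I) (x : X) : ‖z p x‖ ≤ ‖x‖ / s p := by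
  rw [z_apply, norm_mul, norm_inv, Complex.norm_real, Real.norm_of_nonneg (s_pos p).le,
    inv_mul_eq_div]
  exact div_le_div_of_nonneg_right (lp.norm_apply_le_norm (by norm_num) x p) (s_pos p).le

lemma z_u_self (p : I) : z p (u p) = 1 := by
  rw [z_apply]; unfold u
  rw [lp.single_apply_self]
  exact inv_mul_cancel₀ (s_ne p)

lemma z_u_ne (p q : I) (h : p ≠ q) : z p (u q) = 0 := by
  rw [z_apply]; unfold u
  rw [lp.single_apply_ne _ _ _ h, mul_zero]

lemma norm_z_u (p q : I) : ‖z p (u q)‖ ≤ 1 := by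
  by_cases h : p = q
  · subst h; rw [z_u_self]; simp
  · rw [z_u_ne p q h]; simp

lemma hasSum_u (x : X) : HasSum (fun p => z p x • u p) x := by
  have h3 := lp.hasSum_single (E := fun _ : I => ℂ) (p := 2) (by norm_num) x
  convert h3 using 1
  funext p
  unfold u
  rw [← lp.single_smul, z_apply, smul_eq_mul]
  congr 1
  have := s_ne p
  field_simp

lemma ext_z (x y : X) (h : ∀ p, z p x = z p y) : x = y := by
  have h1 := hasSum_u x
  simp only [h] at h1
  exact h1.unique (hasSum_u y)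

lemma z_S0 (p : I) (x : X) : z p (S0 x) = ζ p.1 * z (σ p) x := by
  rw [z_apply, z_apply]
  change _ * (w0 p * x (σ p)) = _
  unfold w0
  have := s_ne p; have := s_ne (σ p)
  field_simp

lemma S0_u (k : ℕ) (i : ZMod (D k)) : S0 (u ⟨k, i⟩) = ζ k • u ⟨k, i - 1⟩ := by
  apply ext_z
  intro p
  rw [z_S0, map_smul, smul_eq_mul]
  have h0 : σ ⟨k, i - 1⟩ = ⟨k, i⟩ := by rw [σ_apply, sub_add_cancel]
  by_cases h : p = ⟨k, i - 1⟩
  · subst h; rw [h0, z_u_self, z_u_self]
  · rw [z_u_ne _ _ h, z_u_ne, mul_zero, mul_zero]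
    intro h'
    rw [← h0] at h'
    exact h (σ.injective h')

instance separableX : TopologicalSpace.SeparableSpace X := by
  rw [← TopologicalSpace.isSeparable_univ_iff]
  have h1 : TopologicalSpace.IsSeparable (Set.range u) := (Set.countable_range _).isSeparable
  have h2 := (h1.span (R := ℂ)).closure
  refine h2.mono fun x _ => ?_
  refine mem_closure_of_tendsto (hasSum_u x) (Eventually.of_forall fun s => ?_)
  exact Submodule.sum_mem _ fun i _ => Submodule.smul_mem _ _ (Submodule.subset_span ⟨i, rfl⟩)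

theorem hilbert_reflexive (E : Type) [NormedAddCommGroup E] [InnerProductSpace ℂ E]
    [CompleteSpace E] : Function.Surjective (NormedSpace.inclusionInDoubleDual ℂ E) := by
  intro ξ
  let g0 : E →ₗ[ℂ] ℂ :=
    { toFun := fun y => (starRingEnd ℂ) (ξ (innerSL ℂ y))
      map_add' := fun a b => by simp
      map_smul' := fun c a => by simp }
  let g : E →L[ℂ] ℂ := g0.mkContinuous ‖ξ‖ (fun y => by
    change ‖(starRingEnd ℂ) (ξ (innerSL ℂ y))‖ ≤ _
    rw [RCLike.norm_conj]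
    refine (ξ.le_opNorm _).trans ?_
    rw [innerSL_apply_norm])
  refine ⟨(InnerProductSpace.toDual ℂ E).symm g, ?_⟩
  ext f
  rw [NormedSpace.dual_def]
  have h1 : f = innerSL ℂ ((InnerProductSpace.toDual ℂ E).symm f) := by
    ext y
    change f y = inner ℂ ((InnerProductSpace.toDual ℂ E).symm f) y
    rw [InnerProductSpace.toDual_symm_apply]
  have h2 : f ((InnerProductSpace.toDual ℂ E).symm g) =
      inner ℂ ((InnerProductSpace.toDual ℂ E).symm f)
        ((InnerProductSpace.toDual ℂ E).symm g) := by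
    rw [InnerProductSpace.toDual_symm_apply]
  rw [h2, ← inner_conj_symm, InnerProductSpace.toDual_symm_apply]
  change (starRingEnd ℂ) ((starRingEnd ℂ) (ξ (innerSL ℂ _))) = ξ f
  rw [← h1]
  simp

end Pool.Agent.H740Z.Inv
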