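import Pool.Agent.H740Z.InvA

set_option autoImplicit false

open Filter Topology

namespace Pool.Agent.H740Z.Inv

/-- vectors supported in the blocks below `b` -/
noncomputable def F (b : ℕ) : Submodule ℂ X := Submodule.span ℂ (u '' {p : I | p.1 < b})

lemma u_mem_F (b : ℕ) (p : I) (h : p.1 < b) : u p ∈ F b := Submodule.subset_span ⟨p, h, rfl⟩

lemma F_mono {a b : ℕ} (h : a ≤ b) : F a ≤ F b :=
  Submodule.span_mono (Set.image_mono fun _ hp => lt_of_lt_of_le hp h)

lemma F_induction {b : ℕ} {P : X → Prop} (h0 : P 0) (hu : ∀ p : I, p.1 < b → P (u p))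
    (hadd : ∀ x y, P x → P y → P (x + y)) (hsmul : ∀ (c : ℂ) x, P x → P (c • x))
    {v : X} (hv : v ∈ F b) : P v := by
  unfold F at hv
  induction hv using Submodule.span_induction with
  | mem x hx => obtain ⟨p, hp, rfl⟩ := hx; exact hu p hp
  | zero => exact h0
  | add x y _ _ hx hy => exact hadd x y hx hy
  | smul c x _ hx => exact hsmul c x hx

lemma z_F {b : ℕ} {v : X} (hv : v ∈ F b) (p : I) (hp : b ≤ p.1) : z p v = 0 := by
  refine F_induction (P := fun v => z p v = 0) (map_zero _) ?_ ?_ ?_ hv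
  · intro q hq
    apply z_u_ne
    rintro rfl
    omega
  · intro x y hx hy; rw [map_add, hx, hy, add_zero]
  · intro c x hx; rw [map_smul, hx, smul_zero]

/-- truncation to the blocks below `b` -/
noncomputable def P (b : ℕ) (x : X) : X :=
  ∑ p ∈ (Finset.range b).sigma (fun k => (Finset.univ : Finset (ZMod (D k)))), z p x • u p

lemma P_mem (b : ℕ) (x : X) : P b x ∈ F b := by
  refine Submodule.sum_mem _ fun p hp => Submodule.smul_mem _ _ (u_mem_F b p ?_)
  simpa using hp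

lemma P_tendsto (x : X) : Tendsto (fun b => P b x) atTop (𝓝 x) := by
  have h : Tendsto (fun b => (Finset.range b).sigma
      (fun k => (Finset.univ : Finset (ZMod (D k))))) atTop atTop := by
    refine Monotone.tendsto_atTop_finset ?_ ?_
    · intro a b hab p hp
      simp only [Finset.mem_sigma, Finset.mem_range, Finset.mem_univ, and_true] at hp ⊢
      omega
    · intro p
      exact ⟨p.1 + 1, by simp⟩
  exact (hasSum_u x).comp h

/-- block bound of the `p`-th target -/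
def blk (p : ℕ) : ℕ := (Nat.unpair p).2

/-- the `p`-th target -/
noncomputable def tgt (p : ℕ) : X := P (blk p) (TopologicalSpace.denseSeq X (Nat.unpair p).1)

lemma tgt_mem (p : ℕ) : tgt p ∈ F (blk p) := P_mem _ _

lemma tgt_dense (v : X) (ε : ℝ) (hε : 0 < ε) : ∃ p, ‖tgt p - v‖ < ε := by
  obtain ⟨q, hq⟩ := (TopologicalSpace.denseRange_denseSeq X).exists_dist_lt v hε
  have h := (P_tendsto (TopologicalSpace.denseSeq X q)).dist (tendsto_const_nhds (x := v))
  rw [dist_comm] at hq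
  obtain ⟨b, hb⟩ := (h.eventually (gt_mem_nhds hq)).exists
  refine ⟨Nat.pair q b, ?_⟩
  unfold tgt blk
  rw [Nat.unpair_pair, ← dist_eq_norm]
  exact hb

/-- the target may be used at stage `k` -/
def ok (p k : ℕ) : Prop := (3 : ℝ) ^ D (blk p) * (‖tgt p‖ + 1) ≤ k

open Classical in
/-- the target used at stage `k` -/
noncomputable def y (k : ℕ) : X :=
  if ok (padicValNat 2 (k + 1)) k then tgt (padicValNat 2 (k + 1)) else 0

lemma y_spec (k : ℕ) : y k = 0 ∨ ∃ b, y k ∈ F b ∧ (3 : ℝ) ^ D b * (‖y k‖ + 1) ≤ k := by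
  unfold y
  split_ifs with h
  · exact Or.inr ⟨_, tgt_mem _, h⟩
  · exact Or.inl rfl

lemma D_lt_of (b k : ℕ) (r : ℝ) (hr : 0 ≤ r) (h : (3 : ℝ) ^ D b * (r + 1) ≤ k) : D b < k := by
  have h1 : D b < 3 ^ D b := Nat.lt_pow_self (by norm_num)
  have h2 : ((D b : ℕ) : ℝ) < 3 ^ D b := by exact_mod_cast h1
  have h3 : (0 : ℝ) < 3 ^ D b := by positivity
  have : ((D b : ℕ) : ℝ) < k := by nlinarith
  exact_mod_cast this

lemma lt_D (b : ℕ) : b < D b := (le_bb b).trans (bb_lt_D b)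

lemma norm_y (k : ℕ) : ‖y k‖ ≤ k := by
  rcases y_spec k with h | ⟨b, _, h⟩
  · rw [h]; simp
  · have h3 : (1 : ℝ) ≤ 3 ^ D b := one_le_pow₀ (by norm_num)
    nlinarith [norm_nonneg (y k)]

lemma y_mem (k : ℕ) : y k ∈ F k := by
  rcases y_spec k with h | ⟨b, hb, h⟩
  · rw [h]; exact zero_mem _
  · have := D_lt_of b k _ (norm_nonneg _) h
    have := lt_D b
    exact F_mono (by omega) hb

/-- the moving bump in block `k` -/
noncomputable def g (k t : ℕ) : X := (ζ k)⁻¹ ^ t • u ⟨k, ((t + rr k : ℕ) : ZMod (D k))⟩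

lemma norm_g (k t : ℕ) : ‖g k t‖ = s ⟨k, ((t + rr k : ℕ) : ZMod (D k))⟩ := by
  unfold g
  rw [norm_smul, norm_pow, norm_inv, norm_ζ, norm_u]; simp

/-- the vector emitted at the spike of block `k` -/
noncomputable def E : ℕ → X
  | 0 => 0
  | k + 1 => ζ (k + 1) ^ (nn (k + 1) + 1) • (y k - y (k + 1) + g k (nn (k + 1)))

lemma E_mem (k : ℕ) : E k ∈ F k := by
  cases k with
  | zero => exact zero_mem _
  | succ k =>
    refine Submodule.smul_mem _ _ (add_mem (sub_mem (F_mono (Nat.le_succ k) (y_mem k))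
      (y_mem _)) (Submodule.smul_mem _ _ (u_mem_F _ _ (Nat.lt_succ_self k))))

lemma norm_g_switch (k : ℕ) : ‖g k (nn (k + 1))‖ ≤ 1 := by
  have := rr_lt k
  rw [norm_g, s_low k _ (Or.inr (by rw [nn_succ]; omega)) le_rfl]
  exact pow_le_one₀ (by norm_num) (by norm_num)

lemma norm_E (k : ℕ) : ‖E k‖ ≤ 2 * k := by
  cases k with
  | zero => simp [E]
  | succ k =>
    simp only [E]
    rw [norm_smul, norm_pow, norm_ζ, one_pow, one_mul]
    have h1 := norm_y k
    have h2 := norm_y (k + 1)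
    have h3 := norm_g_switch k
    have h4 := norm_add_le (y k - y (k + 1)) (g k (nn (k + 1)))
    have h5 := norm_sub_le (y k) (y (k + 1))
    push_cast at *
    linarith

/-- the spike of block `k` -/
def sp (k : ℕ) : I := ⟨k, (aa k : ZMod (D k))⟩

lemma norm_z_sp (k : ℕ) (x : X) : ‖z (sp k) x‖ ≤ ‖x‖ / H k := by
  have := norm_z_le (sp k) x
  rwa [show s (sp k) = H k from s_spike k] at this

lemma two_mul_div_H (k : ℕ) : 2 * (k : ℝ) / H k ≤ (1 / 8) * (1 / 2) ^ k := by
  have h1 : k < 2 ^ k := Nat.lt_two_pow_self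
  have h2 : (k : ℝ) ≤ 2 ^ k := by exact_mod_cast h1.le
  rw [div_le_iff₀ (H_pos k)]
  unfold H
  have h3 : (2 : ℝ) ^ (2 * k + 4) ≤ 2 ^ (20 * (k + 1)) :=
    pow_le_pow_right₀ (by norm_num) (by omega)
  have h4 : (1 / 8 : ℝ) * (1 / 2) ^ k * 2 ^ (2 * k + 4) = 2 * 2 ^ k := by
    rw [one_div_pow]; field_simp; ring
  calc 2 * (k : ℝ) ≤ 2 * 2 ^ k := by linarith
    _ = (1 / 8 : ℝ) * (1 / 2) ^ k * 2 ^ (2 * k + 4) := h4.symm
    _ ≤ _ := by gcongr

/-- the rank one pieces -/
noncomputable def Kp (k : ℕ) : X →L[ℂ] X := (z (sp k)).smulRight (E k)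

lemma norm_Kp (k : ℕ) : ‖Kp k‖ ≤ (1 / 8) * (1 / 2) ^ k := by
  refine ContinuousLinearMap.opNorm_le_bound _ (by positivity) fun x => ?_
  unfold Kp
  rw [ContinuousLinearMap.smulRight_apply, norm_smul]
  have h1 := norm_z_sp k x
  have h2 := norm_E k
  have h3 := two_mul_div_H k
  have h4 := H_pos k
  calc ‖z (sp k) x‖ * ‖E k‖ ≤ ‖x‖ / H k * (2 * k) := by gcongr
    _ = (2 * k / H k) * ‖x‖ := by ring
    _ ≤ _ := by gcongr

lemma hasSum_geo : HasSum (fun k : ℕ => (1 / 8 : ℝ) * (1 / 2) ^ k) (1 / 4) := by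
  have := hasSum_geometric_two.mul_left (1 / 8 : ℝ)
  rwa [show (1 / 8 : ℝ) * 2 = 1 / 4 by norm_num] at this

lemma summable_Kp : Summable Kp := Summable.of_norm_bounded hasSum_geo.summable norm_Kp

/-- the perturbation -/
noncomputable def K : X →L[ℂ] X := ∑' k, Kp k

lemma norm_K : ‖K‖ ≤ 1 / 4 := tsum_of_norm_bounded hasSum_geo norm_Kp

lemma hasSum_K (x : X) : HasSum (fun k => z (sp k) x • E k) (K x) := by
  have h := (ContinuousLinearMap.apply ℂ X x).hasSum summable_Kp.hasSum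
  simp only [ContinuousLinearMap.apply_apply] at h
  simp only [Kp, ContinuousLinearMap.smulRight_apply] at h
  exact h

/-- the operator whose orbits are not frequently dense -/
noncomputable irreducible_def S : X →L[ℂ] X := S0 + K

lemma norm_S : ‖S‖ ≤ 3 := by
  rw [S_def]
  have := norm_add_le S0 K
  have h1 : ‖S0‖ ≤ 2 := norm_W _ _ _
  have := norm_K
  linarith

lemma isUnit_S : IsUnit S := by
  have h1 : ‖-(T0 * K)‖ < 1 := by
    rw [norm_neg]
    have h1 : ‖T0‖ ≤ 2 := norm_W _ _ _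
    have h2 := norm_mul_le T0 K
    have h3 := norm_K
    have h4 : ‖T0‖ * ‖K‖ ≤ 2 * (1 / 4) := by gcongr
    linarith
  have h2 : S = S0 * (1 - -(T0 * K)) := by
    rw [S_def, sub_neg_eq_add, mul_add, mul_one, ← mul_assoc, S0_T0, one_mul]
  rw [h2]
  exact IsUnit.mul ⟨⟨S0, T0, S0_T0, T0_S0⟩, rfl⟩ (isUnit_one_sub_of_norm_lt_one h1)

lemma norm_S_pow (t : ℕ) (x : X) : ‖(S ^ t) x‖ ≤ 3 ^ t * ‖x‖ := by
  induction t with
  | zero => simp
  | succ t ih =>
    rw [pow_succ', mul_apply_eq_comp]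
    have h1 := S.le_opNorm ((S ^ t) x)
    have h2 := norm_S
    calc _ ≤ ‖S‖ * ‖(S ^ t) x‖ := h1
      _ ≤ 3 * (3 ^ t * ‖x‖) := by gcongr
      _ = _ := by ring

lemma K_u (k : ℕ) (i : ZMod (D k)) :
    K (u ⟨k, i⟩) = if i = (aa k : ZMod (D k)) then E k else 0 := by
  refine (hasSum_K _).unique ?_
  have h : ∀ j, j ≠ k → z (sp j) (u ⟨k, i⟩) • E j = 0 := by
    intro j hj
    rw [z_u_ne, zero_smul]
    intro h
    exact hj (congrArg Sigma.fst h)
  convert hasSum_single k h using 1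
  split_ifs with h1
  · subst h1
    rw [show u ⟨k, (aa k : ZMod (D k))⟩ = u (sp k) from rfl, z_u_self, one_smul]
  · rw [z_u_ne, zero_smul]
    intro h2
    unfold sp at h2
    simp only [Sigma.mk.injEq, heq_eq_eq, true_and] at h2
    exact h1 h2.symm

lemma S_u (k : ℕ) (i : ZMod (D k)) :
    S (u ⟨k, i⟩) = ζ k • u ⟨k, i - 1⟩ + if i = (aa k : ZMod (D k)) then E k else 0 := by
  rw [S_def, add_apply, S0_u, K_u]

lemma S_F {b : ℕ} {v : X} (hv : v ∈ F b) : S v ∈ F b := by
  refine F_induction (P := fun v => S v ∈ F b) (by simp) ?_ ?_ ?_ hv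
  · rintro ⟨k, i⟩ hk
    rw [S_u]
    refine add_mem (Submodule.smul_mem _ _ (u_mem_F _ _ hk)) ?_
    split_ifs
    · exact F_mono (le_of_lt hk) (E_mem k)
    · exact zero_mem _
  · intro x y hx hy; rw [map_add]; exact add_mem hx hy
  · intro c x hx; rw [map_smul]; exact Submodule.smul_mem _ _ hx

lemma S_pow_F {b : ℕ} {v : X} (hv : v ∈ F b) (t : ℕ) : (S ^ t) v ∈ F b := by
  induction t with
  | zero => simpa using hv
  | succ t ih => rw [pow_succ', mul_apply_eq_comp]; exact S_F ih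

lemma orbit_u (k : ℕ) (i : ZMod (D k)) (t : ℕ) (ht : t ≤ D k) :
    ∃ (c : ℂ) (m : ℕ), ‖c‖ ≤ 1 ∧ (t ≤ (i - (aa k : ZMod (D k))).val → c = 0) ∧
      (S ^ t) (u ⟨k, i⟩) = ζ k ^ t • u ⟨k, i - (t : ZMod (D k))⟩ + c • (S ^ m) (E k) := by
  induction t with
  | zero => exact ⟨0, 0, by simp, fun _ => rfl, by simp⟩
  | succ t ih =>
    obtain ⟨c, m, hc, hc0, h⟩ := ih (by omega)
    have e : i - ((t + 1 : ℕ) : ZMod (D k)) = i - (t : ZMod (D k)) - 1 := by push_cast; ring
    rw [pow_succ', mul_apply_eq_comp, h, map_add, map_smul, S_u, e]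
    split_ifs with h1
    · have h2 : (i - (aa k : ZMod (D k))).val = t := by
        rw [← h1, sub_sub_cancel, ZMod.val_natCast_of_lt (by omega)]
      rw [hc0 h2.ge]
      refine ⟨ζ k ^ t, 0, by rw [norm_pow, norm_ζ]; simp, fun h => by omega, ?_⟩
      simp only [smul_add, smul_smul, zero_smul, map_zero, add_zero, pow_zero,
        one_apply_eq_self, pow_succ]
    · refine ⟨c, m + 1, hc, fun h => hc0 (by omega), ?_⟩
      rw [add_zero, smul_smul, ← pow_succ, map_smul, pow_succ' S m,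
        mul_apply_eq_comp]

lemma per_mul {n : ℕ} {v : X} (h : (S ^ n) v = v) (m : ℕ) : (S ^ (n * m)) v = v := by
  induction m with
  | zero => simp
  | succ m ih => rw [Nat.mul_succ, pow_add, mul_apply_eq_comp, h, ih]

lemma per_mod {n : ℕ} {v : X} (h : (S ^ n) v = v) (t : ℕ) : (S ^ t) v = (S ^ (t % n)) v := by
  conv_lhs => rw [← Nat.mod_add_div t n, pow_add, mul_apply_eq_comp, per_mul h]

lemma per_step (k : ℕ) (hk : ∀ v ∈ F k, (S ^ D k) v = v) :
    ∀ v ∈ F (k + 1), (S ^ (D k + D k)) v = v := by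
  intro v hv
  have h1 : (S ^ D k) v + v ∈ F k := by
    refine F_induction (P := fun v => (S ^ D k) v + v ∈ F k) (by simp) ?_ ?_ ?_ hv
    · rintro ⟨j, i⟩ hj
      rcases Nat.lt_or_ge j k with h | h
      · exact add_mem (S_pow_F (u_mem_F _ _ h) _) (u_mem_F _ _ h)
      · have : j = k := by simp only at hj; omega
        subst this
        obtain ⟨c, m, -, -, h⟩ := orbit_u j i (D j) le_rfl
        rw [h, ζ_pow, ZMod.natCast_self, sub_zero, neg_one_smul, add_right_comm,
          neg_add_cancel, zero_add]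
        exact Submodule.smul_mem _ _ (S_pow_F (E_mem j) m)
    · intro x y hx hy
      rw [map_add, add_add_add_comm]; exact add_mem hx hy
    · intro c x hx
      rw [map_smul, ← smul_add]; exact Submodule.smul_mem _ _ hx
  have h2 := hk _ h1
  rw [map_add, add_comm ((S ^ D k) v) v] at h2
  rw [pow_add, mul_apply_eq_comp]
  exact add_right_cancel h2

lemma per (k : ℕ) : ∀ v ∈ F k, (S ^ D k) v = v := by
  induction k with
  | zero =>
    intro v hv
    have : v = 0 := by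
      refine ext_z _ _ fun p => ?_
      rw [z_F hv p (Nat.zero_le _), map_zero]
    rw [this, map_zero]
  | succ k ih =>
    intro v hv
    have := per_mul (per_step k ih v hv) 4
    rwa [show (D k + D k) * 4 = D (k + 1) by rw [D_succ]; ring] at this

lemma D_dvd_nn (b k : ℕ) (h : D b ≤ k) : D b ∣ nn k := by
  have h1 : D b < nn k := lt_of_le_of_lt h (lt_nn k)
  rw [D_def, nn_def] at *
  exact pow_dvd_pow 2 ((Nat.pow_lt_pow_iff_right (by norm_num)).1 h1).le

lemma y_per (k j : ℕ) (h : k ≤ j) : (S ^ nn j) (y k) = y k := by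
  rcases y_spec k with h0 | ⟨b, hb, h1⟩
  · rw [h0, map_zero]
  · have := D_lt_of b k _ (norm_nonneg _) h1
    obtain ⟨m, hm⟩ := D_dvd_nn b j (by omega)
    rw [hm]
    exact per_mul (per b _ hb) m

lemma norm_orbit_y (k t : ℕ) : ‖(S ^ t) (y k)‖ ≤ k := by
  rcases y_spec k with h0 | ⟨b, hb, h1⟩
  · rw [h0, map_zero]; simp
  · rw [per_mod (per b _ hb) t]
    refine (norm_S_pow _ _).trans (le_trans ?_ h1)
    have : t % D b ≤ D b := (Nat.mod_lt _ (D_pos b)).le
    gcongr
    · norm_num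
    · linarith

end Pool.Agent.H740Z.Inv
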