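import Pool.Agent.H740Z.InvB

set_option autoImplicit false

open Filter Topology

namespace Pool.Agent.H740Z.Inv

/-- the operator `S` as an equivalence -/
noncomputable irreducible_def Se : X ≃L[ℂ] X := ContinuousLinearEquiv.ofUnit isUnit_S.unit

lemma Se_apply (x : X) : Se x = S x := by rw [Se_def]; rfl

lemma Se_iter (t : ℕ) (x : X) : (⇑Se)^[t] x = (S ^ t) x := by
  induction t with
  | zero => simp
  | succ t ih => rw [Function.iterate_succ_apply', ih, Se_apply, pow_succ', mul_apply_eq_comp]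

lemma T_S (x : X) : Se.symm (S x) = x := by rw [← Se_apply, Se.symm_apply_apply]

lemma S_T (x : X) : S (Se.symm x) = x := by rw [← Se_apply, Se.apply_symm_apply]

lemma T_iter_S (t : ℕ) (x : X) : (⇑Se.symm)^[t] ((S ^ t) x) = x := by
  induction t with
  | zero => simp
  | succ t ih => rw [Function.iterate_succ_apply, pow_succ', mul_apply_eq_comp, T_S, ih]

lemma T_fix {t : ℕ} {x : X} (h : (S ^ t) x = x) : (⇑Se.symm)^[t] x = x := by
  conv_lhs => rw [← h]
  exact T_iter_S t x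

lemma S_g (k t : ℕ) : S (g k (t + 1)) = g k t +
    if ((t + 1 + rr k : ℕ) : ZMod (D k)) = (aa k : ZMod (D k))
      then (ζ k)⁻¹ ^ (t + 1) • E k else 0 := by
  unfold g
  rw [map_smul, S_u, smul_add, smul_smul]
  have e : ((t + 1 + rr k : ℕ) : ZMod (D k)) - 1 = ((t + rr k : ℕ) : ZMod (D k)) := by
    push_cast; ring
  have e2 : (ζ k)⁻¹ ^ (t + 1) * ζ k = (ζ k)⁻¹ ^ t := by
    rw [pow_succ, mul_assoc, inv_mul_cancel₀ (ζ_ne k), mul_one]
  rw [e, e2]
  split_ifs <;> simp

lemma S_g_ne (k t : ℕ) (h : t ≠ nn k) (h2 : t ≤ nn (k + 1)) : S (g k (t + 1)) = g k t := by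
  rw [S_g, if_neg, add_zero]
  intro h3
  have h4 := bb_lt_D k
  have h5 := (aa_lt_be k).trans (be_lt_bb k)
  have h6 : t + 1 + rr k < D k := by unfold bb rr at h4; unfold rr; omega
  have := congrArg ZMod.val h3
  rw [ZMod.val_natCast_of_lt h6, ZMod.val_natCast_of_lt (by omega)] at this
  unfold aa at this
  omega

lemma S_g_eq (k : ℕ) : S (g (k + 1) (nn (k + 1) + 1)) =
    g (k + 1) (nn (k + 1)) + (y k - y (k + 1) + g k (nn (k + 1))) := by
  rw [S_g, if_pos (by rfl)]
  simp only [E]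
  rw [smul_smul, ← mul_pow, inv_mul_cancel₀ (ζ_ne _), one_pow, one_smul]

lemma summable_g (k t : ℕ) : Summable fun j => g (j + k) t := by
  refine Summable.of_norm_bounded (summable_geometric_two.mul_left (2 ^ t)) fun j => ?_
  rw [norm_g]
  refine (s_grow _ _).trans ?_
  gcongr 2 ^ t * ?_
  exact pow_le_pow_of_le_one (by norm_num) (by norm_num) (by omega)

/-- the bumps in all blocks from `k` on -/
noncomputable def tail (k t : ℕ) : X := ∑' j, g (j + k) t

lemma tail_succ (k t : ℕ) : tail k t = g k t + tail (k + 1) t := by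
  unfold tail
  rw [(summable_g k t).tsum_eq_zero_add, zero_add]
  congr 2
  funext j
  rw [add_right_comm, add_assoc]

lemma S_tail (k t : ℕ) (h : t < nn k) : S (tail k (t + 1)) = tail k t := by
  unfold tail
  rw [S.map_tsum (summable_g k _)]
  congr 1
  funext j
  have h1 : nn k ≤ nn (j + k) := nn_mono (by omega)
  have h2 : nn k ≤ nn (j + k + 1) := nn_mono (by omega)
  exact S_g_ne _ _ (by omega) (by omega)

/-- the shape of the orbit during stage `k` -/
noncomputable def Wk (k t : ℕ) : X := (⇑Se.symm)^[t] (y k) + tail k t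

lemma W_step (k t : ℕ) (h1 : nn k < t) (h2 : t < nn (k + 1)) : S (Wk k (t + 1)) = Wk k t := by
  unfold Wk
  rw [map_add, Function.iterate_succ_apply', S_T, tail_succ, map_add, S_tail _ _ h2,
    S_g_ne _ _ (by omega) h2.le, ← tail_succ]

lemma W_switch (k : ℕ) : S (Wk (k + 1) (nn (k + 1) + 1)) = Wk k (nn (k + 1)) := by
  unfold Wk
  have h : nn (k + 1) < nn (k + 1 + 1) := by
    rw [nn_succ (k + 1)]; have := nn_pos (k + 1); omega
  rw [map_add, Function.iterate_succ_apply', S_T, tail_succ, map_add, S_tail _ _ h, S_g_eq,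
    T_fix (y_per (k + 1) (k + 1) le_rfl), T_fix (y_per k (k + 1) (Nat.le_succ k)),
    tail_succ k, tail_succ (k + 1)]
  abel

/-- the frequently hypercyclic vector -/
noncomputable def x0 : X := (S ^ (nn 0 + 1)) (Wk 0 (nn 0 + 1))

lemma orbit_x0 (t : ℕ) : ∀ k, nn k < t → t ≤ nn (k + 1) → (⇑Se.symm)^[t] x0 = Wk k t := by
  induction t with
  | zero => intro k h; omega
  | succ t ih =>
    intro k h1 h2
    rcases Nat.lt_or_ge (nn k) t with h | h
    · rw [Function.iterate_succ_apply', ih k h (by omega), ← W_step k t h (by omega), T_S]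
    · have e : t = nn k := by omega
      cases k with
      | zero => rw [e]; exact T_iter_S _ _
      | succ k =>
        have h3 : nn k < nn (k + 1) := by rw [nn_succ]; have := nn_pos k; omega
        rw [Function.iterate_succ_apply', ih k (by omega) e.le, e, ← W_switch, T_S]

lemma rr_lt4 (k : ℕ) : 4 * rr k ≤ nn k := by
  induction k with
  | zero => rw [nn_def]; decide
  | succ k ih => rw [nn_succ]; unfold rr at *; omega

lemma norm_tail (k t : ℕ) (h1 : 2 * nn k ≤ t) (h2 : t ≤ 3 * nn k) :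
    ‖tail k t‖ ≤ (1 / 2) ^ k := by
  have hs : HasSum (fun j : ℕ => (1 / 2 : ℝ) ^ (k + 1) * (1 / 2) ^ j) ((1 / 2) ^ k) := by
    have := hasSum_geometric_two.mul_left ((1 / 2 : ℝ) ^ (k + 1))
    rwa [show (1 / 2 : ℝ) ^ (k + 1) * 2 = (1 / 2) ^ k by ring] at this
  refine tsum_of_norm_bounded hs fun j => ?_
  have h3 := rr_lt k
  have h4 : nn (k + 1) ≤ nn (j + k + 1) := nn_mono (by omega)
  have h5 := nn_succ k
  rw [norm_g, s_low _ _ _ (by omega), ← pow_add]
  · exact le_of_eq (by congr 1; omega)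
  · cases j with
    | zero => right; rw [zero_add]; omega
    | succ j =>
      left
      have h6 : nn (k + 1) ≤ nn (j + 1 + k) := nn_mono (by omega)
      have h7 := rr_lt4 (j + 1 + k)
      omega

lemma approx (k t : ℕ) (h1 : 2 * nn k ≤ t) (h2 : t ≤ 3 * nn k) (h3 : (S ^ t) (y k) = y k) :
    ‖(⇑Se.symm)^[t] x0 - y k‖ ≤ (1 / 2) ^ k := by
  have := nn_pos k
  rw [orbit_x0 t k (by omega) (by rw [nn_succ]; omega)]
  unfold Wk
  rw [T_fix h3, add_sub_cancel_left]
  exact norm_tail k t h1 h2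

lemma exists_window (f : ℕ → ℕ) (hf : ∀ m, f m < f (m + 1)) (m0 N : ℕ) (h : f m0 ≤ N) :
    ∃ m, m0 ≤ m ∧ f m ≤ N ∧ N < f (m + 1) := by
  induction N, h using Nat.le_induction with
  | base => exact ⟨m0, le_rfl, le_rfl, hf m0⟩
  | succ N _ ih =>
    obtain ⟨m, h1, h2, h3⟩ := ih
    rcases Nat.lt_or_ge (N + 1) (f (m + 1)) with h | h
    · exact ⟨m, h1, by omega, h⟩
    · exact ⟨m + 1, by omega, h, by have := hf (m + 1); omega⟩

/-- the stages at which the `p`-th target is scheduled -/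
def kk (p m : ℕ) : ℕ := 2 ^ p * (2 * m + 1) - 1

lemma kk_succ_eq (p m : ℕ) : kk p m + 1 = 2 ^ p * (2 * m + 1) := by
  unfold kk
  have : 0 < 2 ^ p * (2 * m + 1) := by positivity
  omega

lemma le_kk (p m : ℕ) : m ≤ kk p m := by
  have h := kk_succ_eq p m
  have : 1 * (2 * m + 1) ≤ 2 ^ p * (2 * m + 1) := Nat.mul_le_mul_right _ Nat.one_le_two_pow
  omega

lemma kk_step (p m : ℕ) : kk p (m + 1) = kk p m + 2 ^ (p + 1) := by
  have h1 := kk_succ_eq p m
  have h2 := kk_succ_eq p (m + 1)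
  have : 2 ^ p * (2 * (m + 1) + 1) = 2 ^ p * (2 * m + 1) + 2 ^ (p + 1) := by ring
  omega

lemma val_kk (p m : ℕ) : padicValNat 2 (kk p m + 1) = p := by
  rw [kk_succ_eq, padicValNat.mul (by positivity) (by omega), padicValNat.prime_pow,
    padicValNat.eq_zero_of_not_dvd (by omega), add_zero]

lemma nn_add (k d : ℕ) : nn (k + d) = 4 ^ d * nn k := by
  induction d with
  | zero => simp
  | succ d ih => rw [← add_assoc, nn_succ, ih]; ring

lemma finite_sub (N : ℕ) (Q : ℕ → Prop) : Finite {n : ℕ // n < N ∧ Q n} :=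
  Finite.of_injective (fun a => (⟨a.1, a.2.1⟩ : Fin N))
    fun _ _ h => Subtype.ext (congrArg Fin.val h)

theorem fhc (U : Set X) (hU : IsOpen U) (hne : U.Nonempty) :
    ∃ c : ℝ, 0 < c ∧ ∃ N₀ : ℕ, ∀ N : ℕ, N₀ ≤ N →
      c * (N : ℝ) ≤ (Nat.card {n : ℕ // n < N ∧ (⇑Se.symm)^[n] x0 ∈ U} : ℝ) := by
  obtain ⟨v, hv⟩ := hne
  obtain ⟨ε, hε, hball⟩ := Metric.isOpen_iff.1 hU v hv
  obtain ⟨p, hp⟩ := tgt_dense v (ε / 2) (by linarith)
  obtain ⟨k1, hk1⟩ := exists_pow_lt_of_lt_one (show 0 < ε / 2 by linarith)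
    (show (1 / 2 : ℝ) < 1 by norm_num)
  obtain ⟨k2, hk2⟩ := exists_nat_ge ((3 : ℝ) ^ D (blk p) * (‖tgt p‖ + 1))
  set C : ℕ := 4 ^ 2 ^ (p + 1) with hC
  have hCpos : 1 < C := by rw [hC]; exact Nat.one_lt_pow (by positivity) (by norm_num)
  set δ : ℕ := D (blk p) with hδ
  have hδpos : 0 < δ := D_pos _
  have hstep : ∀ m, 3 * nn (kk p (m + 1)) = C * (3 * nn (kk p m)) := by
    intro m; rw [kk_step, nn_add]; ring
  refine ⟨1 / (3 * C * δ), by positivity, 3 * nn (kk p (k1 + k2)), fun N hN => ?_⟩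
  obtain ⟨m, hm, hm1, hm2⟩ := exists_window (fun m => 3 * nn (kk p m)) (fun m => by
    simp only [hstep]
    have := nn_pos (kk p m)
    nlinarith) (k1 + k2) N hN
  simp only [hstep] at hm1 hm2
  set k := kk p m with hk
  have hmk : m ≤ k := le_kk p m
  have hok : ok p k := by
    unfold ok
    refine hk2.trans ?_
    exact_mod_cast (by omega : k2 ≤ k)
  have hy : y k = tgt p := by
    unfold y
    rw [hk, val_kk, if_pos hok]
  have hδk : δ < k := D_lt_of _ _ _ (norm_nonneg _) hok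
  obtain ⟨q, hq⟩ := D_dvd_nn (blk p) k hδk.le
  rw [← hδ] at hq
  have hmem : ∀ j, j < q → 2 * nn k + δ * j < N ∧ (⇑Se.symm)^[2 * nn k + δ * j] x0 ∈ U := by
    intro j hj
    have h1 : δ * j < nn k := by rw [hq]; exact Nat.mul_lt_mul_of_pos_left hj hδpos
    refine ⟨by omega, hball ?_⟩
    have h2 : (S ^ (2 * nn k + δ * j)) (y k) = y k := by
      rw [show 2 * nn k + δ * j = δ * (2 * q + j) by rw [hq]; ring, hy]
      exact per_mul (per _ _ (tgt_mem p)) _
    have h3 := approx k _ (by omega) (by omega) h2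
    rw [hy] at h3
    have h4 : (1 / 2 : ℝ) ^ k ≤ (1 / 2) ^ k1 :=
      pow_le_pow_of_le_one (by norm_num) (by norm_num) (by omega)
    rw [Metric.mem_ball, dist_eq_norm]
    have h5 := norm_sub_le_norm_sub_add_norm_sub ((⇑Se.symm)^[2 * nn k + δ * j] x0) (tgt p) v
    linarith
  have := finite_sub N (fun n => (⇑Se.symm)^[n] x0 ∈ U)
  have hcard := Nat.card_le_card_of_injective
    (fun j : Fin q => (⟨2 * nn k + δ * j.1, hmem j.1 j.2⟩ :
      {n : ℕ // n < N ∧ (⇑Se.symm)^[n] x0 ∈ U})) (fun a b h => by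
      have h1 := congrArg Subtype.val h
      simp only at h1
      exact Fin.ext (Nat.eq_of_mul_eq_mul_left hδpos (by omega)))
  rw [Nat.card_eq_fintype_card, Fintype.card_fin] at hcard
  refine le_trans ?_ (Nat.cast_le.2 hcard)
  have h6 : N ≤ 3 * C * δ * q := by
    rw [hq] at hm2
    calc N ≤ C * (3 * (δ * q)) := hm2.le
      _ = _ := by ring
  have h7 : (N : ℝ) ≤ 3 * C * δ * q := by exact_mod_cast h6
  rw [one_div, inv_mul_le_iff₀ (by positivity)]
  exact h7

end Pool.Agent.H740Z.Inv
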