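import Pool.Agent.H740Z.InvC

set_option autoImplicit false

open Filter Topology

namespace Pool.Agent.H740Z.Inv

/-- the first coordinate -/
noncomputable def φ : X →L[ℂ] ℂ := z ⟨0, 0⟩

lemma norm_φ (v : X) : ‖φ v‖ ≤ ‖v‖ := by
  have h := norm_z_le ⟨0, 0⟩ v
  rw [s_zero] at h
  refine h.trans (div_le_self (norm_nonneg _) ?_)
  unfold H
  exact one_le_pow₀ (by norm_num)

lemma gam_step (k : ℕ) (B : ℝ) (hB : ∀ t, ‖φ ((S ^ t) (E k))‖ ≤ B) (i : ZMod (D k)) (t : ℕ) :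
    ‖φ ((S ^ t) (u ⟨k, i⟩))‖ ≤ 1 + 2 * B := by
  have hB0 : 0 ≤ B := (norm_nonneg _).trans (hB 0)
  rw [per_mod (per_step k (per k) _ (u_mem_F _ _ (Nat.lt_succ_self k))) t]
  have h1 : t % (D k + D k) < D k + D k := Nat.mod_lt _ (by have := D_pos k; omega)
  obtain ⟨t1, t2, h2, h3, h4⟩ : ∃ t1 t2, t1 ≤ D k ∧ t2 ≤ D k ∧ t % (D k + D k) = t1 + t2 :=
    ⟨min (D k) (t % (D k + D k)), t % (D k + D k) - D k, by omega, by omega, by omega⟩
  obtain ⟨c, m, hc, -, h5⟩ := orbit_u k i t2 h3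
  obtain ⟨c', m', hc', -, h6⟩ := orbit_u k (i - (t2 : ZMod (D k))) t1 h2
  rw [h4, pow_add, mul_apply_eq_comp, h5, map_add, map_smul, map_smul, h6,
    ← mul_apply_eq_comp (S ^ t1) (S ^ m), ← pow_add]
  simp only [map_add, map_smul, smul_eq_mul]
  have e1 : ‖φ (u ⟨k, i - (t2 : ZMod (D k)) - (t1 : ZMod (D k))⟩)‖ ≤ 1 := norm_z_u _ _
  have e2 := hB m'
  have e3 := hB (t1 + m)
  refine (norm_add_le _ _).trans ?_
  rw [norm_mul, norm_mul, norm_pow, norm_ζ, one_pow, one_mul]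
  have e4 := norm_add_le (ζ k ^ t1 * φ (u ⟨k, i - (t2 : ZMod (D k)) - (t1 : ZMod (D k))⟩))
    (c' * φ ((S ^ m') (E k)))
  rw [norm_mul, norm_mul, norm_pow, norm_ζ, one_pow, one_mul] at e4
  have e5 : ‖c'‖ * ‖φ ((S ^ m') (E k))‖ ≤ 1 * B := by gcongr
  have e6 : ‖c‖ * ‖φ ((S ^ (t1 + m)) (E k))‖ ≤ 1 * B := by gcongr
  linarith

lemma gam (k : ℕ) : ∀ (i : ZMod (D k)) (t : ℕ), ‖φ ((S ^ t) (u ⟨k, i⟩))‖ ≤ 8 ^ k := by
  induction k with
  | zero =>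
    intro i t
    have := gam_step 0 0 (fun t => by simp [E]) i t
    simpa using this
  | succ k ih =>
    intro i t
    refine (gam_step (k + 1) (8 ^ k + 2 * k + 1) (fun t => ?_) i t).trans ?_
    · simp only [E, g, map_smul, map_add, map_sub, smul_eq_mul]
      rw [norm_mul, norm_pow, norm_ζ, one_pow, one_mul]
      have h1 := (norm_φ _).trans (norm_orbit_y k t)
      have h2 := (norm_φ _).trans (norm_orbit_y (k + 1) t)
      refine (norm_add_le _ _).trans ?_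
      rw [norm_mul, norm_pow, norm_inv, norm_ζ, inv_one, one_pow, one_mul]
      have h3 := ih ((nn (k + 1) + rr k : ℕ) : ZMod (D k)) t
      have h4 := norm_sub_le (φ ((S ^ t) (y k))) (φ ((S ^ t) (y (k + 1))))
      rw [Nat.cast_succ] at h2
      linarith
    · have h1 : k < 8 ^ k := Nat.lt_pow_self (by norm_num)
      have h2 : (k : ℝ) + 1 ≤ 8 ^ k := by exact_mod_cast h1
      rw [pow_succ]
      have : (0 : ℝ) ≤ k := Nat.cast_nonneg k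
      linarith

lemma norm_z_le' (p : I) (x : X) : ‖z p x‖ ≤ 2 ^ (p.1 + 1) * ‖x‖ := by
  refine (norm_z_le p x).trans ?_
  rw [div_le_iff₀ (s_pos p)]
  have h := s_ge p
  calc ‖x‖ = 2 ^ (p.1 + 1) * ‖x‖ * (1 / 2) ^ (p.1 + 1) := by
        rw [mul_right_comm, ← mul_pow]; norm_num
    _ ≤ _ := by gcongr

lemma z_y (k : ℕ) (i : ZMod (D k)) (j : ℕ) :
    (3 : ℝ) ^ D k * ‖z ⟨k, i⟩ (y j)‖ ≤ 2 ^ (k + 1) * j := by
  rcases y_spec j with h0 | ⟨b, hb, h1⟩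
  · rw [h0, map_zero, norm_zero, mul_zero]; positivity
  · rcases Nat.lt_or_ge k b with h | h
    · have h2 := norm_z_le' ⟨k, i⟩ (y j)
      have h3 : (3 : ℝ) ^ D k ≤ 3 ^ D b := pow_le_pow_right₀ (by norm_num) (D_mono h.le)
      calc (3 : ℝ) ^ D k * ‖z ⟨k, i⟩ (y j)‖ ≤ 3 ^ D b * (2 ^ (k + 1) * (‖y j‖ + 1)) := by
            gcongr
            exact h2.trans (by gcongr; linarith)
        _ = 2 ^ (k + 1) * (3 ^ D b * (‖y j‖ + 1)) := by ring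
        _ ≤ _ := by gcongr
    · rw [z_F hb ⟨k, i⟩ h, norm_zero, mul_zero]; positivity

lemma far_num (k j : ℕ) (h : k ≤ j) :
    (2 : ℝ) ^ (k + 1) * (2 * j) / H j ≤ (1 / 2) ^ (17 * k) * (1 / 2) ^ j := by
  have h1 : j < 2 ^ j := Nat.lt_two_pow_self
  have h2 : (j : ℝ) ≤ 2 ^ j := by exact_mod_cast h1.le
  rw [div_le_iff₀ (H_pos j)]
  unfold H
  have h3 : (2 : ℝ) ^ (18 * k + 2 * j + 2) ≤ 2 ^ (20 * (j + 1)) :=
    pow_le_pow_right₀ (by norm_num) (by omega)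
  have h4 : (1 / 2 : ℝ) ^ (17 * k) * (1 / 2) ^ j * 2 ^ (18 * k + 2 * j + 2) =
      2 ^ (k + 1) * (2 * 2 ^ j) := by
    rw [one_div_pow, one_div_pow]; field_simp; ring
  calc (2 : ℝ) ^ (k + 1) * (2 * j) ≤ 2 ^ (k + 1) * (2 * 2 ^ j) := by gcongr
    _ = _ := h4.symm
    _ ≤ _ := by gcongr

lemma z_K_term (k : ℕ) (i : ZMod (D k)) (v : X) (R : ℝ) (hR : 0 ≤ R)
    (hv : ‖v‖ ≤ 3 ^ D k * R) (j : ℕ) :
    ‖z (sp j) v * z ⟨k, i⟩ (E j)‖ ≤ R * (1 / 2) ^ (17 * k) * (1 / 2) ^ j +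
      if j = k + 1 then (if i = (be k : ZMod (D k)) then ‖z (sp (k + 1)) v‖ else 0) else 0 := by
  have hn : 0 ≤ if j = k + 1 then
      (if i = (be k : ZMod (D k)) then ‖z (sp (k + 1)) v‖ else 0) else 0 := by
    split_ifs <;> simp
  rcases Nat.lt_or_ge k j with h | h
  swap
  · rw [z_F (E_mem j) ⟨k, i⟩ h, mul_zero, norm_zero]
    positivity
  obtain ⟨j, rfl⟩ : ∃ j', j = j' + 1 := ⟨j - 1, by omega⟩
  simp only [E, map_smul, map_add, map_sub, smul_eq_mul]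
  rw [norm_mul, norm_mul, norm_pow, norm_ζ, one_pow, one_mul]
  have h1 := z_y k i j
  have h2 := z_y k i (j + 1)
  have h3 := norm_z_sp (j + 1) v
  have h4 := far_num k (j + 1) h.le
  have h5 := H_pos (j + 1)
  have h6 : ‖z (sp (j + 1)) v‖ * ‖z ⟨k, i⟩ (y j) - z ⟨k, i⟩ (y (j + 1))‖ ≤
      R * (1 / 2) ^ (17 * k) * (1 / 2) ^ (j + 1) := by
    have h7 := norm_sub_le (z ⟨k, i⟩ (y j)) (z ⟨k, i⟩ (y (j + 1)))
    have h8 : (2 : ℝ) ^ (k + 1) * j ≤ 2 ^ (k + 1) * ((j + 1 : ℕ) : ℝ) := by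
      gcongr; omega
    calc _ ≤ 3 ^ D k * R / H (j + 1) * (‖z ⟨k, i⟩ (y j)‖ + ‖z ⟨k, i⟩ (y (j + 1))‖) := by
          gcongr
          exact h3.trans (by gcongr)
      _ = R / H (j + 1) * (3 ^ D k * ‖z ⟨k, i⟩ (y j)‖ + 3 ^ D k * ‖z ⟨k, i⟩ (y (j + 1))‖) := by
          ring
      _ ≤ R / H (j + 1) * (2 ^ (k + 1) * (2 * ((j + 1 : ℕ) : ℝ))) := by
          gcongr; linarith
      _ = R * (2 ^ (k + 1) * (2 * ((j + 1 : ℕ) : ℝ)) / H (j + 1)) := by ring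
      _ ≤ R * ((1 / 2) ^ (17 * k) * (1 / 2) ^ (j + 1)) := by gcongr
      _ = _ := by ring
  have h9 : ‖z (sp (j + 1)) v‖ * ‖z ⟨k, i⟩ (g j (nn (j + 1)))‖ ≤ if j + 1 = k + 1 then
      (if i = (be k : ZMod (D k)) then ‖z (sp (k + 1)) v‖ else 0) else 0 := by
    unfold g
    rw [map_smul, smul_eq_mul, norm_mul, norm_pow, norm_inv, norm_ζ, inv_one, one_pow, one_mul]
    split_ifs with e1 e2
    · rw [e1]
      exact mul_le_of_le_one_right (norm_nonneg _) (norm_z_u _ _)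
    · have e3 : j = k := by omega
      subst e3
      rw [z_u_ne, norm_zero, mul_zero]
      intro e4
      simp only [Sigma.mk.injEq, heq_eq_eq, true_and] at e4
      exact e2 e4
    · rw [z_u_ne, norm_zero, mul_zero]
      intro e4
      have := congrArg Sigma.fst e4
      simp only at this
      omega
  have h10 := norm_add_le (z ⟨k, i⟩ (y j) - z ⟨k, i⟩ (y (j + 1))) (z ⟨k, i⟩ (g j (nn (j + 1))))
  calc _ ≤ ‖z (sp (j + 1)) v‖ * (‖z ⟨k, i⟩ (y j) - z ⟨k, i⟩ (y (j + 1))‖ +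
        ‖z ⟨k, i⟩ (g j (nn (j + 1)))‖) := by gcongr
    _ ≤ _ := by rw [mul_add]; exact add_le_add h6 h9

lemma z_K (k : ℕ) (i : ZMod (D k)) (v : X) (R : ℝ) (hR : 0 ≤ R) (hv : ‖v‖ ≤ 3 ^ D k * R) :
    ‖z ⟨k, i⟩ (K v)‖ ≤ R * (1 / 2) ^ (17 * k) * 2 +
      if i = (be k : ZMod (D k)) then ‖z (sp (k + 1)) v‖ else 0 := by
  have h := (z ⟨k, i⟩).hasSum (hasSum_K v)
  simp only [map_smul, smul_eq_mul] at h
  exact h.norm_le_of_bounded ((hasSum_geometric_two.mul_left _).add (hasSum_ite_eq (k + 1) _))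
    (z_K_term k i v R hR hv)

/-- the far contribution -/
noncomputable def far (x : X) (k : ℕ) : ℝ := ‖x‖ * (1 / 2) ^ (17 * k) * 2

lemma far_nonneg (x : X) (k : ℕ) : 0 ≤ far x k := by unfold far; positivity

lemma one_step (x : X) (k : ℕ) (i : ZMod (D k)) (t : ℕ) (ht : t ≤ D k) :
    ‖z ⟨k, i⟩ ((S ^ t) x)‖ ≤ ‖z ⟨k, i - 1⟩ ((S ^ (t + 1)) x)‖ + (far x k +
      if i - 1 = (be k : ZMod (D k)) then ‖z (sp (k + 1)) ((S ^ t) x)‖ else 0) := by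
  have h1 : ‖(S ^ t) x‖ ≤ 3 ^ D k * ‖x‖ := (norm_S_pow t x).trans (by gcongr; norm_num)
  have h2 := z_K k (i - 1) _ _ (norm_nonneg _) h1
  have h3 : z ⟨k, i - 1⟩ ((S ^ (t + 1)) x) =
      ζ k * z ⟨k, i⟩ ((S ^ t) x) + z ⟨k, i - 1⟩ (K ((S ^ t) x)) := by
    rw [pow_succ', mul_apply_eq_comp]
    generalize (S ^ t) x = v
    rw [S_def, add_apply, map_add, z_S0, σ_apply, sub_add_cancel]
  have h4 : ‖ζ k * z ⟨k, i⟩ ((S ^ t) x)‖ = ‖z ⟨k, i⟩ ((S ^ t) x)‖ := by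
    rw [norm_mul, norm_ζ, one_mul]
  have h5 := norm_sub_le (z ⟨k, i - 1⟩ ((S ^ (t + 1)) x)) (z ⟨k, i - 1⟩ (K ((S ^ t) x)))
  rw [h3, add_sub_cancel_right, h4, ← h3] at h5
  unfold far
  linarith

lemma path (x : X) (k : ℕ) (i : ZMod (D k)) (t0 : ℕ) (A : ℝ) (hA : 0 ≤ A) (m : ℕ)
    (hm : t0 + m ≤ D k)
    (h : ∀ l < m, i - ((l + 1 : ℕ) : ZMod (D k)) = (be k : ZMod (D k)) →
      ‖z (sp (k + 1)) ((S ^ (t0 + l)) x)‖ ≤ A) :
    ‖z ⟨k, i⟩ ((S ^ t0) x)‖ ≤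
      ‖z ⟨k, i - (m : ZMod (D k))⟩ ((S ^ (t0 + m)) x)‖ + m * (far x k + A) := by
  induction m with
  | zero => simp
  | succ m ih =>
    have h1 := ih (by omega) (fun l hl => h l (by omega))
    have h2 := one_step x k (i - (m : ZMod (D k))) (t0 + m) (by omega)
    have e : i - (m : ZMod (D k)) - 1 = i - ((m + 1 : ℕ) : ZMod (D k)) := by push_cast; ring
    rw [e] at h2
    have h3 : (if i - ((m + 1 : ℕ) : ZMod (D k)) = (be k : ZMod (D k)) then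
        ‖z (sp (k + 1)) ((S ^ (t0 + m)) x)‖ else 0) ≤ A := by
      split_ifs with h4
      · exact h m (Nat.lt_succ_self m) h4
      · exact hA
    rw [← add_assoc t0 m 1, Nat.cast_succ (R := ℝ)]
    linarith

lemma high_end (k : ℕ) (i : ZMod (D k)) (m c : ℕ) (h1 : bb k ≤ c) (h2 : c < D k)
    (h3 : ((c + m : ℕ) : ZMod (D k)) = i) (v : X) (hv : ‖v‖ < 1) :
    ‖z ⟨k, i - (m : ZMod (D k))⟩ v‖ ≤ 1 / H k := by
  have e : i - (m : ZMod (D k)) = (c : ZMod (D k)) := by rw [← h3]; push_cast; ring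
  have h := norm_z_le ⟨k, (c : ZMod (D k))⟩ v
  rw [s_high k c h1 h2] at h
  rw [e]
  exact h.trans (div_le_div_of_nonneg_right hv.le (H_pos k).le)

section small
variable (x : X) (Q N0 : ℕ)
  (hs : ∀ A, N0 ≤ A → ∃ t, A ≤ t ∧ t < Q * A ∧ ‖(S ^ t) x‖ < 1)

include hs in
lemma stepA (k : ℕ) (hk : N0 ≤ k) (hL : Q * (Q * (Q + 1) + 1) + 1 ≤ k) (τ : ℕ)
    (hτ : τ ≤ Q * (Q + 1) * bb k) : ‖z (sp k) ((S ^ τ) x)‖ ≤ 1 / H k + D k * far x k := by
  have h1 := aa_lt_be k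
  have h2 := be_lt_bb k
  have h3 := le_bb k
  have h4 := mul_bb_le k _ hL
  have h5 : aa k = nn k + 1 + rr k := rfl
  have h6 := lt_nn k
  obtain ⟨t, ht1, ht2, ht3⟩ := hs (Q * (Q + 1) * bb k + aa k + 1) (by omega)
  have h7 : Q * (Q * (Q + 1) * bb k + aa k + 1) ≤ Q * (Q * (Q + 1) * bb k + bb k) :=
    Nat.mul_le_mul_left _ (by omega)
  have h8 : (Q * (Q * (Q + 1) + 1) + 1) * bb k = Q * (Q * (Q + 1) * bb k + bb k) + bb k := by
    ring
  obtain ⟨m, rfl⟩ : ∃ m, t = τ + m := ⟨t - τ, by omega⟩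
  have h9 := path x k (aa k : ZMod (D k)) τ 0 le_rfl m (by omega) (fun l hl h => by
    exfalso
    have e : (aa k : ZMod (D k)) = ((be k + (l + 1) : ℕ) : ZMod (D k)) := by
      rw [Nat.cast_add, ← h, sub_add_cancel]
    have := congrArg ZMod.val e
    rw [ZMod.val_natCast_of_lt (by omega), ZMod.val_natCast_of_lt (by omega)] at this
    omega)
  have h10 := high_end k (aa k : ZMod (D k)) m (aa k + D k - m) (by omega) (by omega) (by
    rw [show aa k + D k - m + m = aa k + D k by omega]; simp) _ ht3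
  have h11 : (m : ℝ) ≤ D k := by exact_mod_cast (by omega : m ≤ D k)
  have h12 := far_nonneg x k
  have h13 : (m : ℝ) * (far x k + 0) ≤ D k * far x k := by rw [add_zero]; gcongr
  unfold sp
  linarith

include hs in
lemma stepB (k : ℕ) (hk : N0 ≤ k) (hL : Q * (Q * (Q + 1) + 1) + 1 ≤ k) (i : ZMod (D k)) :
    ‖z ⟨k, i⟩ x‖ ≤ 1 / H k + D k * (far x k + (1 / H (k + 1) + D (k + 1) * far x (k + 1))) := by
  have h3 := le_bb k
  have h4 := mul_bb_le k _ hL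
  have h5 := ZMod.val_lt i
  have h8 : (Q * (Q * (Q + 1) + 1) + 1) * bb k =
      Q * (Q * (Q + 1) * bb k) + Q * bb k + bb k := by ring
  have hQ : 1 ≤ Q := by
    obtain ⟨t, h1, h2, -⟩ := hs N0 le_rfl
    rcases Nat.eq_zero_or_pos Q with h | h
    · rw [h] at h2; omega
    · exact h
  have h9 : 1 * (Q * (Q + 1) * bb k) ≤ Q * (Q * (Q + 1) * bb k) := Nat.mul_le_mul_right _ hQ
  have h10 : Q * (Q + 1) * bb k = Q * (Q * bb k) + Q * bb k := by ring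
  have h11 : Q * ((Q + 1) * bb k) = Q * (Q + 1) * bb k := by ring
  have h12 : (Q + 1) * bb k = Q * bb k + bb k := by ring
  obtain ⟨m, c, hm, hc1, hc2, hc3, hsm⟩ : ∃ m c, m ≤ Q * (Q + 1) * bb k ∧ bb k ≤ c ∧ c < D k ∧
      ((c + m : ℕ) : ZMod (D k)) = i ∧ ‖(S ^ m) x‖ < 1 := by
    rcases Nat.lt_or_ge i.val ((Q + 1) * bb k) with h | h
    · obtain ⟨t, ht1, ht2, ht3⟩ := hs ((Q + 1) * bb k) (by omega)
      refine ⟨t, i.val + D k - t, by omega, by omega, by omega, ?_, ht3⟩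
      rw [show i.val + D k - t + t = i.val + D k by omega]; simp
    · obtain ⟨t, ht1, ht2, ht3⟩ := hs (bb k) (by omega)
      refine ⟨t, i.val - t, by omega, by omega, by omega, ?_, ht3⟩
      rw [show i.val - t + t = i.val by omega]; simp
  have hH := H_pos (k + 1)
  have hf := far_nonneg x (k + 1)
  have hf' := far_nonneg x k
  have h13 : Q * (Q + 1) * bb k ≤ Q * (Q + 1) * bb (k + 1) := Nat.mul_le_mul_left _ (bb_mono k)
  have h14 := path x k i 0 (1 / H (k + 1) + D (k + 1) * far x (k + 1)) (by positivity) m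
    (by omega) (fun l hl _ => stepA x Q N0 hs (k + 1) (by omega) (by omega) _ (by omega))
  rw [zero_add, pow_zero, one_apply_eq_self] at h14
  have h15 := high_end k i m c hc1 hc2 hc3 _ hsm
  have h16 : (m : ℝ) ≤ D k := by exact_mod_cast (by omega : m ≤ D k)
  have h17 : (m : ℝ) * (far x k + (1 / H (k + 1) + D (k + 1) * far x (k + 1))) ≤
      D k * (far x k + (1 / H (k + 1) + D (k + 1) * far x (k + 1))) := by gcongr
  linarith

lemma numer (w R : ℝ) (hw : 1 ≤ w) (hR : 0 ≤ R) :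
    4096 * w ^ 3 * ((1 / w ^ 20 + 4096 * w ^ 3 * (R / w ^ 17 * 2 +
      (1 / w ^ 20 + 8 * (4096 * w ^ 3) * (R / w ^ 17 * 2)))) * w ^ 3) ≤
      (4096 + 4096 ^ 2 * (2 * R) + 4096 ^ 2 + 16 * 4096 ^ 3 * R) * (1 / w) := by
  have hw0 : 0 < w := by linarith
  have e : 4096 * w ^ 3 * ((1 / w ^ 20 + 4096 * w ^ 3 * (R / w ^ 17 * 2 +
      (1 / w ^ 20 + 8 * (4096 * w ^ 3) * (R / w ^ 17 * 2)))) * w ^ 3) =
      4096 * (1 / w ^ 14) + 4096 ^ 2 * (2 * R) * (1 / w ^ 8) + 4096 ^ 2 * (1 / w ^ 11) +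
        16 * 4096 ^ 3 * R * (1 / w ^ 5) := by
    field_simp; ring
  rw [e, add_mul, add_mul, add_mul]
  gcongr <;> exact le_self_pow₀ hw (by norm_num)

include hs in
lemma block_bound (k : ℕ) (hk : N0 ≤ k) (hL : Q * (Q * (Q + 1) + 1) + 1 ≤ k) :
    ∑ i : ZMod (D k), ‖z ⟨k, i⟩ x‖ * 8 ^ k ≤
      (4096 + 4096 ^ 2 * (2 * ‖x‖) + 4096 ^ 2 + 16 * 4096 ^ 3 * ‖x‖) * (1 / 2) ^ k := by
  have hw : (1 : ℝ) ≤ 2 ^ k := one_le_pow₀ (by norm_num)
  have hD : (D k : ℝ) = 4096 * (2 ^ k) ^ 3 := by rw [D_def]; push_cast; ring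
  have hD' : (D (k + 1) : ℝ) = 8 * (4096 * (2 ^ k) ^ 3) := by rw [D_succ, ← hD]; push_cast; ring
  have h8 : (8 : ℝ) ^ k = (2 ^ k) ^ 3 := by
    rw [← pow_mul, mul_comm, pow_mul]; norm_num
  have hH : ∀ j, k ≤ j → 1 / H j ≤ 1 / ((2 : ℝ) ^ k) ^ 20 := by
    intro j hj
    refine one_div_le_one_div_of_le (by positivity) ?_
    unfold H
    rw [← pow_mul]
    exact pow_le_pow_right₀ (by norm_num) (by omega)
  have hf : ∀ j, k ≤ j → far x j ≤ ‖x‖ / ((2 : ℝ) ^ k) ^ 17 * 2 := by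
    intro j hj
    unfold far
    rw [← pow_mul, div_eq_mul_one_div ‖x‖, ← one_div_pow]
    gcongr ‖x‖ * ?_ * 2
    exact pow_le_pow_of_le_one (by norm_num) (by norm_num) (by omega)
  rw [one_div_pow]
  refine le_trans ?_ (numer (2 ^ k) ‖x‖ hw (norm_nonneg _))
  refine (Finset.sum_le_card_nsmul _ _ ((1 / H k + D k * (far x k + (1 / H (k + 1) +
    D (k + 1) * far x (k + 1)))) * 8 ^ k) (fun i _ => ?_)).trans ?_
  · gcongr
    exact stepB x Q N0 hs k hk hL i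
  · rw [Finset.card_univ, ZMod.card, nsmul_eq_mul, hD, hD', h8]
    have := hH k le_rfl
    have := hH (k + 1) (Nat.le_succ k)
    have := hf k le_rfl
    have := hf (k + 1) (Nat.le_succ k)
    gcongr

include hs in
lemma bounded_φ : ∃ M : ℝ, ∀ t, ‖φ ((S ^ t) x)‖ ≤ M := by
  have hsum : Summable fun p : I => ‖z p x‖ * 8 ^ p.1 := by
    rw [summable_sigma_of_nonneg (fun _ => by positivity)]
    refine ⟨fun k => Summable.of_finite, ?_⟩
    refine Summable.of_norm_bounded_eventually_nat (summable_geometric_two.mul_left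
      (4096 + 4096 ^ 2 * (2 * ‖x‖) + 4096 ^ 2 + 16 * 4096 ^ 3 * ‖x‖)) ?_
    filter_upwards [eventually_ge_atTop N0, eventually_ge_atTop (Q * (Q * (Q + 1) + 1) + 1)]
      with k h1 h2
    rw [tsum_fintype, Real.norm_of_nonneg (Finset.sum_nonneg fun _ _ => by positivity)]
    exact block_bound x Q N0 hs k h1 h2
  refine ⟨∑' p : I, ‖z p x‖ * 8 ^ p.1, fun t => ?_⟩
  have h := φ.hasSum ((S ^ t).hasSum (hasSum_u x))
  simp only [map_smul, smul_eq_mul] at h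
  refine h.norm_le_of_bounded hsum.hasSum fun p => ?_
  rw [norm_mul]
  gcongr
  exact gam p.1 p.2 t

end small

theorem not_fhc (x : X) : ¬ ∀ U : Set X, IsOpen U → U.Nonempty →
    ∃ c : ℝ, 0 < c ∧ ∃ N₀ : ℕ, ∀ N : ℕ, N₀ ≤ N →
      c * (N : ℝ) ≤ (Nat.card {n : ℕ // n < N ∧ (⇑Se)^[n] x ∈ U} : ℝ) := by
  intro h
  obtain ⟨c, hc, N0, hN⟩ := h (Metric.ball 0 1) Metric.isOpen_ball ⟨0, by simp⟩
  obtain ⟨Q, hQ⟩ := exists_nat_gt (1 / c)
  have hQ1 : 1 < c * Q := by rwa [div_lt_iff₀' hc] at hQ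
  have hQ0 : 1 ≤ Q := by
    rcases Nat.eq_zero_or_pos Q with h | h
    · rw [h] at hQ1; norm_num at hQ1
    · exact h
  have hs : ∀ A, N0 + 1 ≤ A → ∃ t, A ≤ t ∧ t < Q * A ∧ ‖(S ^ t) x‖ < 1 := by
    intro A hA
    by_contra hcon
    push Not at hcon
    have h1 : 1 * A ≤ Q * A := Nat.mul_le_mul_right _ hQ0
    have h2 := hN (Q * A) (by omega)
    have h3 : ∀ a : {n : ℕ // n < Q * A ∧ (⇑Se)^[n] x ∈ Metric.ball (0 : X) 1}, a.1 < A := by
      rintro ⟨a, ha1, ha2⟩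
      by_contra h4
      rw [Se_iter, mem_ball_zero_iff] at ha2
      exact absurd ha2 (not_lt.2 (hcon a (not_lt.1 h4) ha1))
    have h5 := Nat.card_le_card_of_injective (fun a => (⟨a.1, h3 a⟩ : Fin A))
      fun _ _ h => Subtype.ext (congrArg Fin.val h)
    rw [Nat.card_eq_fintype_card (α := Fin A), Fintype.card_fin] at h5
    have h6 := h2.trans (Nat.cast_le.2 h5)
    have h7 : (0 : ℝ) < A := by exact_mod_cast (by omega : 0 < A)
    push_cast at h6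
    nlinarith
  obtain ⟨M, hM⟩ := bounded_φ x Q (N0 + 1) hs
  have hM0 : 0 ≤ M := (norm_nonneg _).trans (hM 0)
  obtain ⟨c', hc', N1, hN1⟩ := h {v | M < ‖φ v‖}
    (isOpen_lt continuous_const φ.continuous.norm) ⟨((M + 1 : ℝ) : ℂ) • u ⟨0, 0⟩, by
      rw [Set.mem_ofPred_eq, map_smul, φ, z_u_self, smul_eq_mul, mul_one, Complex.norm_real,
        Real.norm_of_nonneg (by linarith)]
      linarith⟩
  have h1 := hN1 (N1 + 1) (Nat.le_succ _)
  have : IsEmpty {n : ℕ // n < N1 + 1 ∧ (⇑Se)^[n] x ∈ {v | M < ‖φ v‖}} := by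
    refine ⟨fun ⟨a, _, ha⟩ => ?_⟩
    rw [Se_iter, Set.mem_ofPred_eq] at ha
    exact absurd ha (not_lt.2 (hM a))
  rw [Nat.card_of_isEmpty] at h1
  have h2 : (0 : ℝ) < c' * ((N1 + 1 : ℕ) : ℝ) := by positivity
  push_cast at h1 h2
  linarith

end Pool.Agent.H740Z.Inv
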