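import Mathlib

/-! Synchronous store-and-forward routing of packets along prescribed paths by online
(local-control) protocols.  Nodes and packets may store arbitrary information; information moves
only together with packets. -/

set_option autoImplicit false

namespace Pool.Agent.H740Z.Routing

/-- A deterministic online protocol for `n` packets (named by `Fin n`) in a network with node set
`V`.  Node memories and packet headers take values in an arbitrary type `S`.  In step `t` node `v`
applies `rule t v` to its memory and to the list of packets present at `v` (name, whole path,
position on the path, header).  It returns the new memory, new headers for the packets present,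
and for every node `w` at most one packet to be sent over the edge from `v` to `w`. -/
structure Protocol (V : Type) (n : ℕ) (S : Type) where
  initMem : V → S
  initHdr : Fin n → List V → S
  rule : ℕ → V → S → (Fin n → Option (List V × ℕ × S)) → S × (Fin n → S) × (V → Option (Fin n))

/-- A global state: node memories, packet headers, and the number of edges each packet has
crossed. -/
structure State (V : Type) (n : ℕ) (S : Type) where
  mem : V → S
  hdr : Fin n → S
  pos : Fin n → ℕ

variable {V : Type} [DecidableEq V] {n : ℕ} {S : Type}

/-- What node `v` sees: the packets currently at `v`, with path, position and header. -/
def view (P : Fin n → List V) (σ : State V n S) (v : V) : Fin n → Option (List V × ℕ × S) :=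
  fun i => if (P i)[σ.pos i]? = some v then some (P i, σ.pos i, σ.hdr i) else none

/-- The decision of node `v` in step `t`. -/
def decision (A : Protocol V n S) (P : Fin n → List V) (t : ℕ) (σ : State V n S) (v : V) :
    S × (Fin n → S) × (V → Option (Fin n)) :=
  A.rule t v (σ.mem v) (view P σ v)

/-- One synchronous step: a packet at `v` whose next node is `w` advances exactly when `v` selects
it for the edge from `v` to `w`. -/
def step (A : Protocol V n S) (P : Fin n → List V) (t : ℕ) (σ : State V n S) : State V n S where
  mem v := (decision A P t σ v).1
  hdr i := match (P i)[σ.pos i]? with
    | some v => (decision A P t σ v).2.1 i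
    | none => σ.hdr i
  pos i := match (P i)[σ.pos i]?, (P i)[σ.pos i + 1]? with
    | some v, some w => if (decision A P t σ v).2.2 w = some i then σ.pos i + 1 else σ.pos i
    | _, _ => σ.pos i

/-- The state after `t` steps of protocol `A` on the path collection `P`. -/
def run (A : Protocol V n S) (P : Fin n → List V) : ℕ → State V n S
  | 0 => ⟨A.initMem, fun i => A.initHdr i (P i), fun _ => 0⟩
  | t + 1 => step A P t (run A P t)

/-- All packets are at the last node of their path after `t` steps. -/
def Delivered (A : Protocol V n S) (P : Fin n → List V) (t : ℕ) : Prop :=
  ∀ i, (run A P t).pos i + 1 = (P i).length

/-- The path `p` (a list of nodes) uses the edge from `u` to `w`. -/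
def UsesEdge (p : List V) (u w : V) : Prop := ∃ j : ℕ, p[j]? = some u ∧ p[j + 1]? = some w

open Classical in
/-- The largest number of paths using one edge. -/
noncomputable def congestion [Fintype V] (P : Fin n → List V) : ℕ :=
  Finset.univ.sup fun e : V × V => (Finset.univ.filter fun i => UsesEdge (P i) e.1 e.2).card

/-- The largest number of edges on a path. -/
def dilation (P : Fin n → List V) : ℕ := Finset.univ.sup fun i => (P i).length - 1

end Pool.Agent.H740Z.Routing
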