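import Mathlib
import Pool.Agent.H740Z.RoutingDefs

set_option autoImplicit false

namespace Pool.Agent.H740Z.Routing

variable {V : Type} [DecidableEq V] {n : ℕ} {S : Type}

lemma step_pos_cases (A : Protocol V n S) (P : Fin n → List V) (t : ℕ) (σ : State V n S)
    (i : Fin n) : (step A P t σ).pos i = σ.pos i ∨
      ((step A P t σ).pos i = σ.pos i + 1 ∧ ∃ v w, (P i)[σ.pos i]? = some v ∧
        (P i)[σ.pos i + 1]? = some w ∧ (decision A P t σ v).2.2 w = some i) := by
  unfold step
  simp only
  split
  · rename_i v w h1 h2
    split_ifs with h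
    · right; exact ⟨rfl, v, w, h1, h2, h⟩
    · left; rfl
  · left; rfl

lemma pos_le_succ (A : Protocol V n S) (P : Fin n → List V) (t : ℕ) (i : Fin n) :
    (run A P t).pos i ≤ (run A P (t + 1)).pos i := by
  rcases step_pos_cases A P t (run A P t) i with h | h
  · exact le_of_eq h.symm
  · change _ ≤ (step A P t (run A P t)).pos i
    rw [h.1]; omega

lemma pos_succ_le (A : Protocol V n S) (P : Fin n → List V) (t : ℕ) (i : Fin n) :
    (run A P (t + 1)).pos i ≤ (run A P t).pos i + 1 := by
  rcases step_pos_cases A P t (run A P t) i with h | h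
  · change (step A P t (run A P t)).pos i ≤ _
    rw [h]; omega
  · exact le_of_eq h.1

lemma pos_mono (A : Protocol V n S) (P : Fin n → List V) (i : Fin n) :
    Monotone fun t => (run A P t).pos i :=
  monotone_nat_of_le_succ fun t => pos_le_succ A P t i

/-- Locality: inside a region `U` entered only by the packets of `B`, as the first `L` nodes of
their paths, the run depends only on the paths of the packets of `B`. -/
lemma locality (A : Protocol V n S) (P P' : Fin n → List V) (B : Set (Fin n)) (U : Set V) (L : ℕ)
    (hPP : ∀ i ∈ B, P i = P' i)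
    (hout : ∀ i, i ∉ B → ∀ (s : ℕ) (v : V), (P i)[s]? = some v → v ∉ U)
    (hout' : ∀ i, i ∉ B → ∀ (s : ℕ) (v : V), (P' i)[s]? = some v → v ∉ U)
    (hin : ∀ i ∈ B, ∀ (s : ℕ) (v : V), (P i)[s]? = some v → (v ∈ U ↔ s < L)) (t : ℕ) :
    (∀ v ∈ U, (run A P t).mem v = (run A P' t).mem v) ∧
    ∀ i ∈ B, ((run A P t).pos i < L ↔ (run A P' t).pos i < L) ∧
      ((run A P t).pos i < L → (run A P t).pos i = (run A P' t).pos i ∧
        (run A P t).hdr i = (run A P' t).hdr i) := by
  induction t with
  | zero =>
    refine ⟨fun v _ => rfl, fun i hi => ⟨Iff.rfl, fun _ => ⟨rfl, ?_⟩⟩⟩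
    change A.initHdr i (P i) = A.initHdr i (P' i)
    rw [hPP i hi]
  | succ t ih =>
    obtain ⟨hm, hp⟩ := ih
    have hview : ∀ v ∈ U, view P (run A P t) v = view P' (run A P' t) v := by
      intro v hv
      funext i
      unfold view
      by_cases hi : i ∈ B
      · by_cases hl : (run A P t).pos i < L
        · obtain ⟨h1, h2⟩ := (hp i hi).2 hl
          rw [← h1, ← h2, ← hPP i hi]
        · have hl' : ¬ (run A P' t).pos i < L := fun h => hl ((hp i hi).1.2 h)
          rw [if_neg, if_neg]
          · intro h
            rw [← hPP i hi] at h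
            exact hl' ((hin i hi _ v h).1 hv)
          · intro h
            exact hl ((hin i hi _ v h).1 hv)
      · rw [if_neg (fun h => hout i hi _ v h hv), if_neg (fun h => hout' i hi _ v h hv)]
    have hdec : ∀ v ∈ U, decision A P t (run A P t) v = decision A P' t (run A P' t) v := by
      intro v hv
      unfold decision
      rw [hm v hv, hview v hv]
    refine ⟨fun v hv => ?_, fun i hi => ?_⟩
    · change (decision A P t (run A P t) v).1 = (decision A P' t (run A P' t) v).1
      rw [hdec v hv]
    · by_cases hl : (run A P t).pos i < L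
      · obtain ⟨h1, h2⟩ := (hp i hi).2 hl
        have key : (run A P (t + 1)).pos i = (run A P' (t + 1)).pos i ∧
            (run A P (t + 1)).hdr i = (run A P' (t + 1)).hdr i := by
          change (step A P t (run A P t)).pos i = (step A P' t (run A P' t)).pos i ∧
            (step A P t (run A P t)).hdr i = (step A P' t (run A P' t)).hdr i
          unfold step
          simp only
          rw [← h1, ← h2, ← hPP i hi]
          cases hv : (P i)[(run A P t).pos i]? with
          | none => exact ⟨rfl, rfl⟩
          | some v =>
            have hvU : v ∈ U := (hin i hi _ v hv).2 hl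
            cases hw : (P i)[(run A P t).pos i + 1]? with
            | none => exact ⟨rfl, by simp only [hdec v hvU]⟩
            | some w => exact ⟨by simp only [hdec v hvU], by simp only [hdec v hvU]⟩
        exact ⟨by rw [key.1], fun _ => key⟩
      · have hl' : ¬ (run A P' t).pos i < L := fun h => hl ((hp i hi).1.2 h)
        have h1 := pos_le_succ A P t i
        have h2 := pos_le_succ A P' t i
        exact ⟨⟨fun h => absurd (by omega) hl, fun h => absurd (by omega) hl'⟩,
          fun h => absurd (by omega) hl⟩

/-- `k` packets that still have to cross one common edge: one of them waits `k - 1` steps. -/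
lemma queue (A : Protocol V n S) (P : Fin n → List V) (k T s : ℕ) (p : Fin k → Fin n)
    (hp : Function.Injective p) (u w : V) (hu : ∀ j, (P (p j))[s]? = some u)
    (hw : ∀ j, (P (p j))[s + 1]? = some w) (hT : ∀ j, (run A P T).pos (p j) ≤ s) (m : ℕ)
    (hm : m < k) : ∃ j, (run A P (T + m)).pos (p j) ≤ s := by
  have key : ∀ m, k ≤ (Finset.univ.filter fun j => (run A P (T + m)).pos (p j) ≤ s).card + m := by
    intro m
    induction m with
    | zero => simp [hT]
    | succ m ih =>
      set Q := Finset.univ.filter fun j => (run A P (T + m)).pos (p j) ≤ s with hQ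
      set Q' := Finset.univ.filter fun j => (run A P (T + (m + 1))).pos (p j) ≤ s with hQ'
      have h1 : (Q \ Q').card ≤ 1 := by
        rw [Finset.card_le_one]
        have hsel : ∀ j ∈ Q \ Q', (decision A P (T + m) (run A P (T + m)) u).2.2 w = some (p j) := by
          intro j hj
          simp only [hQ, hQ', Finset.mem_sdiff, Finset.mem_filter, Finset.mem_univ, true_and] at hj
          obtain ⟨ha, hb⟩ := hj
          have hb' : ¬ (step A P (T + m) (run A P (T + m))).pos (p j) ≤ s := hb
          rcases step_pos_cases A P (T + m) (run A P (T + m)) (p j) with h | ⟨h, v, w', h1, h2, h3⟩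
          · omega
          · have hs : (run A P (T + m)).pos (p j) = s := by omega
            rw [hs, hu j] at h1
            rw [hs, hw j] at h2
            cases h1; cases h2
            exact h3
        intro a ha b hb
        have := (hsel a ha).symm.trans (hsel b hb)
        exact hp (Option.some.inj this)
      have h2 : Q.card ≤ (Q \ Q').card + Q'.card := Finset.card_le_card_sdiff_add_card
      omega
  have h := key m
  have : 0 < (Finset.univ.filter fun j => (run A P (T + m)).pos (p j) ≤ s).card := by omega
  obtain ⟨j, hj⟩ := Finset.card_pos.1 this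
  exact ⟨j, (Finset.mem_filter.1 hj).2⟩

end Pool.Agent.H740Z.Routing
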