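import Mathlib
import Pool.Agent.H740Z.RoutingA

set_option autoImplicit false

namespace Pool.Agent.H740Z.Routing

/-- node set of the hard network -/
abbrev Nd (J n R : ℕ) : Type := Fin (2 * J + 1) × Fin n × Fin R

def grp (k : ℕ) {n : ℕ} (l : ℕ) (i : Fin n) : Fin n :=
  ⟨i / k ^ l, lt_of_le_of_lt (Nat.div_le_self _ _) i.2⟩

def path (k J : ℕ) {n R : ℕ} (col : ℕ → Fin n → Fin R) (i : Fin n) : List (Nd J n R) :=
  List.ofFn fun s : Fin (2 * J + 1) => (s, grp k (s / 2 + 1) i, col (s / 2) i)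

variable {k J n R : ℕ} {S : Type}

lemma path_get (col : ℕ → Fin n → Fin R) (i : Fin n) (s : ℕ) (hs : s < 2 * J + 1) :
    (path k J col i)[s]? = some (⟨s, hs⟩, grp k (s / 2 + 1) i, col (s / 2) i) := by
  unfold path
  rw [List.getElem?_ofFn, dif_pos hs]

lemma path_get' (col : ℕ → Fin n → Fin R) (i : Fin n) (s : ℕ) (v : Nd J n R)
    (h : (path k J col i)[s]? = some v) :
    (v.1 : ℕ) = s ∧ v.2.1 = grp k (s / 2 + 1) i ∧ v.2.2 = col (s / 2) i := by
  unfold path at h
  rw [List.getElem?_ofFn] at h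
  split_ifs at h with hs
  cases h
  exact ⟨rfl, rfl, rfl⟩

lemma path_length (col : ℕ → Fin n → Fin R) (i : Fin n) : (path k J col i).length = 2 * J + 1 := by
  simp [path]

lemma path_nodup (col : ℕ → Fin n → Fin R) (i : Fin n) : (path k J col i).Nodup := by
  unfold path
  rw [List.nodup_ofFn]
  intro s s' h
  exact congrArg Prod.fst h

lemma div_div_pow (i a b : ℕ) (hab : a ≤ b) : i / k ^ a / k ^ (b - a) = i / k ^ b := by
  rw [Nat.div_div_eq_div_mul, ← pow_add, Nat.add_sub_cancel' hab]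

lemma local_tree (A : Protocol (Nd J n R) n S) (col col' : ℕ → Fin n → Fin R) (h x : ℕ)
    (hc : ∀ (l : ℕ) (i : Fin n), (i : ℕ) / k ^ h = x → col l i = col' l i) (t : ℕ) (i : Fin n)
    (hi : (i : ℕ) / k ^ h = x) :
    (run A (path k J col) t).pos i < 2 * h ↔ (run A (path k J col') t).pos i < 2 * h := by
  have hU : ∀ (c : ℕ → Fin n → Fin R) (i : Fin n) (s : ℕ) (v : Nd J n R),
      (path k J c i)[s]? = some v →
      (((v.1 : ℕ) < 2 * h ∧ (v.2.1 : ℕ) / k ^ (h - (v.1 / 2 + 1)) = x) ↔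
        (s < 2 * h ∧ (i : ℕ) / k ^ h = x)) := by
    intro c i s v hv
    obtain ⟨h1, h2, -⟩ := path_get' c i s v hv
    rw [h1, h2]
    refine and_congr_right fun hs => ?_
    change (i : ℕ) / k ^ (s / 2 + 1) / k ^ (h - (s / 2 + 1)) = x ↔ _
    rw [div_div_pow _ _ _ (by omega)]
  refine ((locality A (path k J col) (path k J col') {i | (i : ℕ) / k ^ h = x}
    {v | (v.1 : ℕ) < 2 * h ∧ (v.2.1 : ℕ) / k ^ (h - (v.1 / 2 + 1)) = x} (2 * h) ?_ ?_ ?_ ?_ t).2
      i hi).1
  · intro i hi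
    unfold path
    congr 1
    funext s
    rw [hc _ i hi]
  · intro i hi s v hv hv'
    exact hi ((hU col i s v hv).1 hv').2
  · intro i hi s v hv hv'
    exact hi ((hU col' i s v hv).1 hv').2
  · intro i hi s v hv
    refine (hU col i s v hv).trans ⟨fun h => h.1, fun h => ⟨h, hi⟩⟩

/-- the inductive claim -/
def Claim (k : ℕ) (A : Protocol (Nd J n R) n S) (h x : ℕ) (col col' : ℕ → Fin n → Fin R) : Prop :=
  (∀ l, h ≤ l → ∀ i, col' l i = col l i) ∧
  (∀ l < h, ∀ i i' : Fin n, (i : ℕ) / k ^ h = x → (i : ℕ) / k ^ l = (i' : ℕ) / k ^ l →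
    col' l i = col' l i' → i = i') ∧
  ∃ i : Fin n, (i : ℕ) / k ^ h = x ∧ ∀ t < h * k, (run A (path k J col') t).pos i < 2 * h

lemma card_grp_le (hk : 0 < k) (h y : ℕ) :
    (Finset.univ.filter fun i : Fin n => (i : ℕ) / k ^ h = y).card ≤ k ^ h := by
  have hp : 0 < k ^ h := pow_pos hk h
  refine le_trans ?_ (le_of_eq (Finset.card_range (k ^ h)))
  refine Finset.card_le_card_of_injOn (fun i => (i : ℕ) % k ^ h) ?_ ?_
  · intro i _
    simpa using Nat.mod_lt _ hp
  · intro i hi i' hi' hii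
    simp only [Finset.coe_filter, Finset.mem_univ, true_and, Set.mem_ofPred_eq] at hi hi'
    apply Fin.ext
    have hii' : (i : ℕ) % k ^ h = (i' : ℕ) % k ^ h := hii
    rw [← Nat.div_add_mod (i : ℕ) (k ^ h), ← Nat.div_add_mod (i' : ℕ) (k ^ h), hi, hi', hii']

/-- colours that can be given to the late packet -/
lemma few_bad (hk : 0 < k) (hR : 0 < R) (h y : ℕ) (p : (Fin n → Fin R) → Fin n)
    (hp : ∀ d, ((p d : Fin n) : ℕ) / k ^ h = y) (B : Finset (Fin R))
    (hB : ∀ r ∈ B, ¬ ∃ d : Fin n → Fin R,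
      (∀ i i' : Fin n, (i : ℕ) / k ^ h = y → (i' : ℕ) / k ^ h = y → d i = d i' → i = i') ∧
        d (p d) = r) : B.card < k ^ h := by
  classical
  by_contra hcon
  push Not at hcon
  set G := Finset.univ.filter fun i : Fin n => (i : ℕ) / k ^ h = y with hG
  have hle : Fintype.card G ≤ Fintype.card B := by
    rw [Fintype.card_coe, Fintype.card_coe]
    exact (card_grp_le hk h y).trans hcon
  obtain ⟨e⟩ := Function.Embedding.nonempty_of_card_le hle
  have hmem : ∀ i : Fin n, (i : ℕ) / k ^ h = y → i ∈ G := fun i hi => by simp [hG, hi]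
  let d : Fin n → Fin R := fun i => if hi : i ∈ G then (e ⟨i, hi⟩ : Fin R) else ⟨0, hR⟩
  have hd : ∀ i (hi : i ∈ G), d i = (e ⟨i, hi⟩ : Fin R) := fun i hi => dif_pos hi
  refine hB (d (p d)) ?_ ⟨d, ?_, rfl⟩
  · rw [hd _ (hmem _ (hp d))]; exact (e _).2
  · intro i i' hi hi' hii
    rw [hd _ (hmem _ hi), hd _ (hmem _ hi')] at hii
    exact congrArg Subtype.val (e.injective (Subtype.ext hii))

lemma claim_step (hk : 0 < k) (A : Protocol (Nd J n R) n S) (h x : ℕ) (hJ : h < J)
    (hR : k ^ (h + 1) ≤ R)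
    (ih : ∀ j < k, ∀ col, ∃ col', Claim k A h (x * k + j) col col')
    (col : ℕ → Fin n → Fin R) :
    ∃ col', Claim k A (h + 1) x col col' ∧ ∃ (p : Fin k → Fin n) (r : Fin R),
      Function.Injective p ∧ ∀ j, ((p j : Fin n) : ℕ) / k ^ (h + 1) = x ∧ col' h (p j) = r := by
  classical
  have hR0 : 0 < R := lt_of_lt_of_le (pow_pos hk _) hR
  have ih' : ∀ (j : Fin k) (d : Fin n → Fin R), ∃ col', Claim k A h (x * k + j)
      (Function.update col h d) col' := fun j d => ih j j.2 _
  choose c hc using ih'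
  choose p hp1 hp2 using fun j d => (hc j d).2.2
  let B : Fin k → Finset (Fin R) := fun j => Finset.univ.filter fun r => ¬ ∃ d : Fin n → Fin R,
      (∀ i i' : Fin n, (i : ℕ) / k ^ h = x * k + j → (i' : ℕ) / k ^ h = x * k + j →
        d i = d i' → i = i') ∧ d (p j d) = r
  have hB : ∀ j, (B j).card < k ^ h := fun j =>
    few_bad hk hR0 h (x * k + j) (p j) (hp1 j) (B j) fun r hr => (Finset.mem_filter.1 hr).2
  have hcard : (Finset.univ.biUnion B).card < (Finset.univ : Finset (Fin R)).card := by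
    refine lt_of_le_of_lt Finset.card_biUnion_le ?_
    have : ∑ j : Fin k, (B j).card < ∑ _j : Fin k, k ^ h :=
      Finset.sum_lt_sum_of_nonempty ⟨⟨0, hk⟩, Finset.mem_univ _⟩ fun j _ => hB j
    rw [Finset.sum_const, Finset.card_univ, Fintype.card_fin, smul_eq_mul] at this
    rw [Finset.card_univ, Fintype.card_fin]
    rw [pow_succ, mul_comm] at hR
    omega
  obtain ⟨r, -, hr⟩ := Finset.exists_mem_notMem_of_card_lt_card hcard
  have hr' : ∀ j : Fin k, ∃ d : Fin n → Fin R,
      (∀ i i' : Fin n, (i : ℕ) / k ^ h = x * k + j → (i' : ℕ) / k ^ h = x * k + j →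
        d i = d i' → i = i') ∧ d (p j d) = r := by
    intro j
    by_contra hcon
    exact hr (Finset.mem_biUnion.2 ⟨j, Finset.mem_univ _,
      Finset.mem_filter.2 ⟨Finset.mem_univ _, hcon⟩⟩)
  choose d hd1 hd2 using hr'
  let jj : Fin n → Fin k := fun i => ⟨(i : ℕ) / k ^ h % k, Nat.mod_lt _ hk⟩
  let col' : ℕ → Fin n → Fin R := fun l i => c (jj i) (d (jj i)) l i
  have hjj : ∀ (i : Fin n) (j : Fin k), (i : ℕ) / k ^ h = x * k + j → jj i = j := by
    intro i j hi
    apply Fin.ext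
    change (i : ℕ) / k ^ h % k = j
    rw [hi, Nat.mul_add_mod_of_lt j.2]
  have hjj' : ∀ i : Fin n, (i : ℕ) / k ^ (h + 1) = x → (i : ℕ) / k ^ h = x * k + jj i := by
    intro i hi
    change (i : ℕ) / k ^ h = x * k + (i : ℕ) / k ^ h % k
    rw [← hi, pow_succ, ← Nat.div_div_eq_div_mul, Nat.div_add_mod']
  have hup : ∀ (i : Fin n) (j : Fin k), (i : ℕ) / k ^ h = x * k + j →
      (i : ℕ) / k ^ (h + 1) = x := by
    intro i j hi
    rw [pow_succ, ← Nat.div_div_eq_div_mul, hi, Nat.add_comm, Nat.add_mul_div_right _ _ hk,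
      Nat.div_eq_of_lt j.2, zero_add]
  have hch : ∀ i, col' h i = d (jj i) i := by
    intro i
    change c (jj i) (d (jj i)) h i = _
    rw [(hc _ _).1 h le_rfl, Function.update_self]
  let q : Fin k → Fin n := fun j => p j (d j)
  have hq1 : ∀ j, ((q j : Fin n) : ℕ) / k ^ h = x * k + j := fun j => hp1 j (d j)
  have hqinj : Function.Injective q := by
    intro j j' hj
    rw [← hjj _ _ (hq1 j), ← hjj _ _ (hq1 j'), hj]
  have hqc : ∀ j, col' h (q j) = r := by
    intro j
    rw [hch, hjj _ _ (hq1 j)]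
    exact hd2 j
  refine ⟨col', ⟨?_, ?_, ?_⟩, q, r, hqinj, fun j => ⟨hup _ j (hq1 j), hqc j⟩⟩
  · intro l hl i
    change c (jj i) (d (jj i)) l i = _
    rw [(hc _ _).1 l (by omega), Function.update_of_ne (by omega)]
  · intro l hl i i' hi hii hcc
    have h1 := hjj' i hi
    have h2 : (i' : ℕ) / k ^ h = (i : ℕ) / k ^ h := by
      rw [← div_div_pow (i' : ℕ) l h (by omega), ← div_div_pow (i : ℕ) l h (by omega), hii]
    have h3 : jj i' = jj i := hjj _ _ (h2.trans h1)
    rcases Nat.lt_succ_iff_lt_or_eq.1 hl with hl' | rfl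
    · refine (hc (jj i) (d (jj i))).2.1 l hl' i i' h1 hii ?_
      have : col' l i' = c (jj i) (d (jj i)) l i' := by
        change c (jj i') (d (jj i')) l i' = _
        rw [h3]
      rw [← this]; exact hcc
    · rw [hch, hch, h3] at hcc
      exact hd1 (jj i) i i' h1 (h2.trans h1) hcc
  · have hlate : ∀ j, ∀ t < h * k, (run A (path k J col') t).pos (q j) < 2 * h := by
      intro j t ht
      rw [local_tree A col' (c j (d j)) h (x * k + j) ?_ t (q j) (hq1 j)]
      · exact hp2 j (d j) t ht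
      · intro l i hi
        change c (jj i) (d (jj i)) l i = _
        rw [hjj _ _ hi]
    have hT : ∀ j, (run A (path k J col') (h * k)).pos (q j) ≤ 2 * h := by
      intro j
      cases hhk : h * k with
      | zero => exact Nat.zero_le _
      | succ m =>
        have h1 := hlate j m (by omega)
        have h2 := pos_succ_le A (path k J col') m (q j)
        omega
    have hgrp : ∀ j, grp k (h + 1) (q j) = grp k (h + 1) (q ⟨0, hk⟩) := by
      intro j
      apply Fin.ext
      change ((q j : Fin n) : ℕ) / k ^ (h + 1) = ((q ⟨0, hk⟩ : Fin n) : ℕ) / k ^ (h + 1)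
      rw [hup _ _ (hq1 j), hup _ _ (hq1 _)]
    have hu : ∀ j, (path k J col' (q j))[2 * h]? =
        some (⟨2 * h, by omega⟩, grp k (h + 1) (q ⟨0, hk⟩), r) := by
      intro j
      rw [path_get _ _ _ (by omega), show 2 * h / 2 = h by omega, hgrp j, hqc j]
    have hw : ∀ j, (path k J col' (q j))[2 * h + 1]? =
        some (⟨2 * h + 1, by omega⟩, grp k (h + 1) (q ⟨0, hk⟩), r) := by
      intro j
      rw [path_get _ _ _ (by omega), show (2 * h + 1) / 2 = h by omega, hgrp j, hqc j]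
    obtain ⟨j, hj⟩ := queue A (path k J col') k (h * k) (2 * h) q hqinj _ _ hu hw hT (k - 1)
      (by omega)
    refine ⟨q j, hup _ j (hq1 j), fun t ht => ?_⟩
    have h1 : (run A (path k J col') t).pos (q j) ≤
        (run A (path k J col') (h * k + (k - 1))).pos (q j) :=
      pos_mono A (path k J col') (q j) (by rw [add_mul] at ht; omega)
    omega

lemma claim_all (hk : 0 < k) (A : Protocol (Nd J n R) n S) (hR : k ^ J ≤ R) (h : ℕ) (hJ : h ≤ J) :
    ∀ x, (x + 1) * k ^ h ≤ n → ∀ col, ∃ col', Claim k A h x col col' := by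
  induction h with
  | zero =>
    intro x hx col
    refine ⟨col, fun _ _ _ => rfl, fun l hl => absurd hl (Nat.not_lt_zero _),
      ⟨x, by simpa using hx⟩, by simp, fun t ht => by simp at ht⟩
  | succ h ih =>
    intro x hx col
    obtain ⟨col', hc, -⟩ := claim_step hk A h x (by omega)
      ((Nat.pow_le_pow_right hk hJ).trans hR) (fun j hj => ih (by omega) _ (by
        refine le_trans ?_ hx
        rw [pow_succ]
        nlinarith [pow_pos hk h])) col
    exact ⟨col', hc⟩

end Pool.Agent.H740Z.Routing
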