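import Mathlib
import Pool.Agent.H740Z.RoutingB

set_option autoImplicit false

open MeasureTheory Filter

namespace Pool.Agent.H740Z.Routing

variable {k J n : ℕ} {S : Type}

def dflt (hk : 0 < k) (J n : ℕ) : ℕ → Fin n → Fin (k ^ J) :=
  fun _ i => ⟨i % k ^ J, Nat.mod_lt _ (pow_pos hk J)⟩

def extd (hk : 0 < k) (n : ℕ) (g : Fin (J + 1) → Fin (k ^ J) → Fin (k ^ J)) :
    ℕ → Fin n → Fin (k ^ J) :=
  fun l i => if h : l < J + 1 ∧ (i : ℕ) < k ^ J then g ⟨l, h.1⟩ ⟨i, h.2⟩ else dflt hk J n l i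

lemma congestion_le (hk : 0 < k) {R : ℕ} (col : ℕ → Fin n → Fin R)
    (hv : ∀ l < J, ∀ i i' : Fin n, (i : ℕ) / k ^ l = (i' : ℕ) / k ^ l → col l i = col l i' →
      i = i') : congestion (path k J col) ≤ k := by
  classical
  unfold congestion
  refine Finset.sup_le fun e _ => ?_
  refine le_trans ?_ (le_of_eq (Finset.card_range k))
  refine Finset.card_le_card_of_injOn (fun i => (i : ℕ) / k ^ ((e.1.1 : ℕ) / 2) % k) ?_ ?_
  · intro i _
    simpa using Nat.mod_lt _ hk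
  · intro i hi i' hi' hii
    simp only [Finset.coe_filter, Finset.mem_univ, true_and, Set.mem_ofPred_eq] at hi hi'
    obtain ⟨s, h1, h2⟩ := hi
    obtain ⟨s', h1', h2'⟩ := hi'
    obtain ⟨a1, a2, a3⟩ := path_get' col i s _ h1
    obtain ⟨b1, b2, b3⟩ := path_get' col i' s' _ h1'
    obtain ⟨c1, -, -⟩ := path_get' col i _ _ h2
    have hs : s' = s := by omega
    subst hs
    have hlt := e.2.1.2
    have hii' : (i : ℕ) / k ^ ((e.1.1 : ℕ) / 2) % k = (i' : ℕ) / k ^ ((e.1.1 : ℕ) / 2) % k := hii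
    rw [a1] at hii'
    have hg : (i : ℕ) / k ^ (s' / 2 + 1) = (i' : ℕ) / k ^ (s' / 2 + 1) :=
      congrArg Fin.val (a2.symm.trans b2)
    rw [pow_succ, ← Nat.div_div_eq_div_mul, ← Nat.div_div_eq_div_mul] at hg
    refine hv (s' / 2) (by omega) i i' ?_ (a3.symm.trans b3)
    rw [← Nat.div_add_mod ((i : ℕ) / k ^ (s' / 2)) k, ← Nat.div_add_mod ((i' : ℕ) / k ^ (s' / 2)) k,
      hg, hii']

lemma le_congestion {R : ℕ} (hk : 0 < k) (col : ℕ → Fin n → Fin R) (h x : ℕ) (hJ : h < J)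
    (p : Fin k → Fin n) (r : Fin R) (hp : Function.Injective p)
    (hx : ∀ j, ((p j : Fin n) : ℕ) / k ^ (h + 1) = x ∧ col h (p j) = r) :
    k ≤ congestion (path k J col) := by
  classical
  unfold congestion
  have hgrp : ∀ j, grp k (h + 1) (p j) = grp k (h + 1) (p ⟨0, hk⟩) := by
    intro j
    apply Fin.ext
    change ((p j : Fin n) : ℕ) / k ^ (h + 1) = ((p ⟨0, hk⟩ : Fin n) : ℕ) / k ^ (h + 1)
    rw [(hx j).1, (hx _).1]
  refine le_trans ?_ (Finset.le_sup (f := fun e : Nd J n R × Nd J n R =>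
    (Finset.univ.filter fun i => UsesEdge (path k J col i) e.1 e.2).card)
    (Finset.mem_univ ((⟨2 * h, by omega⟩, grp k (h + 1) (p ⟨0, hk⟩), r),
      (⟨2 * h + 1, by omega⟩, grp k (h + 1) (p ⟨0, hk⟩), r))))
  refine le_trans (le_of_eq (Finset.card_fin k).symm) ?_
  refine Finset.card_le_card_of_injOn p ?_ hp.injOn
  intro j _
  simp only [Finset.coe_filter, Finset.mem_univ, true_and, Set.mem_ofPred_eq]
  refine ⟨2 * h, ?_, ?_⟩
  · rw [path_get _ _ _ (by omega), show 2 * h / 2 = h by omega, hgrp j, (hx j).2]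
  · rw [path_get _ _ _ (by omega), show (2 * h + 1) / 2 = h by omega, hgrp j, (hx j).2]

lemma det (hk : 0 < k) (h : ℕ) (hn : k ^ (h + 1) ≤ n)
    (A : Protocol (Nd (h + 1) n (k ^ (h + 1))) n S) :
    ∃ g : Fin (h + 1 + 1) → Fin (k ^ (h + 1)) → Fin (k ^ (h + 1)),
      congestion (path k (h + 1) (extd hk n g)) = k ∧
      ∀ t < (h + 1) * k, ¬ Delivered A (path k (h + 1) (extd hk n g)) t := by
  obtain ⟨col', ⟨c1, c2, i, c3, c4⟩, p, r, hp, hx⟩ := claim_step hk A h 0 (by omega) le_rfl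
    (fun j hj => claim_all hk A le_rfl h (by omega) _ (by
      refine le_trans ?_ hn
      rw [pow_succ]
      nlinarith [pow_pos hk h])) (dflt hk (h + 1) n)
  have hpos : 0 < k ^ (h + 1) := pow_pos hk _
  let g : Fin (h + 1 + 1) → Fin (k ^ (h + 1)) → Fin (k ^ (h + 1)) :=
    fun l i => col' l ⟨i, lt_of_lt_of_le i.2 hn⟩
  have hg : ∀ (l : ℕ) (i : Fin n), (i : ℕ) / k ^ (h + 1) = 0 → extd hk n g l i = col' l i := by
    intro l i hi
    have hi' : (i : ℕ) < k ^ (h + 1) := by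
      rwa [Nat.div_eq_zero_iff_lt hpos] at hi
    unfold extd
    split_ifs with hh
    · rfl
    · rw [c1 l (by omega)]
  have hg' : ∀ (l : ℕ) (i : Fin n), (i : ℕ) / k ^ (h + 1) ≠ 0 →
      extd hk n g l i = dflt hk (h + 1) n l i := by
    intro l i hi
    have hi' : ¬ (i : ℕ) < k ^ (h + 1) := by
      rwa [Ne, Nat.div_eq_zero_iff_lt hpos] at hi
    unfold extd
    rw [dif_neg fun hh => hi' hh.2]
  refine ⟨g, le_antisymm (congestion_le hk _ ?_) ?_, ?_⟩
  · intro l hl a b hab hc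
    have h2 : (a : ℕ) / k ^ (h + 1) = (b : ℕ) / k ^ (h + 1) := by
      rw [← div_div_pow (a : ℕ) l (h + 1) (by omega), ← div_div_pow (b : ℕ) l (h + 1) (by omega),
        hab]
    by_cases ha : (a : ℕ) / k ^ (h + 1) = 0
    · rw [hg l a ha, hg l b (h2 ▸ ha)] at hc
      exact c2 l hl a b ha hab hc
    · rw [hg' l a ha, hg' l b (h2 ▸ ha)] at hc
      have h3 : (a : ℕ) % k ^ (h + 1) = (b : ℕ) % k ^ (h + 1) := congrArg Fin.val hc
      apply Fin.ext
      rw [← Nat.div_add_mod (a : ℕ) (k ^ (h + 1)), ← Nat.div_add_mod (b : ℕ) (k ^ (h + 1)), h2, h3]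
  · exact le_congestion hk _ h 0 (by omega) p r hp fun j =>
      ⟨(hx j).1, by rw [hg _ _ (hx j).1]; exact (hx j).2⟩
  · intro t ht hD
    have h1 := (local_tree A (extd hk n g) col' (h + 1) 0 hg t i c3).2 (c4 t ht)
    have h2 := hD i
    rw [path_length] at h2
    omega

lemma dilation_le {R : ℕ} (col : ℕ → Fin n → Fin R) : dilation (path k J col) ≤ 2 * J := by
  unfold dilation
  refine Finset.sup_le fun i _ => ?_
  rw [path_length]; omega

lemma rand (hk : 0 < k) (h : ℕ) (hn : k ^ (h + 1) ≤ n) (c : ℕ)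
    (hc : c * (k + 2 * (h + 1)) < (h + 1) * k) (η : ℝ) (hη0 : 0 ≤ η)
    (hη : ((k ^ (h + 1) : ℕ) : ℝ) ^ (k ^ (h + 1) * (h + 1 + 1)) * η < 1)
    (Ω : Type) [MeasurableSpace Ω] (μ : Measure Ω) [IsProbabilityMeasure μ]
    (A : Ω → Protocol (Nd (h + 1) n (k ^ (h + 1))) n S) :
    ∃ col : ℕ → Fin n → Fin (k ^ (h + 1)), congestion (path k (h + 1) col) = k ∧
      ENNReal.ofReal η < μ {ω | ¬ Delivered (A ω) (path k (h + 1) col)
        (c * (congestion (path k (h + 1) col) + dilation (path k (h + 1) col)))} := by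
  classical
  by_contra hcon
  push Not at hcon
  set G := Finset.univ.filter fun g : Fin (h + 1 + 1) → Fin (k ^ (h + 1)) → Fin (k ^ (h + 1)) =>
    congestion (path k (h + 1) (extd hk n g)) = k with hG
  let F : (Fin (h + 1 + 1) → Fin (k ^ (h + 1)) → Fin (k ^ (h + 1))) → Set Ω := fun g =>
    {ω | ¬ Delivered (A ω) (path k (h + 1) (extd hk n g))
      (c * (congestion (path k (h + 1) (extd hk n g)) + dilation (path k (h + 1) (extd hk n g))))}
  have hcov : (Set.univ : Set Ω) ⊆ ⋃ g ∈ G, F g := by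
    intro ω _
    obtain ⟨g, h1, h2⟩ := det hk h hn (A ω)
    simp only [Set.mem_iUnion]
    refine ⟨g, by simp [hG, h1], h2 _ ?_⟩
    rw [h1]
    exact lt_of_le_of_lt (Nat.mul_le_mul_left _ (Nat.add_le_add_left (dilation_le _) _)) hc
  have h1 : (1 : ENNReal) ≤ ∑ g ∈ G, μ (F g) := by
    rw [← measure_univ (μ := μ)]
    exact (measure_mono hcov).trans (measure_biUnion_finset_le _ _)
  have h2 : ∑ g ∈ G, μ (F g) ≤ G.card • ENNReal.ofReal η :=
    Finset.sum_le_card_nsmul _ _ _ fun g hg => hcon _ (Finset.mem_filter.1 hg).2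
  have h3 : G.card ≤ (k ^ (h + 1)) ^ (k ^ (h + 1) * (h + 1 + 1)) := by
    refine (Finset.card_le_univ _).trans (le_of_eq ?_)
    simp only [Fintype.card_pi, Fintype.card_fin, Finset.prod_const, Finset.card_univ]
    rw [← pow_mul]
  have h4 : (G.card : ℝ) * η < 1 := by
    refine lt_of_le_of_lt (mul_le_mul_of_nonneg_right ?_ hη0) hη
    exact_mod_cast h3
  have h5 : G.card • ENNReal.ofReal η < 1 := by
    rw [nsmul_eq_mul, ← ENNReal.ofReal_natCast, ← ENNReal.ofReal_mul (by positivity)]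
    exact ENNReal.ofReal_lt_one.2 h4
  exact absurd (h1.trans h2) (not_le.2 h5)

lemma numerics (ε α : ℝ) (hε : 0 < ε) (hα : 0 < α) (c : ℕ) :
    ∃ δ : ℝ, 0 < δ ∧ ∃ n₀ : ℕ, ∀ n ≥ n₀, ∃ k : ℕ, 0 < k ∧ k ^ (c + 1) ≤ n ∧
      c * (k + 2 * (c + 1)) < (c + 1) * k ∧ Real.log n ^ δ ≤ k ∧
      (k : ℝ) < Real.log n ^ (1 + ε) ∧ ((2 * (c + 1) : ℕ) : ℝ) < Real.log n ^ (1 + ε) ∧
      ((k ^ (c + 1) : ℕ) : ℝ) ^ (k ^ (c + 1) * (c + 1 + 1)) * (n : ℝ) ^ (-α) < 1 := by
  set J := c + 1 with hJ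
  have hJ0 : (0 : ℝ) < J := by positivity
  have hJ1 : 1 ≤ J := by omega
  set δ : ℝ := 1 / (4 * J) with hδ
  have hδ0 : 0 < δ := by positivity
  have hlog : Tendsto (fun n : ℕ => Real.log n) atTop atTop :=
    Real.tendsto_log_atTop.comp tendsto_natCast_atTop_atTop
  have hy : Tendsto (fun n : ℕ => Real.log n ^ δ) atTop atTop :=
    (tendsto_rpow_atTop hδ0).comp hlog
  set B : ℝ := 1 + 2 ^ J + 2 * J * (c + 1) + 4 ^ J * (J + 1) / α with hB
  obtain ⟨n₀, hn₀⟩ := eventually_atTop.1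
    ((hy.eventually_gt_atTop B).and ((hlog.eventually_ge_atTop 1).and (eventually_ge_atTop 1)))
  refine ⟨δ, hδ0, n₀, fun n hn => ?_⟩
  obtain ⟨h1, hL1, hn1⟩ := hn₀ n hn
  set L := Real.log n with hL
  set y := L ^ δ with hy'
  have p1 : (0 : ℝ) < 2 ^ J := by positivity
  have p2 : (0 : ℝ) ≤ 2 * J * (c + 1) := by positivity
  have p3 : (0 : ℝ) < 4 ^ J * (J + 1) / α := by positivity
  have hy1 : 1 < y := by linarith
  set z := y ^ J with hz
  have hyz : y ≤ z := le_self_pow₀ hy1.le (by omega)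
  have hLz : L = z ^ 4 := by
    rw [hz, hy', ← pow_mul, ← Real.rpow_natCast, ← Real.rpow_mul (by linarith)]
    have : δ * ((J * 4 : ℕ) : ℝ) = 1 := by
      rw [hδ]; push_cast; field_simp
    rw [this, Real.rpow_one]
  set k := ⌈y⌉₊ with hk
  have hk1 : y ≤ k := Nat.le_ceil y
  have hk2 : (k : ℝ) ≤ 2 * y := by
    have := Nat.ceil_lt_add_one (show 0 ≤ y by linarith)
    linarith
  have hk0 : 0 < k := by
    have : (0 : ℝ) < k := by linarith
    exact_mod_cast this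
  have hM : ((k ^ J : ℕ) : ℝ) ≤ 2 ^ J * z := by
    push_cast
    rw [hz, ← mul_pow]
    exact pow_le_pow_left₀ (by positivity) hk2 J
  have hz1 : 1 < z := by linarith
  have hz2 : 2 ^ J < z := by linarith
  have hz4 : z * z ≤ z ^ 4 := by
    rw [← pow_two]; exact pow_le_pow_right₀ hz1.le (by norm_num)
  have hML : ((k ^ J : ℕ) : ℝ) < L := by
    rw [hLz]
    have : 2 ^ J * z < z * z := mul_lt_mul_of_pos_right hz2 (by linarith)
    linarith
  have hn0 : (0 : ℝ) < n := by exact_mod_cast hn1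
  have hLn : L ≤ n := by
    have := Real.log_le_sub_one_of_pos hn0
    linarith
  have hLL : L ≤ L ^ (1 + ε) := by
    conv_lhs => rw [← Real.rpow_one L]
    exact Real.rpow_le_rpow_of_exponent_le hL1 (by linarith)
  have hkM : k ≤ k ^ J := Nat.le_self_pow (by omega) k
  refine ⟨k, hk0, ?_, ?_, hk1, ?_, ?_, ?_⟩
  · have : ((k ^ J : ℕ) : ℝ) ≤ n := by linarith
    exact_mod_cast this
  · have h2 : ((2 * J * c : ℕ) : ℝ) < k := by
      push_cast
      nlinarith
    have h3 : 2 * J * c < k := by exact_mod_cast h2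
    nlinarith
  · have : (k : ℝ) ≤ ((k ^ J : ℕ) : ℝ) := by exact_mod_cast hkM
    linarith
  · push_cast
    have hc0 : (0 : ℝ) ≤ c := by positivity
    have : (2 : ℝ) * J ≤ 2 * J * (c + 1) := by nlinarith
    have h5 : z ≤ z * z := by nlinarith
    linarith
  · set M : ℝ := ((k ^ J : ℕ) : ℝ) with hMdef
    have hM0 : 0 ≤ M := by positivity
    have e1 : M ^ (k ^ J * (J + 1)) ≤ Real.exp (M * (M * (J + 1))) := by
      calc M ^ (k ^ J * (J + 1)) ≤ (Real.exp M) ^ (k ^ J * (J + 1)) :=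
            pow_le_pow_left₀ hM0 (by linarith [Real.add_one_le_exp M]) _
        _ = Real.exp (M * (M * (J + 1))) := by
            rw [← Real.exp_nat_mul]; congr 1; rw [hMdef]; push_cast; ring
    have e2 : M * (M * (J + 1)) < α * L := by
      have a1 : M * M ≤ (2 ^ J * z) * (2 ^ J * z) := mul_le_mul hM hM hM0 (by positivity)
      have a2 : (2 ^ J * z) * (2 ^ J * z) = 4 ^ J * (z * z) := by
        rw [show (4 : ℝ) = 2 * 2 by norm_num, mul_pow]; ring
      have a3 : 4 ^ J * (J + 1) / α < z := by linarith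
      rw [div_lt_iff₀ hα] at a3
      have a4 : z * α ≤ z * z * α := by
        apply mul_le_mul_of_nonneg_right _ hα.le
        nlinarith
      have a5 : 4 ^ J * (J + 1) * (z * z) < z * z * α * (z * z) :=
        mul_lt_mul_of_pos_right (by linarith) (by positivity)
      rw [hLz]
      have a6 : M * (M * (J + 1)) ≤ 4 ^ J * (z * z) * (J + 1) := by
        rw [← mul_assoc, ← a2]
        exact mul_le_mul_of_nonneg_right a1 (by positivity)
      nlinarith
    have e3 : (n : ℝ) ^ (-α) = Real.exp (-(α * L)) := by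
      rw [Real.rpow_def_of_pos hn0, hL]; congr 1; ring
    rw [e3]
    calc M ^ (k ^ J * (J + 1)) * Real.exp (-(α * L))
        ≤ Real.exp (M * (M * (J + 1))) * Real.exp (-(α * L)) :=
          mul_le_mul_of_nonneg_right e1 (Real.exp_pos _).le
      _ = Real.exp (M * (M * (J + 1)) - α * L) := by rw [← Real.exp_add]; congr 1
      _ < 1 := by rw [Real.exp_lt_one_iff]; linarith

theorem main (ε α : ℝ) (hε : 0 < ε) (hα : 0 < α) (c : ℕ) :
    ∃ δ : ℝ, 0 < δ ∧ ∃ n₀ : ℕ, ∀ n ≥ n₀,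
      ∃ (V : Type) (_ : Fintype V) (_ : DecidableEq V) (G : Digraph V),
        ∀ (S Ω : Type) [MeasurableSpace Ω] (μ : Measure Ω) [IsProbabilityMeasure μ]
          (A : Ω → Protocol V n S),
          ∃ P : Fin n → List V,
            (∀ i, P i ≠ [] ∧ (P i).IsChain G.Adj ∧ (P i).Nodup) ∧
            Real.log n ^ δ ≤ congestion P ∧
            ((max (congestion P) (dilation P) : ℕ) : ℝ) < Real.log n ^ (1 + ε) ∧
            ENNReal.ofReal ((n : ℝ) ^ (-α)) <
              μ {ω | ¬ Delivered (A ω) P (c * (congestion P + dilation P))} := by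
  obtain ⟨δ, hδ, n₀, hn₀⟩ := numerics ε α hε hα c
  refine ⟨δ, hδ, n₀, fun n hn => ?_⟩
  obtain ⟨k, hk, h1, h2, h3, h4, h5, h6⟩ := hn₀ n hn
  refine ⟨Nd (c + 1) n (k ^ (c + 1)), inferInstance, inferInstance, ⊤, ?_⟩
  intro S Ω _ μ _ A
  obtain ⟨col, hc1, hc2⟩ := rand hk c h1 c h2 _ (by positivity) h6 Ω μ A
  refine ⟨path k (c + 1) col, fun i => ⟨?_, ?_, path_nodup col i⟩, by rw [hc1]; exact h3, ?_, hc2⟩
  · intro h
    have := path_length (k := k) (J := c + 1) col i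
    rw [h] at this
    simp at this
  · exact List.isChain_iff_getElem.2 fun _ _ => trivial
  · rw [hc1, Nat.cast_max]
    refine max_lt h4 (lt_of_le_of_lt ?_ h5)
    exact_mod_cast dilation_le col

end Pool.Agent.H740Z.Routing
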